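import Pool.Agent.N979.CP.Stm4
import Pool.Agent.N526.CP.CAPV
import Pool.Agent.N526.CP.SPH
import Pool.Agent.N526.CP.UDER
import Pool.Agent.N526.CP.DETV

/-!
# CAPVG: the value of the calibration (project FB, helper531)
-/

set_option autoImplicit false

open MeasureTheory Metric Set Filter Topology InnerProductGeometry Matrix

namespace Pool.Agent.N531.FB.CAPVG

open Pool.Agent.H241R3.FV Pool.Agent.N526.CP Pool.Agent.N979.CP Pool.Agent.N526.CP.CAPV

variable {d : ℕ}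

theorem ip_smul {n : ℕ} (s : ℝ) (y : E n) (θ : Sph n) : ip (s • y) θ = s * ip y θ := by
  unfold ip
  rw [real_inner_smul_left]

/-- the derivative of `Psi0G` -/
theorem det_psi0G (hd : 1 ≤ d) {s t : ℝ} (R : ℝ) (θ : Sph (d + 1))
    {y : E (d + 1)} (hy : ‖s • y‖ < 1) (ht : 0 < 1 - (t * ip y θ) ^ 2) :
    (fderiv ℝ (Psi0G s t R θ) y).det = s ^ d * (t / R) *
      ((√(1 - (t * ip y θ) ^ 2))⁻¹ * ((√(1 - (s * ip y θ) ^ 2))⁻¹) ^ d) := by
  have hq := q_pos hy θ
  have hne : t * ip y θ ≠ -1 ∧ t * ip y θ ≠ 1 := by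
    constructor <;> intro h <;> rw [h] at ht <;> norm_num at ht
  have hs : HasFDerivAt (fun y : E (d + 1) => s • y) (s • ContinuousLinearMap.id ℝ (E (d + 1))) y :=
    (s • ContinuousLinearMap.id ℝ (E (d + 1))).hasFDerivAt
  have h1 : HasFDerivAt (fun y => Uf θ (s • y))
      ((cl (Vm (s • y) θ)).comp (s • ContinuousLinearMap.id ℝ (E (d + 1)))) y :=
    ((UDER.t d hd (s • y) hy).1 θ).comp y hs
  have h2 : HasFDerivAt (fun y : E (d + 1) => t * ip y θ) (t • innerSL ℝ (θ : E (d + 1))) y := by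
    have : (fun y : E (d + 1) => t * ip y θ) =
        (t • innerSL ℝ (θ : E (d + 1)) : E (d + 1) →L[ℝ] ℝ) := by
      funext y
      unfold ip
      rw [real_inner_comm]
      rfl
    rw [this]
    exact (t • innerSL ℝ (θ : E (d + 1))).hasFDerivAt
  have h3 := (Real.hasDerivAt_arcsin hne.1 hne.2).comp_hasFDerivAt y h2
  have h3' : HasFDerivAt (fun y : E (d + 1) => Real.arcsin (t * ip y θ) / R)
      (R⁻¹ • ((1 / √(1 - (t * ip y θ) ^ 2)) • t • innerSL ℝ (θ : E (d + 1)))) y := by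
    have h := h3.const_mul R⁻¹
    have e : (fun y : E (d + 1) => Real.arcsin (t * ip y θ) / R) =
        fun y => R⁻¹ * (Real.arcsin ∘ fun y : E (d + 1) => t * ip y θ) y := by
      funext y
      rw [div_eq_inv_mul]
      rfl
    rw [e]
    exact h
  have h4 := h3'.smul_const (θ : E (d + 1))
  have h5 := h1.add h4
  have h6 : fderiv ℝ (Psi0G s t R θ) y = _ := h5.fderiv
  rw [h6, det_mat]
  have h7 : mat ((cl (Vm (s • y) θ)).comp (s • ContinuousLinearMap.id ℝ (E (d + 1))) +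
      (R⁻¹ • ((1 / √(1 - (t * ip y θ) ^ 2)) • t • innerSL ℝ (θ : E (d + 1)))).smulRight
        (θ : E (d + 1))) =
      (Vm (s • y) θ * (s • (1 : Matrix (Fin (d + 1)) (Fin (d + 1)) ℝ)) +
        vecMulVec (fun i => (θ : E (d + 1)) i)
        (fun i => (t / R) * (√(1 - (t * ip y θ) ^ 2))⁻¹ * (θ : E (d + 1)) i)) := by
    ext i j
    unfold mat
    have e1 : ((cl (Vm (s • y) θ)).comp (s • ContinuousLinearMap.id ℝ (E (d + 1)))
        (EuclideanSpace.single j 1)) i = s * Vm (s • y) θ i j := by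
      have : (cl (Vm (s • y) θ)).comp (s • ContinuousLinearMap.id ℝ (E (d + 1)))
        (EuclideanSpace.single j 1) = s • cl (Vm (s • y) θ) (EuclideanSpace.single j 1) := by
        simp
      rw [this]
      show s * (cl (Vm (s • y) θ) (EuclideanSpace.single j 1)) i = _
      rw [cl_single]
    have e2 : (inner ℝ (θ : E (d + 1)) (EuclideanSpace.single j (1 : ℝ)) : ℝ) =
        (θ : E (d + 1)) j := by
      rw [EuclideanSpace.inner_single_right]
      simp
    have e3 : (((R⁻¹ • ((1 / √(1 - (t * ip y θ) ^ 2)) • t •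
        innerSL ℝ (θ : E (d + 1)))).smulRight
        (θ : E (d + 1))) (EuclideanSpace.single j 1)) i =
        R⁻¹ * ((1 / √(1 - (t * ip y θ) ^ 2)) * (t * (θ : E (d + 1)) j)) * (θ : E (d + 1)) i := by
      show R⁻¹ * ((1 / √(1 - (t * ip y θ) ^ 2)) *
        (t * inner ℝ (θ : E (d + 1)) (EuclideanSpace.single j (1 : ℝ)))) * (θ : E (d + 1)) i = _
      rw [e2]
    rw [_root_.add_apply]
    show ((cl (Vm (s • y) θ)).comp (s • ContinuousLinearMap.id ℝ (E (d + 1)))
        (EuclideanSpace.single j 1)) i + (((R⁻¹ • ((1 / √(1 - (t * ip y θ) ^ 2)) • t •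
        innerSL ℝ (θ : E (d + 1)))).smulRight
        (θ : E (d + 1))) (EuclideanSpace.single j 1)) i = _
    rw [e1, e3, Matrix.add_apply, Matrix.mul_smul, Matrix.mul_one, Matrix.smul_apply,
      vecMulVec_apply, smul_eq_mul]
    ring
  rw [h7, DETV.t (d + 1) (s • y) θ hy, Matrix.adjugate_smul, Matrix.adjugate_one,
    Matrix.smul_mulVec, Matrix.one_mulVec, Fintype.card_fin, Nat.add_sub_cancel]
  -- the scalar product
  have hsum : ∑ i, (θ : E (d + 1)) i ^ 2 = 1 := by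
    have h := norm_sph θ
    have h2 : ‖(θ : E (d + 1))‖ ^ 2 = ∑ i, ‖(θ : E (d + 1)) i‖ ^ 2 := EuclideanSpace.norm_sq_eq _
    rw [h, one_pow] at h2
    refine Eq.trans ?_ h2.symm
    refine Finset.sum_congr rfl fun i _ => ?_
    rw [Real.norm_eq_abs, sq_abs]
  have hip : ∑ i, (θ : E (d + 1)) i * (s • y) i = ip (s • y) θ := by
    unfold ip
    rw [PiLp.inner_apply]
    refine Finset.sum_congr rfl fun i _ => ?_
    simp
  unfold Wv
  simp only [dotProduct, Pi.smul_apply, smul_eq_mul]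
  rw [← ip_smul s y θ]
  set q : ℝ := √(1 - ip (s • y) θ ^ 2) with hqdef
  set p : ℝ := √(1 - (t * ip y θ) ^ 2) with hpdef
  have hq2 : q ^ 2 = 1 - ip (s • y) θ ^ 2 := Real.sq_sqrt hq.le
  have hq0 : 0 < q := Real.sqrt_pos.2 hq
  calc ∑ i, t / R * p⁻¹ * (θ : E (d + 1)) i * (s ^ d * (q⁻¹ ^ (d + 1 + 1) *
        ((θ : E (d + 1)) i - ip (s • y) θ * (s • y) i)))
      = s ^ d * (t / R) * (p⁻¹ * (q⁻¹ ^ (d + 1 + 1) * (∑ i, (θ : E (d + 1)) i ^ 2 -
          ip (s • y) θ * ∑ i, (θ : E (d + 1)) i * (s • y) i))) := by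
        rw [Finset.mul_sum (f := fun i => (θ : E (d + 1)) i * (s • y) i),
          ← Finset.sum_sub_distrib, Finset.mul_sum, Finset.mul_sum, Finset.mul_sum]
        refine Finset.sum_congr rfl fun i _ => ?_
        ring
    _ = s ^ d * (t / R) * (p⁻¹ * (q⁻¹ ^ (d + 1 + 1) * q ^ 2)) := by
        rw [hsum, hip, hq2]; ring
    _ = s ^ d * (t / R) * (p⁻¹ * q⁻¹ ^ d) := by
        congr 2
        rw [pow_succ q⁻¹ (d + 1), pow_succ q⁻¹ d]
        field_simp

theorem main : S_CAPVG := by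
  intro d hd s t R hs0 hs1 ht0 ht1 hR
  have hprob := (SPH.t d hd).1
  have hnorm : ∀ y ∈ ball (0 : E (d + 1)) 1, ‖s • y‖ < s := by
    intro y hy
    rw [mem_ball_zero_iff] at hy
    rw [norm_smul, Real.norm_of_nonneg hs0.le]
    nlinarith
  have hipb : ∀ y ∈ ball (0 : E (d + 1)) 1, ∀ θ : Sph (d + 1), ip y θ ^ 2 ≤ 1 := by
    intro y hy θ
    rw [mem_ball_zero_iff] at hy
    have h1 := ip_abs y θ
    rw [← sq_abs]
    exact pow_le_one₀ (abs_nonneg _) (h1.trans hy.le)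
  have hle : ∀ y ∈ ball (0 : E (d + 1)) 1, ∀ θ : Sph (d + 1), ∀ c : ℝ,
      1 - c ^ 2 ≤ 1 - (c * ip y θ) ^ 2 := by
    intro y hy θ c
    have h1 := hipb y hy θ
    rw [mul_pow]
    nlinarith [sq_nonneg c]
  have e1 : ∀ θ : Sph (d + 1), ∫ y in ball (0 : E (d + 1)) 1, (fderiv ℝ (Psi0G s t R θ) y).det =
      ∫ y in ball (0 : E (d + 1)) 1, s ^ d * (t / R) *
        ((√(1 - (t * ip y θ) ^ 2))⁻¹ * ((√(1 - (s * ip y θ) ^ 2))⁻¹) ^ d) := by
    intro θ
    refine setIntegral_congr_fun measurableSet_ball fun y hy => ?_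
    refine det_psi0G hd R θ ((hnorm y hy).trans hs1) ?_
    have h1 := hle y hy θ t
    nlinarith
  have e2 : ∫ y in ball (0 : E (d + 1)) 1, (fderiv ℝ (fun y : E (d + 1) => Hf (s • y)) y).det =
      ∫ y in ball (0 : E (d + 1)) 1, s ^ (d + 1) * (√(1 - ‖s • y‖ ^ 2))⁻¹ := by
    refine setIntegral_congr_fun measurableSet_ball fun y hy => ?_
    exact det_hf UDER.t hd ((hnorm y hy).trans hs1)
  -- Fubini
  have hint : Integrable (Function.uncurry fun (θ : Sph (d + 1)) (y : E (d + 1)) =>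
      (√(1 - (t * ip y θ) ^ 2))⁻¹ * ((√(1 - (s * ip y θ) ^ 2))⁻¹) ^ d)
      ((sg (d + 1)).prod (volume.restrict (ball (0 : E (d + 1)) 1))) := by
    have hfin : IsFiniteMeasure (volume.restrict (ball (0 : E (d + 1)) 1)) :=
      ⟨by rw [Measure.restrict_apply_univ]; exact measure_ball_lt_top⟩
    have hmeas : Measurable (Function.uncurry fun (θ : Sph (d + 1)) (y : E (d + 1)) =>
      (√(1 - (t * ip y θ) ^ 2))⁻¹ * ((√(1 - (s * ip y θ) ^ 2))⁻¹) ^ d) := by
      have hc : Continuous (fun z : Sph (d + 1) × E (d + 1) => ip z.2 z.1) := by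
        unfold ip
        fun_prop
      have hc2 := hc.measurable
      unfold Function.uncurry
      fun_prop
    refine Integrable.of_bound hmeas.aestronglyMeasurable
      ((√(1 - t ^ 2))⁻¹ * ((√(1 - s ^ 2))⁻¹) ^ d) ?_
    have hprod : (sg (d + 1)).prod (volume.restrict (ball (0 : E (d + 1)) 1)) =
        ((sg (d + 1)).prod volume).restrict (univ ×ˢ ball (0 : E (d + 1)) 1) := by
      rw [← Measure.prod_restrict, Measure.restrict_univ]
    rw [hprod]
    refine ae_restrict_of_forall_mem (MeasurableSet.univ.prod measurableSet_ball) ?_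
    rintro ⟨θ, y⟩ ⟨_, hy⟩
    show ‖(√(1 - (t * ip y θ) ^ 2))⁻¹ * ((√(1 - (s * ip y θ) ^ 2))⁻¹) ^ d‖ ≤ _
    have h1 := hle y hy θ t
    have h2 := hle y hy θ s
    have h4 : 0 < 1 - s ^ 2 := by nlinarith
    have h4' : 0 < 1 - t ^ 2 := by nlinarith
    rw [Real.norm_of_nonneg (by positivity)]
    have h5 : 0 < √(1 - s ^ 2) := Real.sqrt_pos.2 h4
    have h5' : 0 < √(1 - t ^ 2) := Real.sqrt_pos.2 h4'
    gcongr
  have e3 : ∫ θ, (∫ y in ball (0 : E (d + 1)) 1,
        (√(1 - (t * ip y θ) ^ 2))⁻¹ * ((√(1 - (s * ip y θ) ^ 2))⁻¹) ^ d) ∂(sg (d + 1)) =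
      JJ d s t := by
    rw [integral_integral_swap hint]
    rfl
  have e4 : ∫ y in ball (0 : E (d + 1)) 1, s ^ (d + 1) * (√(1 - ‖s • y‖ ^ 2))⁻¹ = capv d s := by
    rw [integral_const_mul]
    have h := Measure.setIntegral_comp_smul_of_pos volume
      (fun y : E (d + 1) => (√(1 - ‖y‖ ^ 2))⁻¹) (ball (0 : E (d + 1)) 1) hs0
    rw [smul_unitBall_of_pos hs0, finrank_euclideanSpace_fin, smul_eq_mul] at h
    rw [h]
    unfold capv
    rw [← mul_assoc, mul_inv_cancel₀ (pow_ne_zero _ hs0.ne'), one_mul]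
  simp only [e1, integral_const_mul]
  rw [e2, e4, e3]
  ring

end Pool.Agent.N531.FB.CAPVG
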