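import Pool.Agent.N906.KG.Nt
import Pool.Agent.W223.AK.Basic

set_option autoImplicit false
set_option linter.unusedSectionVars false

/-!
# KG/UPNK, part A: integral coordinates of a point
-/

namespace Pool.Agent.N531.KG

open NumberField IsDedekindDomain Finset Filter Topology Pool.Agent.H691R3 Pool.Agent.W223.AK
open Pool.Agent.N906.KG

variable {K : Type} [Field K] [NumberField K] {n : ℕ}

theorem le_iSup' {n : ℕ} (f : Fin n → ℝ) (i : Fin n) : f i ≤ ⨆ j, f j :=
  le_ciSup (Set.finite_range f).bddAbove i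

theorem exists_iSup' {n : ℕ} [NeZero n] (f : Fin n → ℝ) : ∃ i, f i = ⨆ j, f j :=
  exists_eq_ciSup_of_finite

theorem fv_le_one (v : Pr K) (x : 𝓞 K) : fv v (x : K) ≤ 1 := FinitePlace.norm_le_one K v x

theorem sum_mult : ∑ w : InfinitePlace K, (w.mult : ℝ) = Module.finrank ℚ K := by
  have h := InfinitePlace.sum_mult_eq (K := K)
  exact_mod_cast h

/-- the ideals do not depend on the scaling -/
theorem isQ_smul {z x : Fin n → K} {t : K} {P : Fin n → Idl K} (hP : IsQ z P)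
    (hx : ∀ i, x i = t * z i) : IsQ x P := by
  intro i v
  have h1 : ∀ j, fv v (x j) = fv v t * fv v (z j) := fun j => by rw [hx, map_mul]
  have h2 : (⨆ j, fv v (x j)) = fv v t * ⨆ j, fv v (z j) := by
    rw [Real.mul_iSup_of_nonneg ((fv v).nonneg t)]
    exact iSup_congr h1
  rw [h1, h2, hP i v]
  ring

theorem logHeight_scale {z x : Fin n → K} {t : K} (ht : t ≠ 0) (hx : ∀ i, x i = t * z i) :
    Height.logHeight x = Height.logHeight z := by
  have : x = t • z := by
    funext i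
    rw [hx]; rfl
  rw [this, Height.logHeight_smul_eq_logHeight _ ht]

section
variable [NeZero n] {x : Fin n → K}

theorem sup_pos (f : AbsoluteValue K ℝ) (hx : ∀ i, x i ≠ 0) : 0 < ⨆ j, f (x j) := by
  have h : f (x 0) ≤ ⨆ j, f (x j) := le_iSup' (fun j => f (x j)) 0
  exact lt_of_lt_of_le (f.pos (hx 0)) h

theorem sup_posI (w : InfinitePlace K) (hx : ∀ i, x i ≠ 0) : 0 < ⨆ j, w (x j) := by
  have h : w (x 0) ≤ ⨆ j, w (x j) := le_iSup' (fun j => w (x j)) 0
  exact lt_of_lt_of_le (InfinitePlace.pos_iff.mpr (hx 0)) h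

theorem sup_finite (hx : ∀ i, x i ≠ 0) : {v : Pr K | (⨆ j, fv v (x j)) ≠ 1}.Finite := by
  refine (Set.finite_iUnion fun i : Fin n => fv_support_finite (hx i)).subset ?_
  intro v hv
  rw [Set.mem_iUnion]
  by_contra hcon
  push Not at hcon
  apply hv
  have h1 : ∀ i, fv v (x i) = 1 := by
    intro i
    by_contra h
    exact hcon i h
  show (⨆ j, fv v (x j)) = 1
  rw [iSup_congr h1, ciSup_const]

theorem logsup_finite (hx : ∀ i, x i ≠ 0) :
    (Function.support fun v : Pr K => Real.log (⨆ j, fv v (x j))).Finite := by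
  refine (sup_finite hx).subset fun v hv => ?_
  intro h
  rw [Function.mem_support, h, Real.log_one] at hv
  exact hv rfl

theorem logHeight_sum (hx : ∀ i, x i ≠ 0) : Height.logHeight x =
    ∑ w : InfinitePlace K, (w.mult : ℝ) * Real.log (⨆ j, w (x j)) +
      ∑ᶠ v : Pr K, Real.log (⨆ j, fv v (x j)) := by
  have hx0 : x ≠ 0 := fun h => hx 0 (congrFun h 0)
  have e1 : ∏ᶠ v : FinitePlace K, ⨆ i, v (x i) = ∏ᶠ v : Pr K, ⨆ j, fv v (x j) := by
    rw [← finprod_comp_equiv (FinitePlace.equivHeightOneSpectrum (K := K)).symm]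
    rfl
  have hS : (Function.mulSupport fun v : Pr K => ⨆ j, fv v (x j)) ⊆
      ((sup_finite hx).toFinset : Set (Pr K)) := by
    intro v hv
    rw [Set.Finite.coe_toFinset]
    exact hv
  have e2 : ∏ᶠ v : Pr K, (⨆ j, fv v (x j)) = ∏ v ∈ (sup_finite hx).toFinset, ⨆ j, fv v (x j) :=
    finprod_eq_prod_of_mulSupport_subset _ hS
  have e3 : ∑ᶠ v : Pr K, Real.log (⨆ j, fv v (x j)) =
      ∑ v ∈ (sup_finite hx).toFinset, Real.log (⨆ j, fv v (x j)) := by
    refine finsum_eq_sum_of_support_subset _ ?_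
    intro v hv
    apply hS
    intro h
    have h' : (⨆ j, fv v (x j)) = 1 := h
    rw [Function.mem_support, h', Real.log_one] at hv
    exact hv rfl
  rw [Height.logHeight_eq_log_mulHeight, NumberField.mulHeight_eq hx0, e1, e2, e3, Real.log_mul,
    Real.log_prod, Real.log_prod]
  · congr 1
    refine sum_congr rfl fun w _ => ?_
    rw [Real.log_pow]
  · intro v _
    exact (sup_pos (fv v) hx).ne'
  · intro w _
    exact (pow_pos (sup_posI w hx) _).ne'
  · exact (prod_pos fun w _ => pow_pos (sup_posI w hx) _).ne'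
  · exact (prod_pos fun v _ => sup_pos (fv v) hx).ne'

/-- the logarithm of the norm of the greatest common divisor -/
noncomputable def gc (x : Fin n → K) : ℝ := - ∑ᶠ v : Pr K, Real.log (⨆ j, fv v (x j))

theorem len_finsum (a : Idl K) : len a = ∑ᶠ v : Pr K, (a v : ℝ) * Real.log (Nv v) := by
  unfold len
  symm
  refine finsum_eq_sum_of_support_subset _ ?_
  intro v hv
  rw [Finset.mem_coe, Finsupp.mem_support_iff]
  intro h
  rw [Function.mem_support, h, Nat.cast_zero, zero_mul] at hv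
  exact hv rfl

theorem log_norm {P : Fin n → Idl K} (hx : ∀ i, x i ≠ 0) (hP : IsQ x P) (i : Fin n) :
    ∑ w : InfinitePlace K, (w.mult : ℝ) * Real.log (w (x i)) = len (P i) + gc x := by
  have h1 := log_product_formula (K := K) (hx i)
  have h2 : ∑ᶠ v : Pr K, Real.log (fv v (x i)) =
      ∑ᶠ v : Pr K, (Real.log (⨆ j, fv v (x j)) - (P i v : ℝ) * Real.log (Nv v)) := by
    refine finsum_congr fun v => ?_
    rw [hP i v, Real.log_mul (sup_pos (fv v) hx).ne'
      (zpow_pos (Nv_pos v) _).ne', Real.log_zpow]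
    push_cast
    ring
  have h3 : (Function.support fun v : Pr K => (P i v : ℝ) * Real.log (Nv v)).Finite := by
    refine (P i).support.finite_toSet.subset ?_
    intro v hv
    rw [Finset.mem_coe, Finsupp.mem_support_iff]
    intro h
    rw [Function.mem_support, h, Nat.cast_zero, zero_mul] at hv
    exact hv rfl
  rw [finsum_sub_distrib (logsup_finite hx) h3, ← len_finsum] at h2
  unfold gc
  linarith

theorem gc_nonneg {y : Fin n → 𝓞 K} (hy : ∀ i, (y i : K) ≠ 0) :
    0 ≤ gc fun i => (y i : K) := by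
  unfold gc
  rw [← finsum_neg_distrib]
  apply finsum_nonneg
  intro v
  rw [neg_nonneg]
  apply Real.log_nonpos (sup_pos (fv v) hy).le
  obtain ⟨i, hi⟩ := exists_iSup' (fun j => fv v (y j : K))
  rw [← hi]
  exact fv_le_one v (y i)

theorem gc_le {A : ℝ} (hA : 1 ≤ A) (hx : ∀ i, x i ≠ 0)
    (h : ∀ w : InfinitePlace K, (⨆ j, w (x j)) ≤
      A * Real.exp (Height.logHeight x / Module.finrank ℚ K)) :
    gc x ≤ Module.finrank ℚ K * Real.log A := by
  have hd : (0 : ℝ) < Module.finrank ℚ K := by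
    exact_mod_cast Module.finrank_pos
  have h1 := logHeight_sum hx
  have h2 : ∑ w : InfinitePlace K, (w.mult : ℝ) * Real.log (⨆ j, w (x j)) ≤
      ∑ w : InfinitePlace K, (w.mult : ℝ) * (Real.log A +
        Height.logHeight x / Module.finrank ℚ K) := by
    refine Finset.sum_le_sum fun w _ => mul_le_mul_of_nonneg_left ?_ (Nat.cast_nonneg _)
    have h3 := Real.log_le_log (sup_posI w hx) (h w)
    rwa [Real.log_mul (by linarith) (Real.exp_pos _).ne', Real.log_exp] at h3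
  rw [← Finset.sum_mul, sum_mult] at h2
  have h4 : (Module.finrank ℚ K : ℝ) * (Real.log A + Height.logHeight x / Module.finrank ℚ K) =
      Module.finrank ℚ K * Real.log A + Height.logHeight x := by
    field_simp
  rw [h4] at h2
  unfold gc
  linarith

theorem exists_zero {P : Fin n → Idl K} (hx : ∀ i, x i ≠ 0) (hP : IsQ x P) (v : Pr K) :
    ∃ i, P i v = 0 ∧ fv v (x i) = ⨆ j, fv v (x j) := by
  obtain ⟨i, hi⟩ := exists_iSup' (fun j => fv v (x j))
  refine ⟨i, ?_, hi⟩
  have h1 := hP i v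
  rw [hi] at h1
  have h2 := sup_pos (fv v) hx
  have h3 : (Nv v) ^ (-(P i v : ℤ)) = 1 := by
    have : (⨆ j, fv v (x j)) * (Nv v) ^ (-(P i v : ℤ)) = (⨆ j, fv v (x j)) * 1 := by
      rw [mul_one]; exact h1.symm
    exact mul_left_cancel₀ h2.ne' this
  by_contra hne
  rw [zpow_neg, zpow_natCast] at h3
  have h4 : (1 : ℝ) < (Nv v) ^ (P i v) := one_lt_pow₀ (Nv_one_lt v) hne
  have h5 := inv_lt_one_of_one_lt₀ h4
  rw [h3] at h5
  exact lt_irrefl _ h5

theorem lt_of_ne {P : Fin n → Idl K} (hx : ∀ i, x i ≠ 0) (hP : IsQ x P) {v : Pr K} {i : Fin n}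
    (h : P i v ≠ 0) : fv v (x i) < ⨆ j, fv v (x j) := by
  rw [hP i v, zpow_neg, zpow_natCast]
  have h4 : (1 : ℝ) < (Nv v) ^ (P i v) := one_lt_pow₀ (Nv_one_lt v) h
  have h5 := inv_lt_one_of_one_lt₀ h4
  have h2 := sup_pos (fv v) hx
  nlinarith

theorem two_zero {P : Fin n → Idl K} (hx : ∀ i, x i ≠ 0) (hP : IsQ x P) (hs : ∑ i, x i = 0)
    (v : Pr K) : ∃ i j, i ≠ j ∧ P i v = 0 ∧ P j v = 0 := by
  classical
  obtain ⟨i, hi, hi2⟩ := exists_zero hx hP v
  by_contra hcon
  push Not at hcon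
  have h1 : ∀ j, j ≠ i → fv v (x j) < ⨆ j, fv v (x j) := by
    intro j hj
    exact lt_of_ne hx hP fun h => hcon i j (Ne.symm hj) hi h
  have h2 : x i = - ∑ j ∈ univ.erase i, x j := by
    rw [← Finset.add_sum_erase _ _ (Finset.mem_univ i)] at hs
    exact eq_neg_of_add_eq_zero_left hs
  have h3 : fv v (∑ j ∈ univ.erase i, x j) < ⨆ j, fv v (x j) := by
    apply Finset.sum_induction x (fun y => fv v y < ⨆ j, fv v (x j))
    · intro a b ha hb
      exact (fv_na v a b).trans_lt (max_lt ha hb)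
    · rw [map_zero]
      exact sup_pos (fv v) hx
    · intro j hj
      exact h1 j (Finset.ne_of_mem_erase hj)
  rw [← map_neg_eq_map, ← h2, hi2] at h3
  exact lt_irrefl _ h3

theorem tp_of {P : Fin n → Idl K} (hx : ∀ i, x i ≠ 0) (hP : IsQ x P) (hs : ∑ i, x i = 0) :
    Tp (Pool.Agent.N906.NT.Dl n (n - 2)) P := by
  classical
  intro v
  obtain ⟨i, j, hij, hi, hj⟩ := two_zero hx hP hs v
  unfold Pool.Agent.N906.NT.Dl
  rw [Finset.mem_filter]
  refine ⟨Finset.mem_univ _, ?_⟩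
  have h1 : (univ.filter fun i => P i v ≠ 0) ⊆ (univ.erase i).erase j := by
    intro k hk
    rw [Finset.mem_filter] at hk
    rw [Finset.mem_erase, Finset.mem_erase]
    refine ⟨?_, ?_, Finset.mem_univ _⟩
    · rintro rfl; exact hk.2 hj
    · rintro rfl; exact hk.2 hi
  refine (Finset.card_le_card h1).trans ?_
  rw [Finset.card_erase_of_mem (Finset.mem_erase.2 ⟨hij.symm, Finset.mem_univ _⟩),
    Finset.card_erase_of_mem (Finset.mem_univ _), Finset.card_univ, Fintype.card_fin]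
  omega

theorem dv_of {y : Fin n → 𝓞 K} {P D : Fin n → Idl K} (hy : ∀ i, (y i : K) ≠ 0)
    (hP : IsQ (fun i => (y i : K)) P) (hD : ∀ i, D i ≤ P i) : Dv D y := by
  intro k v
  have h1 := hP k v
  simp only at h1
  rw [h1]
  have h2 : (⨆ j, fv v (y j : K)) ≤ 1 := by
    obtain ⟨i, hi⟩ := exists_iSup' (fun j => fv v (y j : K))
    rw [← hi]
    exact fv_le_one v (y i)
  have h3 : (Nv v) ^ (-(P k v : ℤ)) ≤ (Nv v) ^ (-(D k v : ℤ)) := by
    apply zpow_le_zpow_right₀ (Nv_one_lt v).le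
    have : D k v ≤ P k v := hD k v
    omega
  have h4 : (0 : ℝ) < (Nv v) ^ (-(P k v : ℤ)) := zpow_pos (Nv_pos v) _
  nlinarith

end

theorem log_int_ge (y : 𝓞 K) (hy : (y : K) ≠ 0) :
    0 ≤ ∑ w : InfinitePlace K, (w.mult : ℝ) * Real.log (w (y : K)) := by
  have h1 := log_product_formula (K := K) hy
  have h2 : 0 ≤ ∑ᶠ v : Pr K, - Real.log (fv v (y : K)) := by
    apply finsum_nonneg
    intro v
    rw [neg_nonneg]
    exact Real.log_nonpos ((fv v).nonneg _) (fv_le_one v y)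
  rw [finsum_neg_distrib] at h2
  linarith

theorem log_int_ge_Nv (y : 𝓞 K) (hy : (y : K) ≠ 0) (v : Pr K) (hv : fv v (y : K) ≤ (Nv v)⁻¹) :
    Real.log (Nv v) ≤ ∑ w : InfinitePlace K, (w.mult : ℝ) * Real.log (w (y : K)) := by
  have h1 := log_product_formula (K := K) hy
  have hs : (Function.support fun v : Pr K => - Real.log (fv v (y : K))).Finite := by
    refine (log_fv_support_finite hy).subset ?_
    intro v hv
    rw [Function.mem_support] at hv ⊢
    intro h
    apply hv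
    rw [h, neg_zero]
  have h2 : - Real.log (fv v (y : K)) ≤ ∑ᶠ v : Pr K, - Real.log (fv v (y : K)) := by
    apply single_le_finsum v hs
    intro u
    rw [neg_nonneg]
    exact Real.log_nonpos ((fv u).nonneg _) (fv_le_one u y)
  rw [finsum_neg_distrib] at h2
  have h3 : Real.log (fv v (y : K)) ≤ - Real.log (Nv v) := by
    rw [← Real.log_inv]
    exact Real.log_le_log ((fv v).pos hy) hv
  linarith

/-- a lower bound for the absolute values -/
theorem log_w_ge (y : 𝓞 K) (hy : (y : K) ≠ 0) (R : ℝ) (hR : 0 ≤ R)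
    (h : ∀ w : InfinitePlace K, Real.log (w (y : K)) ≤ R) (w : InfinitePlace K) :
    -(Module.finrank ℚ K * R) ≤ Real.log (w (y : K)) := by
  classical
  have h1 := log_int_ge y hy
  rw [← Finset.add_sum_erase _ _ (Finset.mem_univ w)] at h1
  have h2 : ∑ u ∈ univ.erase w, (u.mult : ℝ) * Real.log (u (y : K)) ≤
      ∑ u ∈ univ.erase w, (u.mult : ℝ) * R :=
    Finset.sum_le_sum fun u _ => mul_le_mul_of_nonneg_left (h u) (Nat.cast_nonneg _)
  have h3 : ∑ u ∈ univ.erase w, (u.mult : ℝ) * R ≤ ∑ u : InfinitePlace K, (u.mult : ℝ) * R :=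
    Finset.sum_le_sum_of_subset_of_nonneg (Finset.erase_subset _ _) fun u _ _ => by positivity
  rw [← Finset.sum_mul univ, sum_mult] at h3
  have h4 : (1 : ℝ) ≤ w.mult := by
    have : 0 < w.mult := InfinitePlace.mult_pos
    exact_mod_cast this
  have h5 : 0 ≤ (Module.finrank ℚ K : ℝ) * R := by positivity
  rcases le_total 0 (Real.log (w (y : K))) with h6 | h6
  · linarith
  · nlinarith

/-! ### products over the infinite places -/

theorem bn_pos {ρ : InfinitePlace K → ℝ} (h : ∀ w, 0 < ρ w) : 0 < bn ρ :=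
  Finset.prod_pos fun w _ => pow_pos (h w) _

theorem log_bn {ρ : InfinitePlace K → ℝ} (h : ∀ w, 0 < ρ w) :
    Real.log (bn ρ) = ∑ w, (w.mult : ℝ) * Real.log (ρ w) := by
  unfold bn
  rw [Real.log_prod fun w _ => (pow_pos (h w) _).ne']
  exact Finset.sum_congr rfl fun w _ => Real.log_pow _ _

theorem log_bn_le {ρ : InfinitePlace K → ℝ} (h : ∀ w, 0 < ρ w) {a : ℝ}
    (h2 : ∀ w, Real.log (ρ w) ≤ a) : Real.log (bn ρ) ≤ Module.finrank ℚ K * a := by
  rw [log_bn h, ← sum_mult, Finset.sum_mul]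
  exact Finset.sum_le_sum fun w _ => mul_le_mul_of_nonneg_left (h2 w) (Nat.cast_nonneg _)

theorem le_log_bn {ρ : InfinitePlace K → ℝ} (h : ∀ w, 0 < ρ w) {a : ℝ}
    (h2 : ∀ w, a ≤ Real.log (ρ w)) : Module.finrank ℚ K * a ≤ Real.log (bn ρ) := by
  rw [log_bn h, ← sum_mult, Finset.sum_mul]
  exact Finset.sum_le_sum fun w _ => mul_le_mul_of_nonneg_left (h2 w) (Nat.cast_nonneg _)

/-! ### tuples of ideals -/

theorem mem_sp {D : Fin n → Idl K} {v : Pr K} : v ∈ sp D ↔ ∃ i, D i v ≠ 0 := by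
  classical
  unfold sp
  rw [Finset.mem_biUnion]
  simp

theorem gl_eq (D : Fin n → Idl K) :
    gl D = ∑ v ∈ sp D, ((∑ i, (D i v : ℝ)) - 1) * Real.log (Nv v) := by
  classical
  unfold gl tl tr
  have h1 : ∀ i, len (D i) = ∑ v ∈ sp D, (D i v : ℝ) * Real.log (Nv v) := fun i =>
    len_eq_sum fun v hv => mem_sp.2 ⟨i, Finsupp.mem_support_iff.1 hv⟩
  rw [Finset.sum_congr rfl fun i _ => h1 i, Finset.sum_comm, ← Finset.sum_sub_distrib]
  refine Finset.sum_congr rfl fun v _ => ?_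
  rw [sub_mul, one_mul, Finset.sum_mul]

theorem two_le_of_sq {D : Fin n → Idl K} (hS : Sq D) {v : Pr K} (hv : v ∈ sp D) :
    2 ≤ ∑ i, D i v := by
  obtain ⟨i, hi⟩ := mem_sp.1 hv
  have h1 : D i v ≤ ∑ i, D i v := Finset.single_le_sum (f := fun i => D i v)
    (fun _ _ => Nat.zero_le _) (Finset.mem_univ i)
  have h2 := hS v
  omega

theorem log_le_gl {D : Fin n → Idl K} (hS : Sq D) {v : Pr K} (hv : v ∈ sp D) :
    Real.log (Nv v) ≤ ((∑ i, (D i v : ℝ)) - 1) * Real.log (Nv v) := by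
  have h1 : (2 : ℝ) ≤ ∑ i, (D i v : ℝ) := by exact_mod_cast two_le_of_sq hS hv
  have h2 := log_Nv_pos v
  nlinarith

theorem tr_le_gl {D : Fin n → Idl K} (hS : Sq D) : tr D ≤ gl D := by
  rw [gl_eq, tr]
  exact Finset.sum_le_sum fun v hv => log_le_gl hS hv

/-- the two cases -/
theorem dich {D : Fin n → Idl K} (hS : Sq D) {T : ℝ} (hT : 0 ≤ T)
    (h : ∀ v ∈ sp D, gl D - Real.log (Nv v) < T) : gl D ≤ 2 * T ∨
    ∃ v, T ≤ Real.log (Nv v) ∧ ((∃ i, 2 ≤ D i v) ∨ ∃ i j, i ≠ j ∧ 1 ≤ D i v ∧ 1 ≤ D j v) := by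
  classical
  rcases le_or_gt (gl D) (2 * T) with h1 | h1
  · exact Or.inl h1
  right
  have h2 : (sp D).Nonempty := by
    rw [Finset.nonempty_iff_ne_empty]
    intro h3
    rw [gl_eq, h3, Finset.sum_empty] at h1
    linarith
  obtain ⟨v, hv⟩ := h2
  refine ⟨v, by linarith [h v hv], ?_⟩
  by_contra hcon
  push Not at hcon
  obtain ⟨c1, c2⟩ := hcon
  obtain ⟨i, hi⟩ := mem_sp.1 hv
  have h3 : ∀ j, j ≠ i → D j v = 0 := by
    intro j hj
    have := c2 i j (Ne.symm hj) (by omega)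
    omega
  have h4 : ∑ j, D j v = D i v := by
    rw [Finset.sum_eq_single i (fun j _ hj => h3 j hj)]
    intro h; exact absurd (Finset.mem_univ i) h
  have h5 := two_le_of_sq hS hv
  have := c1 i
  omega

end Pool.Agent.N531.KG
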