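import Pool.Agent.N531.KG_A
import Pool.Agent.N906.RS.Stm

set_option autoImplicit false
set_option linter.unusedSectionVars false

/-!
# KG/UPNK, part B: the two cases
-/

namespace Pool.Agent.N531.KG

open NumberField IsDedekindDomain Finset Filter Topology Pool.Agent.H691R3 Pool.Agent.W223.AK
open Pool.Agent.N906.KG

variable {K : Type} [Field K] [NumberField K]

/-- sums over primes -/
theorem primes (h : Pool.Agent.N906.RS.S_CNT K) : ∃ C : ℝ, 0 < C ∧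
    (∀ (T : ℝ) (s : Finset (Pr K)), 0 ≤ T → (∀ v ∈ s, T ≤ Real.log (Nv v)) →
      ∑ v ∈ s, (Nv v)⁻¹ ^ 2 ≤ C * Real.exp (-T)) ∧
    (∀ (Y : ℝ) (s : Finset (Pr K)), 0 ≤ Y → (∀ v ∈ s, Real.log (Nv v) ≤ Y) →
      ∑ v ∈ s, (Nv v)⁻¹ ≤ C * Real.exp (Y / 2)) := by
  obtain ⟨C, hC, h1, h2⟩ := h
  have e : ∀ (s : Finset (Pr K)), ∑ v ∈ s, (Nv v)⁻¹ ^ 2 = ∑ v ∈ s, ((Nv v) ^ 2)⁻¹ := fun s =>
    Finset.sum_congr rfl fun v _ => by rw [inv_pow]
  refine ⟨2 * C, by positivity, ?_, ?_⟩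
  · intro T s hT hs
    rw [e]
    rcases lt_or_ge (Real.exp T) 2 with h3 | h3
    · have h4 := h2 1 s le_rfl fun v _ => by linarith [two_le_Nv v]
      rw [div_one] at h4
      refine h4.trans ?_
      rw [Real.exp_neg, ← div_eq_mul_inv, le_div_iff₀ (Real.exp_pos _)]
      nlinarith
    · have h4 := h2 (Real.exp T / 2) s (by linarith) fun v hv => by
        have h5 := hs v hv
        rw [Real.le_log_iff_exp_le (Nv_pos v)] at h5
        linarith [Real.exp_pos T]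
      refine h4.trans (le_of_eq ?_)
      rw [Real.exp_neg]
      field_simp
  · intro Y s hY hs
    have h3 := h1 (Real.exp Y) s (Real.one_le_exp hY) fun v hv => by
      have := hs v hv
      rwa [Real.log_le_iff_le_exp (Nv_pos v)] at this
    have h4 := h2 1 s le_rfl fun v _ => by linarith [two_le_Nv v]
    rw [div_one, ← e] at h4
    have h5 := sq_sum_le_card_mul_sum_sq (s := s) (f := fun v => (Nv v)⁻¹)
    have h6 : (∑ v ∈ s, (Nv v)⁻¹) ^ 2 ≤ (C * Real.exp (Y / 2)) ^ 2 := by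
      refine h5.trans ?_
      have h7 : (0 : ℝ) ≤ ∑ v ∈ s, (Nv v)⁻¹ ^ 2 := Finset.sum_nonneg fun v _ => by positivity
      calc (s.card : ℝ) * ∑ v ∈ s, (Nv v)⁻¹ ^ 2 ≤ (C * Real.exp Y) * C :=
            mul_le_mul h3 h4 h7 (by positivity)
        _ = (C * Real.exp (Y / 2)) ^ 2 := by
            rw [mul_pow, ← Real.exp_nat_mul]
            have : ((2 : ℕ) : ℝ) * (Y / 2) = Y := by push_cast; ring
            rw [this]; ring
    have h7 : ∑ v ∈ s, (Nv v)⁻¹ ≤ C * Real.exp (Y / 2) :=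
      le_of_sq_le_sq h6 (by positivity)
    have h8 : 0 ≤ C * Real.exp (Y / 2) := by positivity
    linarith

/-- the sum over the ideals -/
theorem caseA {N : ℕ} {Cs β : ℝ} (B : Fin (N + 1) → InfinitePlace K → ℝ)
    (F : Finset (Fin (N + 1) → 𝓞 K)) (Df : (Fin (N + 1) → 𝓞 K) → Fin (N + 1) → Idl K)
    (hseq : ∀ x ∈ F, ∀ F' : Finset (Fin (N + 1) → 𝓞 K), (∀ y ∈ F', y ∈ F ∧ Df y = Df x) →
      (F'.card : ℝ) ≤ Cs * vol B * (Real.exp (-tl (Df x)) + 1 / β)) :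
    (F.card : ℝ) ≤ Cs * (vol B * ∑ D ∈ @Finset.image _ _ (Classical.decEq _) Df F,
      Real.exp (-tl D)) +
      Cs * (vol B / β) * (@Finset.image _ _ (Classical.decEq _) Df F).card := by
  classical
  rw [Finset.card_eq_sum_card_image Df F]
  push_cast
  have h1 : ∀ D ∈ F.image Df, ((F.filter fun x => Df x = D).card : ℝ) ≤
      Cs * vol B * (Real.exp (-tl D) + 1 / β) := by
    intro D hD
    obtain ⟨x, hx, rfl⟩ := Finset.mem_image.1 hD
    apply hseq x hx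
    intro y hy
    exact Finset.mem_filter.1 hy
  have e : @Finset.image _ _ (Classical.decEq _) Df F = F.image Df := by
    ext D
    simp only [Finset.mem_image]
  rw [e]
  refine (Finset.sum_le_sum h1).trans (le_of_eq ?_)
  rw [← Finset.mul_sum, Finset.sum_add_distrib, Finset.sum_const, nsmul_eq_mul]
  ring

/-- the sum over the large primes -/
theorem caseB {N : ℕ} {Cp β : ℝ} (hCp : 0 < Cp) (hβ : 1 ≤ β)
    (B : Fin (N + 1) → InfinitePlace K → ℝ) (hvol : 0 < vol B)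
    (F : Finset (Fin (N + 1) → 𝓞 K)) (vf : (Fin (N + 1) → 𝓞 K) → Pr K)
    (h1 : ∀ (v : Pr K) (i : Fin (N + 1)) (F' : Finset (Fin (N + 1) → 𝓞 K)),
      (∀ x ∈ F', x ∈ F ∧ fv v (x i : K) ≤ (Nv v)⁻¹ ^ 2) →
      (F'.card : ℝ) ≤ Cp * vol B * ((Nv v)⁻¹ ^ 2))
    (h2 : ∀ (v : Pr K) (i j : Fin (N + 1)) (F' : Finset (Fin (N + 1) → 𝓞 K)), i ≠ j →
      (∀ x ∈ F', x ∈ F ∧ fv v (x i : K) ≤ (Nv v)⁻¹ ∧ fv v (x j : K) ≤ (Nv v)⁻¹) →
      (F'.card : ℝ) ≤ Cp * vol B * ((Nv v)⁻¹ ^ 2 + (Nv v)⁻¹ / β))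
    (hF : ∀ x ∈ F, (∃ i, fv (vf x) (x i : K) ≤ (Nv (vf x))⁻¹ ^ 2) ∨
      ∃ i j, i ≠ j ∧ fv (vf x) (x i : K) ≤ (Nv (vf x))⁻¹ ∧ fv (vf x) (x j : K) ≤ (Nv (vf x))⁻¹) :
    (F.card : ℝ) ≤ 2 * ((N : ℝ) + 1) ^ 2 * Cp *
      (vol B * ∑ v ∈ @Finset.image _ _ (Classical.decEq _) vf F, (Nv v)⁻¹ ^ 2 +
      vol B / β * ∑ v ∈ @Finset.image _ _ (Classical.decEq _) vf F, (Nv v)⁻¹) := by
  classical
  have e : @Finset.image _ _ (Classical.decEq _) vf F = F.image vf := by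
    ext D
    simp only [Finset.mem_image]
  rw [e]
  have hfib : ∀ v ∈ F.image vf, ((F.filter fun x => vf x = v).card : ℝ) ≤
      2 * ((N : ℝ) + 1) ^ 2 * Cp * (vol B * ((Nv v)⁻¹ ^ 2) + vol B / β * (Nv v)⁻¹) := by
    intro v _
    have hsub : (F.filter fun x => vf x = v) ⊆
        ((univ : Finset (Fin (N + 1))).biUnion fun i =>
          F.filter fun x => fv v (x i : K) ≤ (Nv v)⁻¹ ^ 2) ∪
        ((univ : Finset (Fin (N + 1) × Fin (N + 1))).biUnion fun p =>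
          F.filter fun x => p.1 ≠ p.2 ∧ fv v (x p.1 : K) ≤ (Nv v)⁻¹ ∧
            fv v (x p.2 : K) ≤ (Nv v)⁻¹) := by
      intro x hx
      obtain ⟨hxF, hxv⟩ := Finset.mem_filter.1 hx
      rw [Finset.mem_union, Finset.mem_biUnion, Finset.mem_biUnion]
      rcases hF x hxF with ⟨i, hi⟩ | ⟨i, j, hij, hi, hj⟩
      · left
        rw [hxv] at hi
        exact ⟨i, Finset.mem_univ _, Finset.mem_filter.2 ⟨hxF, hi⟩⟩
      · right
        rw [hxv] at hi hj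
        exact ⟨(i, j), Finset.mem_univ _, Finset.mem_filter.2 ⟨hxF, hij, hi, hj⟩⟩
    have hv0 : 0 < Nv v := Nv_pos v
    have c1 : ∀ i : Fin (N + 1), ((F.filter fun x => fv v (x i : K) ≤ (Nv v)⁻¹ ^ 2).card : ℝ) ≤
        Cp * vol B * ((Nv v)⁻¹ ^ 2) := fun i =>
      h1 v i _ fun x hx => Finset.mem_filter.1 hx
    have c2 : ∀ p : Fin (N + 1) × Fin (N + 1), ((F.filter fun x => p.1 ≠ p.2 ∧
        fv v (x p.1 : K) ≤ (Nv v)⁻¹ ∧ fv v (x p.2 : K) ≤ (Nv v)⁻¹).card : ℝ) ≤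
        Cp * vol B * ((Nv v)⁻¹ ^ 2 + (Nv v)⁻¹ / β) := by
      intro p
      by_cases hp : p.1 ≠ p.2
      · exact h2 v p.1 p.2 _ hp fun x hx => by
          obtain ⟨a, -, b⟩ := Finset.mem_filter.1 hx
          exact ⟨a, b⟩
      · rw [Finset.filter_false_of_mem]
        · rw [Finset.card_empty, Nat.cast_zero]; positivity
        · intro x _ h
          exact hp h.1
    have c3 : ((F.filter fun x => vf x = v).card : ℝ) ≤
        ∑ i : Fin (N + 1), ((F.filter fun x => fv v (x i : K) ≤ (Nv v)⁻¹ ^ 2).card : ℝ) +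
        ∑ p : Fin (N + 1) × Fin (N + 1), ((F.filter fun x => p.1 ≠ p.2 ∧
          fv v (x p.1 : K) ≤ (Nv v)⁻¹ ∧ fv v (x p.2 : K) ≤ (Nv v)⁻¹).card : ℝ) := by
      have := (Finset.card_le_card hsub).trans ((Finset.card_union_le _ _).trans
        (Nat.add_le_add Finset.card_biUnion_le Finset.card_biUnion_le))
      exact_mod_cast this
    have c4 := Finset.sum_le_sum (s := (univ : Finset (Fin (N + 1)))) fun i _ => c1 i
    have c5 := Finset.sum_le_sum (s := (univ : Finset (Fin (N + 1) × Fin (N + 1)))) fun p _ => c2 p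
    rw [Finset.sum_const, nsmul_eq_mul, Finset.card_univ, Fintype.card_fin] at c4
    rw [Finset.sum_const, nsmul_eq_mul, Finset.card_univ, Fintype.card_prod, Fintype.card_fin] at c5
    push_cast at c4 c5
    have c6 : Cp * vol B * ((Nv v)⁻¹ ^ 2) ≤ Cp * vol B * ((Nv v)⁻¹ ^ 2 + (Nv v)⁻¹ / β) := by
      apply mul_le_mul_of_nonneg_left _ (by positivity)
      have : 0 ≤ (Nv v)⁻¹ / β := by positivity
      linarith
    have c7 : 0 ≤ Cp * vol B * ((Nv v)⁻¹ ^ 2 + (Nv v)⁻¹ / β) := by positivity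
    have hN0 : (0 : ℝ) ≤ N := Nat.cast_nonneg _
    have e2 : 2 * ((N : ℝ) + 1) ^ 2 * Cp * (vol B * ((Nv v)⁻¹ ^ 2) + vol B / β * (Nv v)⁻¹) =
        2 * ((N : ℝ) + 1) ^ 2 * (Cp * vol B * ((Nv v)⁻¹ ^ 2 + (Nv v)⁻¹ / β)) := by ring
    rw [e2]
    set Q : ℝ := Cp * vol B * ((Nv v)⁻¹ ^ 2 + (Nv v)⁻¹ / β) with hQ
    have c8 : ((N : ℝ) + 1) * (Cp * vol B * ((Nv v)⁻¹ ^ 2)) ≤ ((N : ℝ) + 1) ^ 2 * Q := by
      have : ((N : ℝ) + 1) * (Cp * vol B * ((Nv v)⁻¹ ^ 2)) ≤ ((N : ℝ) + 1) * Q :=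
        mul_le_mul_of_nonneg_left c6 (by positivity)
      nlinarith [mul_nonneg (mul_nonneg hN0 (by positivity : (0 : ℝ) ≤ (N : ℝ) + 1)) c7]
    nlinarith
  rw [Finset.card_eq_sum_card_image vf F]
  push_cast
  refine (Finset.sum_le_sum hfib).trans (le_of_eq ?_)
  rw [← Finset.mul_sum, Finset.sum_add_distrib, ← Finset.mul_sum, ← Finset.mul_sum]

end Pool.Agent.N531.KG
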