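import Pool.Agent.N531.KG_B

set_option autoImplicit false
set_option linter.unusedSectionVars false

/-!
# KG/UPNK, part C: the points of one class
-/

namespace Pool.Agent.N531.KG

open NumberField IsDedekindDomain Finset Filter Topology Pool.Agent.H691R3 Pool.Agent.W223.AK
open Pool.Agent.N906.KG
open Pool.Agent.N906.NT (Cx cst Dl)

variable {K : Type} [Field K] [NumberField K]

theorem cx_Dl (n r : ℕ) (h1 : 1 ≤ r) (h2 : r ≤ n) : Cx (Dl n r) r (n.choose r) := by
  refine ⟨h1, Nat.choose_pos h2, ?_, ?_, ?_, ?_⟩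
  · unfold Dl
    rw [Finset.mem_filter]
    exact ⟨Finset.mem_univ _, by simp⟩
  · intro s hs s' hss
    unfold Dl at hs ⊢
    rw [Finset.mem_filter] at hs ⊢
    exact ⟨Finset.mem_univ _, (Finset.card_le_card hss).trans hs.2⟩
  · intro s hs
    unfold Dl at hs
    rw [Finset.mem_filter] at hs
    exact hs.2
  · have h3 : (Dl n r).filter (fun s => s.card = r) = Finset.powersetCard r univ := by
      ext s
      unfold Dl
      rw [Finset.mem_filter, Finset.mem_filter, Finset.mem_powersetCard]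
      constructor
      · rintro ⟨-, h⟩
        exact ⟨Finset.subset_univ _, h⟩
      · rintro ⟨-, h⟩
        exact ⟨⟨Finset.mem_univ _, h.le⟩, h⟩
    rw [h3, Finset.card_powersetCard, Finset.card_univ, Fintype.card_fin]

theorem cst_pos (r t : ℕ) (hr : 1 ≤ r) (ht : 1 ≤ t) : 0 < cst r t := by
  unfold cst
  have h1 : (0 : ℝ) < r := by exact_mod_cast hr
  have h2 : (0 : ℝ) < t := by exact_mod_cast ht
  positivity

/-- the height of an integral tuple -/
noncomputable def ht {n : ℕ} (x : Fin n → 𝓞 K) : ℝ := Height.logHeight fun i => (x i : K)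

/-- the properties of the points of a class -/
structure Cls {N : ℕ} (κ A C₀ : ℝ) (m : ℕ) (B : Fin (N + 1) → InfinitePlace K → ℝ)
    (x : Fin (N + 1) → 𝓞 K) : Prop where
  sum : ∑ i, x i = 0
  ne : ∀ i, (x i : K) ≠ 0
  lo : (m : ℝ) - 1 ≤ ht x
  hi : ht x ≤ m
  sup : ∀ w : InfinitePlace K, A⁻¹ * Real.exp (ht x / Module.finrank ℚ K) ≤ (⨆ i, w (x i : K)) ∧
    (⨆ i, w (x i : K)) ≤ A * Real.exp (ht x / Module.finrank ℚ K)
  box : ∀ k (w : InfinitePlace K), B k w / 2 < w (x k : K) ∧ w (x k : K) ≤ B k w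
  rad : ∃ P : Fin (N + 1) → Idl K, IsQ (fun i => (x i : K)) P ∧
    tr P ≤ ((N : ℝ) + 1 - κ) * ht x + C₀

section
variable {N : ℕ} {κ A C₀ : ℝ} {m : ℕ} {B : Fin (N + 1) → InfinitePlace K → ℝ}

theorem Bsup_pos (hB : ∀ k w, 0 < B k w) (w : InfinitePlace K) : 0 < ⨆ k, B k w :=
  lt_of_lt_of_le (hB 0 w) (le_iSup' (fun k => B k w) 0)

theorem vol_pos (hB : ∀ k w, 0 < B k w) : 0 < vol B := by
  unfold vol
  exact div_pos (Finset.prod_pos fun k _ => bn_pos (hB k)) (bn_pos (Bsup_pos hB))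

theorem log_vol (hB : ∀ k w, 0 < B k w) : Real.log (vol B) =
    ∑ k, Real.log (bn (B k)) - Real.log (bn fun w => ⨆ k, B k w) := by
  unfold vol
  rw [Real.log_div (Finset.prod_pos fun k _ => bn_pos (hB k)).ne' (bn_pos (Bsup_pos hB)).ne',
    Real.log_prod fun k _ => (bn_pos (hB k)).ne']

theorem log_bnsup_le (hB : ∀ k w, 0 < B k w)
    (hB2 : ∀ k w, Real.log (B k w) ≤ Real.log A + m / Module.finrank ℚ K) :
    Real.log (bn fun w => ⨆ k, B k w) ≤ Module.finrank ℚ K * Real.log A + m := by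
  have hd : (0 : ℝ) < Module.finrank ℚ K := by exact_mod_cast Module.finrank_pos
  have h := log_bn_le (ρ := fun w => ⨆ k, B k w) (Bsup_pos hB)
    (a := Real.log A + m / Module.finrank ℚ K) (fun w => by
      obtain ⟨k, hk⟩ := exists_iSup' (fun k => B k w)
      rw [← hk]
      exact hB2 k w)
  refine h.trans (le_of_eq ?_)
  field_simp

theorem Cls.bnsup_ge {x : Fin (N + 1) → 𝓞 K} (hx : Cls κ A C₀ m B x) (hA : 1 ≤ A)
    (hB : ∀ k w, 0 < B k w) :
    (m : ℝ) - 1 - Module.finrank ℚ K * Real.log A ≤ Real.log (bn fun w => ⨆ k, B k w) := by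
  have hd : (0 : ℝ) < Module.finrank ℚ K := by exact_mod_cast Module.finrank_pos
  have h := le_log_bn (ρ := fun w => ⨆ k, B k w) (Bsup_pos hB)
    (a := (m - 1) / Module.finrank ℚ K - Real.log A) (fun w => by
      have h1 := (hx.sup w).1
      obtain ⟨k, hk⟩ := exists_iSup' (fun k => w (x k : K))
      rw [← hk] at h1
      have h2 : A⁻¹ * Real.exp (ht x / Module.finrank ℚ K) ≤ ⨆ k, B k w :=
        h1.trans (((hx.box k w).2).trans (le_iSup' (fun k => B k w) k))
      have hA0 : 0 < A := by linarith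
      have h3 := Real.log_le_log (mul_pos (inv_pos.2 hA0) (Real.exp_pos _)) h2
      rw [Real.log_mul (inv_pos.2 hA0).ne' (Real.exp_pos _).ne', Real.log_inv, Real.log_exp] at h3
      have h4 : ((m : ℝ) - 1) / Module.finrank ℚ K ≤ ht x / Module.finrank ℚ K :=
        div_le_div_of_nonneg_right hx.lo hd.le
      linarith)
  refine le_trans (le_of_eq ?_) h
  field_simp

/-- the size of the box -/
theorem log_vol_le (hB : ∀ k w, 0 < B k w) {x : Fin (N + 1) → 𝓞 K} (hx : Cls κ A C₀ m B x)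
    (hA : 1 ≤ A) (hB2 : ∀ k w, Real.log (B k w) ≤ Real.log A + m / Module.finrank ℚ K) :
    Real.log (vol B) ≤ N * m + (N + 2) * (Module.finrank ℚ K * Real.log A) + 1 := by
  have hd : (0 : ℝ) < Module.finrank ℚ K := by exact_mod_cast Module.finrank_pos
  have h1 := hx.bnsup_ge hA hB
  rw [log_vol hB]
  have h2 : ∑ k, Real.log (bn (B k)) ≤ ∑ _k : Fin (N + 1),
      (Module.finrank ℚ K * (Real.log A + m / Module.finrank ℚ K)) :=
    Finset.sum_le_sum fun k _ => log_bn_le (hB k) (hB2 k)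
  rw [Finset.sum_const, nsmul_eq_mul, Finset.card_univ, Fintype.card_fin] at h2
  have h3 : (Module.finrank ℚ K : ℝ) * (Real.log A + m / Module.finrank ℚ K) =
      Module.finrank ℚ K * Real.log A + m := by field_simp
  rw [h3] at h2
  push_cast at h2
  linarith

/-- the gain -/
theorem Cls.gain {x : Fin (N + 1) → 𝓞 K} (hx : Cls κ A C₀ m B x) (hA : 1 ≤ A)
    (hκ1 : κ ≤ 1) (hB : ∀ k w, 0 < B k w) {P : Fin (N + 1) → Idl K}
    (hP : IsQ (fun i => (x i : K)) P) (hr : tr P ≤ ((N : ℝ) + 1 - κ) * ht x + C₀) :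
    Real.log (vol B) - (N - κ) * m - (1 + (N + 2) * (Module.finrank ℚ K * Real.log A) +
      (N + 1) * (Module.finrank ℚ K * Real.log 2) + C₀) ≤ gl P := by
  have hd : (0 : ℝ) < Module.finrank ℚ K := by exact_mod_cast Module.finrank_pos
  have h1 := hx.bnsup_ge hA hB
  have h2 := log_vol hB
  have hg := gc_le hA hx.ne fun w => (hx.sup w).2
  -- the sizes of the coordinates
  have h3 : ∀ k, Real.log (bn (B k)) - Module.finrank ℚ K * Real.log 2 ≤
      len (P k) + gc fun i => (x i : K) := by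
    intro k
    rw [← log_norm hx.ne hP k, log_bn (hB k), ← sum_mult, Finset.sum_mul, ← Finset.sum_sub_distrib]
    refine Finset.sum_le_sum fun w _ => ?_
    rw [← mul_sub]
    apply mul_le_mul_of_nonneg_left _ (Nat.cast_nonneg _)
    rw [← Real.log_div (hB k w).ne' (by norm_num)]
    exact Real.log_le_log (by have := hB k w; positivity) (hx.box k w).1.le
  have h4 := Finset.sum_le_sum fun k (_ : k ∈ (univ : Finset (Fin (N + 1)))) => h3 k
  rw [Finset.sum_sub_distrib, Finset.sum_add_distrib, Finset.sum_const, Finset.sum_const,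
    nsmul_eq_mul, nsmul_eq_mul, Finset.card_univ, Fintype.card_fin] at h4
  push_cast at h4
  have h5 : ((N : ℝ) + 1 - κ) * ht x ≤ ((N : ℝ) + 1 - κ) * m :=
    mul_le_mul_of_nonneg_left hx.hi (by
      have : (0 : ℝ) ≤ N := Nat.cast_nonneg _
      linarith)
  have h6 : ((N : ℝ) + 1) * gc (fun i => (x i : K)) ≤
      (N + 1) * (Module.finrank ℚ K * Real.log A) :=
    mul_le_mul_of_nonneg_left hg (by positivity)
  unfold gl
  unfold tl
  linarith

end

end Pool.Agent.N531.KG
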