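import Pool.Agent.N531.KG_C

set_option autoImplicit false
set_option linter.unusedSectionVars false

/-!
# KG/UPNK, part D: the number of the points of one class
-/

namespace Pool.Agent.N531.KG

open NumberField IsDedekindDomain Finset Filter Topology Pool.Agent.H691R3 Pool.Agent.W223.AK
open Pool.Agent.N906.KG
open Pool.Agent.N906.NT (Cx cst Dl)

variable {K : Type} [Field K] [NumberField K]

theorem class_bound (hSEQ : S_SEQK K) (hTRIV : S_TRIVK K) (hPRM : S_PRMK K) (hRED : S_REDK K)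
    (hRAN : S_RANK K) (hCN : S_CNTK K) (hCNT : Pool.Agent.N906.RS.S_CNT K)
    (N : ℕ) (hN : 2 ≤ N) (κ ε A C₀ : ℝ) (hκ : 0 < κ) (hκ3 : κ < 1 / 3) (hε : 0 < ε) (hA : 1 ≤ A)
    (hC₀ : 0 ≤ C₀) :
    ∃ C Z₀ : ℝ, 0 < C ∧ 1 < Z₀ ∧ ∀ (Z : ℝ) (m : ℕ) (B : Fin (N + 1) → InfinitePlace K → ℝ)
      (F : Finset (Fin (N + 1) → 𝓞 K)), Z₀ ≤ Z → κ * m ≤ Z → (∀ k w, 0 < B k w) →
      (∀ k w, Real.log (B k w) ≤ Real.log A + m / Module.finrank ℚ K) →
      (∀ x ∈ F, Cls κ A C₀ m B x) →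
      (F.card : ℝ) ≤ C * Real.exp ((N - κ) * m +
        (1 + ε) * cst (N + 1 - 2) ((N + 1).choose (N + 1 - 2)) *
        (Z / Real.log Z) ^ (((N + 1 - 2 : ℕ) : ℝ) / (((N + 1 - 2 : ℕ) : ℝ) + 1))) := by
  classical
  obtain ⟨Cs, hCs, hseq⟩ := hSEQ N (by omega)
  obtain ⟨Ct, hCt, htriv⟩ := hTRIV N (by omega)
  obtain ⟨Cp, hCp, hprm⟩ := hPRM N hN
  have hcx := cx_Dl (N + 1) (N + 1 - 2) (by omega) (by omega)
  obtain ⟨Z₀, hZ₀, hran⟩ := hRAN (N + 1) (Dl (N + 1) (N + 1 - 2)) (N + 1 - 2)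
    ((N + 1).choose (N + 1 - 2)) ε hcx hε
  obtain ⟨η, hη⟩ : ∃ η : ℝ, η = (1 - 3 * κ) / (2 * κ) := ⟨_, rfl⟩
  have hη0 : 0 < η := by
    rw [hη]; apply div_pos <;> linarith
  have hηκ : 2 * (1 + η) * κ = 1 - κ := by
    rw [hη]; field_simp; ring
  obtain ⟨Cc, hCc, hcn⟩ := hCN (N + 1) (Dl (N + 1) (N + 1 - 2)) (N + 1 - 2)
    ((N + 1).choose (N + 1 - 2)) η hcx hη0
  obtain ⟨Cq, hCq, hq1, hq2⟩ := primes hCNT
  have hd : (0 : ℝ) < Module.finrank ℚ K := by exact_mod_cast Module.finrank_pos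
  obtain ⟨LA, hLA⟩ : ∃ LA : ℝ, LA = Module.finrank ℚ K * Real.log A := ⟨_, rfl⟩
  have hLA0 : 0 ≤ LA := by
    rw [hLA]; exact mul_nonneg hd.le (Real.log_nonneg hA)
  obtain ⟨c4, hc4⟩ : ∃ c4 : ℝ, c4 = 1 + (N + 2) * LA +
      (N + 1) * (Module.finrank ℚ K * Real.log 2) + C₀ := ⟨_, rfl⟩
  have hl2 : 0 < Real.log 2 := Real.log_pos (by norm_num)
  have hNR : (2 : ℝ) ≤ N := by exact_mod_cast hN
  have hdl : 0 ≤ ((N : ℝ) + 1) * (Module.finrank ℚ K * Real.log 2) := by positivity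
  have hc40 : 0 ≤ c4 := by rw [hc4]; positivity
  refine ⟨(2 * Ct + Cs + Cs * Cc + 4 * ((N : ℝ) + 1) ^ 2 * Cp * Cq) * Real.exp (c4 + N * LA), Z₀,
    by positivity, hZ₀, ?_⟩
  intro Z m B F hZ hmZ hB hB2 hF
  have hZ1 : 1 < Z := lt_of_lt_of_le hZ₀ hZ
  obtain ⟨E, hE⟩ : ∃ E : ℝ, E = (1 + ε) * cst (N + 1 - 2) ((N + 1).choose (N + 1 - 2)) *
        (Z / Real.log Z) ^ (((N + 1 - 2 : ℕ) : ℝ) / (((N + 1 - 2 : ℕ) : ℝ) + 1)) := ⟨_, rfl⟩
  have hcst := cst_pos (N + 1 - 2) ((N + 1).choose (N + 1 - 2)) (by omega)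
    (Nat.choose_pos (by omega))
  have hE0 : 0 ≤ E := by
    rw [hE]
    have : 0 ≤ Z / Real.log Z := div_nonneg (by linarith) (Real.log_nonneg hZ1.le)
    have := Real.rpow_nonneg this (((N + 1 - 2 : ℕ) : ℝ) / (((N + 1 - 2 : ℕ) : ℝ) + 1))
    positivity
  rw [← hE]
  rcases F.eq_empty_or_nonempty with h0 | ⟨x₀, hx₀⟩
  · rw [h0, Finset.card_empty, Nat.cast_zero]; positivity
  have hm0 : (0 : ℝ) ≤ m := Nat.cast_nonneg _
  -- the box
  obtain ⟨V, hV⟩ : ∃ V : ℝ, V = Real.log (vol B) := ⟨_, rfl⟩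
  have hvol := vol_pos hB
  have hvolV : vol B = Real.exp V := by rw [hV, Real.exp_log hvol]
  have hVle : V ≤ N * m + (N + 2) * LA + 1 := by
    rw [hV, hLA]; exact log_vol_le hB (hF x₀ hx₀) hA hB2
  obtain ⟨H, hH⟩ : ∃ H : ℝ, H = Real.exp (m + LA) := ⟨_, rfl⟩
  have hH1 : 1 ≤ H := by rw [hH]; exact Real.one_le_exp (by linarith)
  have hbn : bn (fun w => ⨆ k, B k w) ≤ H := by
    have h1 := log_bnsup_le hB hB2
    rw [← hLA] at h1
    rw [← Real.exp_log (bn_pos (Bsup_pos hB)), hH]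
    exact Real.exp_le_exp.2 (by linarith)
  have hHN : H ^ (N - 1) = Real.exp ((N - 1) * (m + LA)) := by
    rw [hH, ← Real.exp_nat_mul]
    congr 2
    rw [Nat.cast_sub (by omega), Nat.cast_one]
  obtain ⟨T, hT⟩ : ∃ T : ℝ, T = V - (N - κ) * m - c4 := ⟨_, rfl⟩
  have hTκ : T ≤ κ * m := by rw [hT, hc4]; linarith
  have hgain : ∀ x ∈ F, ∀ P : Fin (N + 1) → Idl K, IsQ (fun i => (x i : K)) P →
      tr P ≤ ((N : ℝ) + 1 - κ) * ht x + C₀ → T ≤ gl P := by
    intro x hx P hP hr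
    have := (hF x hx).gain hA (by linarith) hB hP hr
    rw [hT, hc4, hV, hLA]
    exact this
  -- comparison of exponentials
  have cmp : ∀ a : ℝ, a ≤ (N - κ) * m + E + (c4 + N * LA) →
      Real.exp a ≤ Real.exp (c4 + N * LA) * Real.exp ((N - κ) * m + E) := by
    intro a ha
    rw [← Real.exp_add]
    exact Real.exp_le_exp.2 (by linarith)
  have hNLA : 0 ≤ (N : ℝ) * LA := by positivity
  have hHcmp : H ^ (N - 1) ≤ Real.exp (c4 + N * LA) * Real.exp ((N - κ) * m + E) := by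
    rw [hHN]
    apply cmp
    have h1 : 0 ≤ (1 - κ) * m := mul_nonneg (by linarith) hm0
    nlinarith
  set W : ℝ := Real.exp (c4 + N * LA) * Real.exp ((N - κ) * m + E) with hW
  have hW0 : 0 < W := by positivity
  have hgoal : (2 * Ct + Cs + Cs * Cc + 4 * ((N : ℝ) + 1) ^ 2 * Cp * Cq) *
      Real.exp (c4 + N * LA) * Real.exp ((N - κ) * m + E) =
      (2 * Ct + Cs + Cs * Cc + 4 * ((N : ℝ) + 1) ^ 2 * Cp * Cq) * W := by rw [hW]; ring
  rw [hgoal]
  have hsum : ∀ x ∈ F, ∀ k (w : InfinitePlace K), w (x k : K) ≤ B k w := fun x hx k w =>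
    ((hF x hx).box k w).2
  rcases lt_or_ge T 0 with hT0 | hT0
  · -- the trivial bound
    have h1 := htriv B H F hB hH1 hbn fun x hx => ⟨(hF x hx).sum, hsum x hx⟩
    have h2 : vol B ≤ W := by
      rw [hvolV]
      apply cmp
      rw [hT] at hT0
      linarith
    have h3 : Ct * (vol B + H ^ (N - 1)) ≤ Ct * (W + W) :=
      mul_le_mul_of_nonneg_left (add_le_add h2 hHcmp) hCt.le
    have h4 : 0 ≤ (Cs + Cs * Cc + 4 * ((N : ℝ) + 1) ^ 2 * Cp * Cq) * W := by positivity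
    calc (F.card : ℝ) ≤ Ct * (W + W) := h1.trans h3
      _ ≤ _ := by nlinarith
  -- the main case
  obtain ⟨β, hβ⟩ : ∃ β : ℝ, β = vol B / H ^ (N - 1) := ⟨_, rfl⟩
  have hHN0 : 0 < H ^ (N - 1) := by positivity
  have hβ0 : 0 < β := by rw [hβ]; positivity
  have hβH : β * H ^ (N - 1) = vol B := by rw [hβ]; field_simp
  have hvβ : vol B / β = H ^ (N - 1) := by rw [hβ]; field_simp
  have hlogβ : Real.log β = V - (N - 1) * (m + LA) := by
    rw [hβ, Real.log_div hvol.ne' hHN0.ne', ← hV, hHN, Real.log_exp]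
  have hlogβ2 : 2 * T ≤ Real.log β := by
    rw [hlogβ]
    have h1 : 0 ≤ (1 - 2 * κ) * m := mul_nonneg (by linarith) hm0
    have h2 : V = T + (N - κ) * m + c4 := by rw [hT]; ring
    have h3 : (N - 1 : ℝ) * LA ≤ c4 := by
      rw [hc4]; nlinarith
    nlinarith
  have hβ1 : 1 ≤ β := by
    by_contra hcon
    push Not at hcon
    have := Real.log_neg hβ0 hcon
    linarith
  -- choices
  have hch : ∀ x : Fin (N + 1) → 𝓞 K, ∃ (P D : Fin (N + 1) → Idl K), x ∈ F →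
      IsQ (fun i => (x i : K)) P ∧ (∀ i, D i ≤ P i) ∧ Tp (Dl (N + 1) (N + 1 - 2)) D ∧ Sq D ∧
      T ≤ gl D ∧ ∀ v ∈ sp D, gl D - Real.log (Nv v) < T := by
    intro x
    by_cases hx : x ∈ F
    · obtain ⟨P, hP, hr⟩ := (hF x hx).rad
      have hsK : ∑ i, (x i : K) = 0 := by
        have := congrArg (fun y : 𝓞 K => (y : K)) (hF x hx).sum
        simpa using this
      have htp : Tp (Dl (N + 1) (N + 1 - 2)) P := tp_of (hF x hx).ne hP hsK
      obtain ⟨D, d1, d2, d3, d4, d5⟩ := hRED (N + 1) (Dl (N + 1) (N + 1 - 2)) (N + 1 - 2)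
        ((N + 1).choose (N + 1 - 2)) hcx P T htp hT0 (hgain x hx P hP hr)
      exact ⟨P, D, fun _ => ⟨hP, d1, d2, d3, d4, d5⟩⟩
    · exact ⟨0, 0, fun h => absurd h hx⟩
  choose Pf Df hPD using hch
  have hDv : ∀ x ∈ F, Dv (Df x) x := fun x hx =>
    dv_of (hF x hx).ne (hPD x hx).1 (hPD x hx).2.1
  have hDz : ∀ x ∈ F, ∀ v, ∃ i, Df x i v = 0 := by
    intro x hx v
    obtain ⟨i, hi, -⟩ := exists_zero (hF x hx).ne (hPD x hx).1 v
    refine ⟨i, ?_⟩
    have := (hPD x hx).2.1 i v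
    omega
  -- case (a)
  set Fa := F.filter (fun x => gl (Df x) ≤ 2 * T) with hFa
  set Fb := F.filter (fun x => ¬ gl (Df x) ≤ 2 * T) with hFb
  have hcard : (F.card : ℝ) = Fa.card + Fb.card := by
    have := Finset.card_filter_add_card_filter_not (s := F) (fun x => gl (Df x) ≤ 2 * T)
    rw [hFa, hFb]
    exact_mod_cast this.symm
  have hA1 : (Fa.card : ℝ) ≤ (Cs + Cs * Cc) * W := by
    have h1 := caseA (Cs := Cs) (β := β) B Fa Df (by
      intro x hx F' hF'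
      obtain ⟨hxF, hxg⟩ := Finset.mem_filter.1 hx
      apply hseq (Df x) B H β F' (hDz x hxF) hB hβ1 hbn hβH.le
      · have h2 := tr_le_gl (hPD x hxF).2.2.2.1
        have h3 : tl (Df x) = gl (Df x) + tr (Df x) := by unfold gl; ring
        linarith
      · intro y hy
        obtain ⟨hy1, hy2⟩ := hF' y hy
        have hyF := (Finset.mem_filter.1 hy1).1
        refine ⟨(hF y hyF).sum, ?_, hsum y hyF⟩
        rw [← hy2]
        exact hDv y hyF)
    refine h1.trans ?_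
    have e : @Finset.image _ _ (Classical.decEq _) Df Fa = Fa.image Df := by
      ext D
      simp only [Finset.mem_image]
    rw [e]
    have himg : ∀ D ∈ Fa.image Df, Tp (Dl (N + 1) (N + 1 - 2)) D ∧ Sq D ∧ T ≤ gl D ∧
        gl D ≤ 2 * T := by
      intro D hD
      obtain ⟨x, hx, rfl⟩ := Finset.mem_image.1 hD
      obtain ⟨hxF, hxg⟩ := Finset.mem_filter.1 hx
      obtain ⟨-, -, a1, a2, a3, -⟩ := hPD x hxF
      exact ⟨a1, a2, a3, hxg⟩
    have h2 := hran Z T (Fa.image Df) hZ (hTκ.trans hmZ) fun D hD =>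
      ⟨(himg D hD).1, (himg D hD).2.1, (himg D hD).2.2.1⟩
    rw [← hE] at h2
    have h3 : vol B * ∑ D ∈ Fa.image Df, Real.exp (-tl D) ≤ W := by
      calc vol B * ∑ D ∈ Fa.image Df, Real.exp (-tl D) ≤ Real.exp V * Real.exp (-T + E) := by
            rw [hvolV]; exact mul_le_mul_of_nonneg_left h2 (Real.exp_pos _).le
        _ = Real.exp (V + (-T + E)) := (Real.exp_add _ _).symm
        _ ≤ W := by
            apply cmp
            rw [hT]; linarith
    have h4 := hcn (2 * T) (Fa.image Df) (by linarith) fun D hD =>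
      ⟨(himg D hD).1, (himg D hD).2.1, (himg D hD).2.2.2⟩
    have h5 : vol B / β * ((Fa.image Df).card : ℝ) ≤ Cc * W := by
      rw [hvβ, hHN]
      calc Real.exp ((N - 1) * (m + LA)) * ((Fa.image Df).card : ℝ)
          ≤ Real.exp ((N - 1) * (m + LA)) * (Cc * Real.exp ((1 + η) * (2 * T))) :=
            mul_le_mul_of_nonneg_left h4 (Real.exp_pos _).le
        _ = Cc * Real.exp ((N - 1) * (m + LA) + (1 + η) * (2 * T)) := by
            rw [Real.exp_add]; ring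
        _ ≤ Cc * W := by
            apply mul_le_mul_of_nonneg_left _ hCc.le
            apply cmp
            have h6 : (1 + η) * (2 * T) ≤ (1 + η) * (2 * (κ * m)) :=
              mul_le_mul_of_nonneg_left (by linarith) (by linarith)
            have h7 : (1 + η) * (2 * (κ * m)) = (1 - κ) * m := by
              rw [← hηκ]; ring
            nlinarith
    calc Cs * (vol B * ∑ D ∈ Fa.image Df, Real.exp (-tl D)) +
          Cs * (vol B / β) * (Fa.image Df).card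
        = Cs * (vol B * ∑ D ∈ Fa.image Df, Real.exp (-tl D)) +
          Cs * (vol B / β * (Fa.image Df).card) := by ring
      _ ≤ Cs * W + Cs * (Cc * W) :=
          add_le_add (mul_le_mul_of_nonneg_left h3 hCs.le) (mul_le_mul_of_nonneg_left h5 hCs.le)
      _ = _ := by ring
  -- case (b)
  have hB1 : (Fb.card : ℝ) ≤ 4 * ((N : ℝ) + 1) ^ 2 * Cp * Cq * W := by
    rcases Fb.eq_empty_or_nonempty with hFb0 | ⟨x₁, hx₁⟩
    · rw [hFb0, Finset.card_empty, Nat.cast_zero]; positivity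
    have hvex : ∀ x : Fin (N + 1) → 𝓞 K, ∃ v : Pr K, x ∈ Fb → T ≤ Real.log (Nv v) ∧
        ((∃ i, 2 ≤ Df x i v) ∨ ∃ i j, i ≠ j ∧ 1 ≤ Df x i v ∧ 1 ≤ Df x j v) := by
      intro x
      by_cases hx : x ∈ Fb
      · obtain ⟨hxF, hxg⟩ := Finset.mem_filter.1 hx
        obtain ⟨-, -, a1, a2, a3, a4⟩ := hPD x hxF
        rcases dich a2 hT0 a4 with h | ⟨v, h⟩
        · exact absurd h hxg
        · exact ⟨v, fun _ => h⟩
      · obtain ⟨hxF, hxg⟩ := Finset.mem_filter.1 hx₁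
        obtain ⟨-, -, a1, a2, a3, a4⟩ := hPD x₁ hxF
        rcases dich a2 hT0 a4 with h | ⟨v, h⟩
        · exact absurd h hxg
        · exact ⟨v, fun h => absurd h hx⟩
    choose vf hvf using hvex
    have hzp1 : ∀ (v : Pr K) (e k : ℕ), k ≤ e → (Nv v) ^ (-(e : ℤ)) ≤ (Nv v)⁻¹ ^ k := by
      intro v e k hek
      rw [zpow_neg, zpow_natCast, inv_pow]
      apply inv_anti₀ (pow_pos (Nv_pos v) _)
      exact pow_le_pow_right₀ (Nv_one_lt v).le hek
    have h1 := caseB hCp hβ1 B hvol Fb vf (by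
      intro v i F' hF'
      apply (hprm B H β v hB hβ1 hbn hβH.le).1 i F'
      intro x hx
      obtain ⟨hx1, hx2⟩ := hF' x hx
      have hxF := (Finset.mem_filter.1 hx1).1
      refine ⟨(hF x hxF).sum, ?_, hx2, hsum x hxF⟩
      intro h
      apply (hF x hxF).ne i
      rw [h]; rfl) (by
      intro v i j F' hij hF'
      apply (hprm B H β v hB hβ1 hbn hβH.le).2 i j F' hij
      intro x hx
      obtain ⟨hx1, hx2, hx3⟩ := hF' x hx
      have hxF := (Finset.mem_filter.1 hx1).1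
      refine ⟨(hF x hxF).sum, ?_, hx2, hx3, hsum x hxF⟩
      intro h
      apply (hF x hxF).ne i
      rw [h]; rfl) (by
      intro x hx
      have hxF := (Finset.mem_filter.1 hx).1
      rcases (hvf x hx).2 with ⟨i, hi⟩ | ⟨i, j, hij, hi, hj⟩
      · left
        exact ⟨i, (hDv x hxF i (vf x)).trans (hzp1 _ _ _ hi)⟩
      · right
        refine ⟨i, j, hij, ?_, ?_⟩
        · have := (hDv x hxF i (vf x)).trans (hzp1 _ _ _ hi)
          rwa [pow_one] at this
        · have := (hDv x hxF j (vf x)).trans (hzp1 _ _ _ hj)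
          rwa [pow_one] at this)
    refine h1.trans ?_
    have e : @Finset.image _ _ (Classical.decEq _) vf Fb = Fb.image vf := by
      ext D
      simp only [Finset.mem_image]
    rw [e]
    have h2 := hq1 T (Fb.image vf) hT0 (by
      intro v hv
      obtain ⟨x, hx, rfl⟩ := Finset.mem_image.1 hv
      exact (hvf x hx).1)
    have h3 := hq2 (m + LA) (Fb.image vf) (by linarith) (by
      intro v hv
      obtain ⟨x, hx, rfl⟩ := Finset.mem_image.1 hv
      have hxF := (Finset.mem_filter.1 hx).1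
      obtain ⟨i, hi⟩ : ∃ i, fv (vf x) (x i : K) ≤ (Nv (vf x))⁻¹ := by
        rcases (hvf x hx).2 with ⟨i, hi⟩ | ⟨i, j, hij, hi, hj⟩
        · refine ⟨i, ?_⟩
          have := (hDv x hxF i (vf x)).trans (hzp1 _ _ 1 (by omega))
          rwa [pow_one] at this
        · refine ⟨i, ?_⟩
          have := (hDv x hxF i (vf x)).trans (hzp1 _ _ _ hi)
          rwa [pow_one] at this
      refine (log_int_ge_Nv (x i) ((hF x hxF).ne i) (vf x) hi).trans ?_
      have h4 : ∑ w : InfinitePlace K, (w.mult : ℝ) * Real.log (w (x i : K)) ≤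
          ∑ w : InfinitePlace K, (w.mult : ℝ) * (Real.log A + m / Module.finrank ℚ K) := by
        refine Finset.sum_le_sum fun w _ => mul_le_mul_of_nonneg_left ?_ (Nat.cast_nonneg _)
        exact (Real.log_le_log (InfinitePlace.pos_iff.mpr ((hF x hxF).ne i))
          (hsum x hxF i w)).trans (hB2 i w)
      rw [← Finset.sum_mul, sum_mult] at h4
      refine h4.trans (le_of_eq ?_)
      rw [hLA]
      field_simp
      ring)
    have h4 : vol B * ∑ v ∈ Fb.image vf, (Nv v)⁻¹ ^ 2 ≤ Cq * W := by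
      calc vol B * ∑ v ∈ Fb.image vf, (Nv v)⁻¹ ^ 2 ≤ Real.exp V * (Cq * Real.exp (-T)) := by
            rw [hvolV]; exact mul_le_mul_of_nonneg_left h2 (Real.exp_pos _).le
        _ = Cq * Real.exp (V + -T) := by rw [Real.exp_add]; ring
        _ ≤ Cq * W := by
            apply mul_le_mul_of_nonneg_left _ hCq.le
            apply cmp
            rw [hT]; linarith
    have h5 : vol B / β * ∑ v ∈ Fb.image vf, (Nv v)⁻¹ ≤ Cq * W := by
      rw [hvβ, hHN]
      calc Real.exp ((N - 1) * (m + LA)) * ∑ v ∈ Fb.image vf, (Nv v)⁻¹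
          ≤ Real.exp ((N - 1) * (m + LA)) * (Cq * Real.exp ((m + LA) / 2)) :=
            mul_le_mul_of_nonneg_left h3 (Real.exp_pos _).le
        _ = Cq * Real.exp ((N - 1) * (m + LA) + (m + LA) / 2) := by rw [Real.exp_add]; ring
        _ ≤ Cq * W := by
            apply mul_le_mul_of_nonneg_left _ hCq.le
            apply cmp
            have h6 : 0 ≤ (1 / 2 - κ) * m := mul_nonneg (by linarith) hm0
            nlinarith
    have h6 : 0 ≤ 2 * ((N : ℝ) + 1) ^ 2 * Cp := by positivity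
    calc 2 * ((N : ℝ) + 1) ^ 2 * Cp * (vol B * ∑ v ∈ Fb.image vf, (Nv v)⁻¹ ^ 2 +
          vol B / β * ∑ v ∈ Fb.image vf, (Nv v)⁻¹)
        ≤ 2 * ((N : ℝ) + 1) ^ 2 * Cp * (Cq * W + Cq * W) :=
          mul_le_mul_of_nonneg_left (add_le_add h4 h5) h6
      _ = _ := by ring
  have h9 : 0 ≤ 2 * Ct * W := by positivity
  rw [hcard]
  calc (Fa.card : ℝ) + Fb.card ≤ (Cs + Cs * Cc) * W + 4 * ((N : ℝ) + 1) ^ 2 * Cp * Cq * W :=
        add_le_add hA1 hB1
    _ ≤ _ := by nlinarith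

end Pool.Agent.N531.KG
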