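import Mathlib

set_option autoImplicit false

/-!
# KG/UPNK, part E: asymptotics
-/

namespace Pool.Agent.N531.KG

open Filter Topology

/-- a power of the logarithm is absorbed -/
theorem absorb (A κ c : ℝ) (n r : ℕ) (hr : 1 ≤ r) (hκ : 0 < κ) (hc : 0 < c) :
    ∀ᶠ L : ℝ in atTop, A + n * Real.log L ≤
      c * (κ * L / Real.log L) ^ ((r : ℝ) / (r + 1)) := by
  have hκ2 : 0 < κ ^ (1 / 2 : ℝ) := by positivity
  have h1 : ∀ᶠ L : ℝ in atTop, ‖Real.log L‖ ≤ 1 * ‖L ^ (1 / 2 : ℝ)‖ :=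
    (isLittleO_log_rpow_atTop (by norm_num : (0 : ℝ) < 1 / 2)).bound one_pos
  have h2 : ∀ᶠ L : ℝ in atTop, ‖Real.log L‖ ≤ (c * κ ^ (1 / 2 : ℝ) / (2 * (n + 1))) *
      ‖L ^ (1 / 4 : ℝ)‖ :=
    (isLittleO_log_rpow_atTop (by norm_num : (0 : ℝ) < 1 / 4)).bound (by positivity)
  have h3 : Tendsto (fun L : ℝ => (c * κ ^ (1 / 2 : ℝ) / 2) * L ^ (1 / 4 : ℝ)) atTop atTop :=
    (tendsto_rpow_atTop (by norm_num)).const_mul_atTop (by positivity)
  have h4 : Tendsto (fun L : ℝ => κ * L ^ (1 / 2 : ℝ)) atTop atTop :=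
    (tendsto_rpow_atTop (by norm_num)).const_mul_atTop hκ
  filter_upwards [h1, h2, h3.eventually_ge_atTop A, h4.eventually_ge_atTop 1,
    eventually_ge_atTop (3 : ℝ)] with L h1 h2 h3 h4 hL
  have hL0 : 0 < L := by linarith
  have hlog : 0 < Real.log L := Real.log_pos (by linarith)
  rw [one_mul, Real.norm_of_nonneg hlog.le, Real.norm_of_nonneg (by positivity)] at h1
  rw [Real.norm_of_nonneg hlog.le, Real.norm_of_nonneg (by positivity)] at h2
  have e5 : L ^ (1 / 2 : ℝ) * L ^ (1 / 2 : ℝ) = L := by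
    rw [← Real.rpow_add hL0]; norm_num
  have h5 : κ * L ^ (1 / 2 : ℝ) ≤ κ * L / Real.log L := by
    rw [le_div_iff₀ hlog]
    calc κ * L ^ (1 / 2 : ℝ) * Real.log L ≤ κ * L ^ (1 / 2 : ℝ) * L ^ (1 / 2 : ℝ) :=
          mul_le_mul_of_nonneg_left h1 (by positivity)
      _ = κ * L := by rw [mul_assoc, e5]
  have hr0 : (1 : ℝ) ≤ r := by exact_mod_cast hr
  have hexp : (1 / 2 : ℝ) ≤ (r : ℝ) / (r + 1) := by
    rw [div_le_div_iff₀ (by norm_num) (by positivity)]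
    linarith
  have h6 : κ ^ (1 / 2 : ℝ) * L ^ (1 / 4 : ℝ) ≤ (κ * L / Real.log L) ^ ((r : ℝ) / (r + 1)) := by
    calc κ ^ (1 / 2 : ℝ) * L ^ (1 / 4 : ℝ) = (κ * L ^ (1 / 2 : ℝ)) ^ (1 / 2 : ℝ) := by
          rw [Real.mul_rpow hκ.le (by positivity), ← Real.rpow_mul hL0.le]
          norm_num
      _ ≤ (κ * L ^ (1 / 2 : ℝ)) ^ ((r : ℝ) / (r + 1)) :=
          Real.rpow_le_rpow_of_exponent_le h4 hexp
      _ ≤ _ := Real.rpow_le_rpow (by positivity) h5 (by positivity)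
  have h7 : (n : ℝ) * Real.log L ≤ c * κ ^ (1 / 2 : ℝ) / 2 * L ^ (1 / 4 : ℝ) := by
    have hn : (0 : ℝ) ≤ n := Nat.cast_nonneg _
    calc (n : ℝ) * Real.log L ≤ (n + 1) * Real.log L := by
          apply mul_le_mul_of_nonneg_right (by linarith) hlog.le
      _ ≤ (n + 1) * ((c * κ ^ (1 / 2 : ℝ) / (2 * (n + 1))) * L ^ (1 / 4 : ℝ)) :=
          mul_le_mul_of_nonneg_left h2 (by positivity)
      _ = _ := by field_simp
  calc A + n * Real.log L ≤ c * (κ ^ (1 / 2 : ℝ) * L ^ (1 / 4 : ℝ)) := by linarith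
    _ ≤ _ := mul_le_mul_of_nonneg_left h6 hc.le

theorem ratio (κ δ : ℝ) (hκ : 0 < κ) (hδ : 0 < δ) (hδ1 : δ ≤ 1) : ∀ᶠ X : ℝ in atTop,
    κ * (X + 1) / Real.log (κ * (X + 1)) ≤ (1 + δ) * (κ * X / Real.log X) ∧
    0 ≤ κ * (X + 1) / Real.log (κ * (X + 1)) := by
  have e1 : ∀ᶠ X : ℝ in atTop, (1 + δ / 3) * (1 + |Real.log κ|) * 3 / δ ≤ Real.log X :=
    Real.tendsto_log_atTop.eventually_ge_atTop _
  filter_upwards [e1, eventually_ge_atTop (3 / δ), eventually_ge_atTop (3 : ℝ)] with X h1 h2 h3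
  have hX0 : 0 < X := by linarith
  have hl0 : 0 < Real.log X := Real.log_pos (by linarith)
  rw [div_le_iff₀ hδ] at h1 h2
  have h4 : -|Real.log κ| ≤ Real.log κ := neg_abs_le _
  have h5 : Real.log κ + Real.log X ≤ Real.log (κ * (X + 1)) := by
    rw [← Real.log_mul hκ.ne' hX0.ne']
    apply Real.log_le_log (by positivity)
    nlinarith
  have hab := abs_nonneg (Real.log κ)
  have h6 : Real.log X ≤ (1 + δ / 3) * (Real.log κ + Real.log X) := by nlinarith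
  have h7 : Real.log X ≤ (1 + δ / 3) * Real.log (κ * (X + 1)) :=
    h6.trans (mul_le_mul_of_nonneg_left h5 (by positivity))
  have h8 : 0 < Real.log (κ * (X + 1)) := by
    by_contra hcon
    push Not at hcon
    have : (1 + δ / 3) * Real.log (κ * (X + 1)) ≤ 0 :=
      mul_nonpos_of_nonneg_of_nonpos (by positivity) hcon
    linarith
  refine ⟨?_, by positivity⟩
  rw [div_le_iff₀ h8]
  have h9 : κ * X / Real.log X * Real.log X = κ * X := by field_simp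
  have h10 : 0 ≤ κ * X / Real.log X := by positivity
  have h11 : κ * X ≤ (κ * X / Real.log X) * ((1 + δ / 3) * Real.log (κ * (X + 1))) := by
    calc κ * X = κ * X / Real.log X * Real.log X := h9.symm
      _ ≤ _ := mul_le_mul_of_nonneg_left h7 h10
  have h12 : κ * (X + 1) ≤ (1 + δ / 3) * (κ * X) := by nlinarith
  calc κ * (X + 1) ≤ (1 + δ / 3) * (κ * X) := h12
    _ ≤ (1 + δ / 3) * ((κ * X / Real.log X) * ((1 + δ / 3) * Real.log (κ * (X + 1)))) :=
        mul_le_mul_of_nonneg_left h11 (by positivity)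
    _ = ((1 + δ / 3) * (1 + δ / 3)) * ((κ * X / Real.log X) * Real.log (κ * (X + 1))) := by ring
    _ ≤ (1 + δ) * ((κ * X / Real.log X) * Real.log (κ * (X + 1))) := by
        apply mul_le_mul_of_nonneg_right _ (by positivity)
        nlinarith
    _ = _ := by ring

theorem asy (A κ c ε : ℝ) (n r : ℕ) (hr : 1 ≤ r) (hκ : 0 < κ) (hc : 0 < c) (hε : 0 < ε) :
    ∀ᶠ X : ℝ in atTop, A + n * Real.log X +
      (1 + ε / 4) * c * (κ * (X + 1) / Real.log (κ * (X + 1))) ^ ((r : ℝ) / (r + 1)) ≤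
      (1 + ε) * c * (κ * X / Real.log X) ^ ((r : ℝ) / (r + 1)) := by
  have hδ : 0 < ε / (4 + ε) := by positivity
  have hδ1 : ε / (4 + ε) ≤ 1 := by
    rw [div_le_one (by positivity)]; linarith
  filter_upwards [absorb A κ (ε / 2 * c) n r hr hκ (by positivity),
    ratio κ (ε / (4 + ε)) hκ hδ hδ1, eventually_ge_atTop (3 : ℝ)] with X h1 h2 h3
  have hl0 : 0 < Real.log X := Real.log_pos (by linarith)
  have hX0 : 0 < X := by linarith
  have hq : 0 ≤ κ * X / Real.log X := by positivity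
  have hρ0 : 0 ≤ (r : ℝ) / (r + 1) := by positivity
  have hρ1 : (r : ℝ) / (r + 1) ≤ 1 := by
    rw [div_le_one (by positivity)]; linarith
  have h4 : (κ * (X + 1) / Real.log (κ * (X + 1))) ^ ((r : ℝ) / (r + 1)) ≤
      (1 + ε / (4 + ε)) * (κ * X / Real.log X) ^ ((r : ℝ) / (r + 1)) := by
    calc (κ * (X + 1) / Real.log (κ * (X + 1))) ^ ((r : ℝ) / (r + 1))
        ≤ ((1 + ε / (4 + ε)) * (κ * X / Real.log X)) ^ ((r : ℝ) / (r + 1)) :=
          Real.rpow_le_rpow h2.2 h2.1 hρ0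
      _ = (1 + ε / (4 + ε)) ^ ((r : ℝ) / (r + 1)) *
          (κ * X / Real.log X) ^ ((r : ℝ) / (r + 1)) :=
          Real.mul_rpow (by positivity) hq
      _ ≤ (1 + ε / (4 + ε)) ^ (1 : ℝ) * (κ * X / Real.log X) ^ ((r : ℝ) / (r + 1)) := by
          apply mul_le_mul_of_nonneg_right _ (Real.rpow_nonneg hq _)
          exact Real.rpow_le_rpow_of_exponent_le (by linarith) hρ1
      _ = _ := by rw [Real.rpow_one]
  have h5 : (1 + ε / 4) * (1 + ε / (4 + ε)) = 1 + ε / 2 := by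
    field_simp; ring
  have h6 := mul_le_mul_of_nonneg_left h4 (by positivity : (0 : ℝ) ≤ (1 + ε / 4) * c)
  have h7 : (1 + ε / 4) * c * ((1 + ε / (4 + ε)) *
      (κ * X / Real.log X) ^ ((r : ℝ) / (r + 1))) =
      (1 + ε / 2) * c * (κ * X / Real.log X) ^ ((r : ℝ) / (r + 1)) := by
    rw [← h5]; ring
  rw [h7] at h6
  have h8 : (1 + ε) * c * (κ * X / Real.log X) ^ ((r : ℝ) / (r + 1)) =
      (1 + ε / 2) * c * (κ * X / Real.log X) ^ ((r : ℝ) / (r + 1)) +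
      ε / 2 * c * (κ * X / Real.log X) ^ ((r : ℝ) / (r + 1)) := by ring
  rw [h8]
  linarith

end Pool.Agent.N531.KG
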