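import Pool.Agent.N531.KG_D
import Pool.Agent.N531.KG_E
import Pool.Agent.N803.RS_CNT

set_option autoImplicit false
set_option linter.unusedSectionVars false

/-!
# KG/UPNK: the upper bound
-/

namespace Pool.Agent.N531.KG

open NumberField IsDedekindDomain Finset Filter Topology Pool.Agent.H691R3 Pool.Agent.W223.AK
open Pool.Agent.N906.KG
open Pool.Agent.N906.NT (Cx cst Dl)

/-- a family of points with good integral coordinates -/
structure Good {K : Type} [Field K] [NumberField K] {N : ℕ} (κ A C₀ : ℝ)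
    (x : Fin (N + 1) → 𝓞 K) : Prop where
  sum : ∑ i, x i = 0
  ne : ∀ i, (x i : K) ≠ 0
  sup : ∀ w : InfinitePlace K, A⁻¹ * Real.exp (ht x / Module.finrank ℚ K) ≤ (⨆ i, w (x i : K)) ∧
    (⨆ i, w (x i : K)) ≤ A * Real.exp (ht x / Module.finrank ℚ K)
  rad : ∃ P : Fin (N + 1) → Idl K, IsQ (fun i => (x i : K)) P ∧
    tr P ≤ ((N : ℝ) + 1 - κ) * ht x + C₀

variable {K : Type} [Field K] [NumberField K]

theorem ht_nonneg {n : ℕ} [NeZero n] (x : Fin n → 𝓞 K) : 0 ≤ ht x := by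
  unfold ht
  exact Height.logHeight_nonneg _

/-- the number of the good tuples of bounded height -/
theorem count (N : ℕ) (κ ε A C₀ C Z₀ : ℝ) (hκ : 0 < κ) (hκ1 : κ ≤ 1) (hN : 2 ≤ N)
    (hA : 1 ≤ A) (hC : 0 < C)
    (hcl : ∀ (Z : ℝ) (m : ℕ) (B : Fin (N + 1) → InfinitePlace K → ℝ)
      (F : Finset (Fin (N + 1) → 𝓞 K)), Z₀ ≤ Z → κ * m ≤ Z → (∀ k w, 0 < B k w) →
      (∀ k w, Real.log (B k w) ≤ Real.log A + m / Module.finrank ℚ K) →
      (∀ x ∈ F, Cls κ A C₀ m B x) →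
      (F.card : ℝ) ≤ C * Real.exp ((N - κ) * m +
        (1 + ε) * cst (N + 1 - 2) ((N + 1).choose (N + 1 - 2)) *
        (Z / Real.log Z) ^ (((N + 1 - 2 : ℕ) : ℝ) / (((N + 1 - 2 : ℕ) : ℝ) + 1)))) :
    ∃ A' : ℝ, ∃ n' : ℕ, ∀ (X : ℝ) (F : Finset (Fin (N + 1) → 𝓞 K)), 1 ≤ X → Z₀ ≤ κ * (X + 1) →
      (∀ x ∈ F, Good κ A C₀ x ∧ ht x ≤ X) →
      (F.card : ℝ) ≤ Real.exp ((N - κ) * X + (A' + n' * Real.log X +
        (1 + ε) * cst (N + 1 - 2) ((N + 1).choose (N + 1 - 2)) *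
        (κ * (X + 1) / Real.log (κ * (X + 1))) ^
          (((N + 1 - 2 : ℕ) : ℝ) / (((N + 1 - 2 : ℕ) : ℝ) + 1)))) := by
  classical
  have hd1 : (1 : ℝ) ≤ Module.finrank ℚ K := by
    have : 0 < Module.finrank ℚ K := Module.finrank_pos
    exact_mod_cast this
  have hd : (0 : ℝ) < Module.finrank ℚ K := by linarith
  obtain ⟨LA, hLA⟩ : ∃ LA : ℝ, LA = Module.finrank ℚ K * Real.log A := ⟨_, rfl⟩
  have hlA : 0 ≤ Real.log A := Real.log_nonneg hA
  have hLA0 : 0 ≤ LA := by rw [hLA]; positivity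
  have hLA1 : Real.log A ≤ LA := by rw [hLA]; nlinarith
  have hNR : (2 : ℝ) ≤ N := by exact_mod_cast hN
  obtain ⟨R, hR⟩ : ∃ R : ℕ, R = Fintype.card (InfinitePlace K) * (N + 1) := ⟨_, rfl⟩
  refine ⟨Real.log C + (N - κ) + Real.log 3 + R * Real.log (3 * LA + 7), R + 1, ?_⟩
  intro X F hX hZ hF
  obtain ⟨E, hE⟩ : ∃ E : ℝ, E = (1 + ε) * cst (N + 1 - 2) ((N + 1).choose (N + 1 - 2)) *
        (κ * (X + 1) / Real.log (κ * (X + 1))) ^
          (((N + 1 - 2 : ℕ) : ℝ) / (((N + 1 - 2 : ℕ) : ℝ) + 1)) := ⟨_, rfl⟩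
  rw [← hE]
  have hA0 : 0 < A := by linarith
  -- the box sizes
  obtain ⟨q, hq⟩ : ∃ q : ℕ → ℝ, q = fun m : ℕ => A * Real.exp ((m : ℝ) / Module.finrank ℚ K) :=
    ⟨_, rfl⟩
  have hq0 : ∀ m, 0 < q m := fun m => by rw [hq]; positivity
  have hlq : ∀ m, Real.log (q m) = Real.log A + m / Module.finrank ℚ K := fun m => by
    rw [hq, Real.log_mul hA0.ne' (Real.exp_pos _).ne', Real.log_exp]
  have hwle : ∀ x ∈ F, ∀ k (w : InfinitePlace K), w (x k : K) ≤ q ⌈ht x⌉₊ := by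
    intro x hx k w
    have h1 := ((hF x hx).1.sup w).2
    refine (le_iSup' (fun i => w (x i : K)) k).trans (h1.trans ?_)
    rw [hq]
    apply mul_le_mul_of_nonneg_left _ hA0.le
    apply Real.exp_le_exp.2
    exact div_le_div_of_nonneg_right (Nat.le_ceil _) hd.le
  have hwpos : ∀ x ∈ F, ∀ k (w : InfinitePlace K), 0 < w (x k : K) := fun x hx k w =>
    InfinitePlace.pos_iff.mpr ((hF x hx).1.ne k)
  have hex : ∀ (x : Fin (N + 1) → 𝓞 K) (k : Fin (N + 1)) (w : InfinitePlace K), ∃ i : ℕ, x ∈ F →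
      (2 : ℝ) ^ i ≤ q ⌈ht x⌉₊ / w (x k : K) ∧ q ⌈ht x⌉₊ / w (x k : K) < 2 ^ (i + 1) := by
    intro x k w
    by_cases hx : x ∈ F
    · obtain ⟨i, hi⟩ := exists_nat_pow_near (x := q ⌈ht x⌉₊ / w (x k : K)) (y := 2)
        (by rw [le_div_iff₀ (hwpos x hx k w), one_mul]; exact hwle x hx k w) (by norm_num)
      exact ⟨i, fun _ => hi⟩
    · exact ⟨0, fun h => absurd h hx⟩
  choose e he using hex
  -- the classes
  obtain ⟨I, hI⟩ : ∃ I : ℕ, I = ⌊3 * (LA + X + 1)⌋₊ := ⟨_, rfl⟩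
  set S : Finset (ℕ × (Fin (N + 1) → InfinitePlace K → ℕ)) :=
    range (⌊X⌋₊ + 2) ×ˢ Fintype.piFinset fun _ : Fin (N + 1) =>
      Fintype.piFinset fun _ : InfinitePlace K => range (I + 1) with hS
  have hmle : ∀ x ∈ F, ⌈ht x⌉₊ ≤ ⌊X⌋₊ + 1 := by
    intro x hx
    rw [Nat.ceil_le]
    have h1 := Nat.lt_floor_add_one X
    push_cast
    linarith [(hF x hx).2]
  have hmX : ∀ x ∈ F, ((⌈ht x⌉₊ : ℕ) : ℝ) ≤ X + 1 := by
    intro x hx
    have h1 : ((⌈ht x⌉₊ : ℕ) : ℝ) ≤ ((⌊X⌋₊ + 1 : ℕ) : ℝ) := by exact_mod_cast hmle x hx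
    have h2 := Nat.floor_le (show 0 ≤ X by linarith)
    push_cast at h1
    linarith
  have hmaps : ∀ x ∈ F, (⌈ht x⌉₊, e x) ∈ S := by
    intro x hx
    rw [hS, Finset.mem_product]
    refine ⟨?_, ?_⟩
    · rw [Finset.mem_range]
      have := hmle x hx
      simp only
      omega
    · rw [Fintype.mem_piFinset]
      intro k
      rw [Fintype.mem_piFinset]
      intro w
      rw [Finset.mem_range, Nat.lt_succ_iff, hI]
      apply Nat.le_floor
      have h1 := (he x k w hx).1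
      have h2 := hwpos x hx k w
      have h3 := Real.log_le_log (by positivity) h1
      rw [Real.log_pow, Real.log_div (hq0 _).ne' h2.ne', hlq] at h3
      have h4 := log_w_ge (x k) ((hF x hx).1.ne k)
        (Real.log A + (⌈ht x⌉₊ : ℕ) / Module.finrank ℚ K) (by positivity) (fun u => by
          rw [← hlq]
          exact Real.log_le_log (hwpos x hx k u) (hwle x hx k u)) w
      have h5 : (Module.finrank ℚ K : ℝ) * (Real.log A + (⌈ht x⌉₊ : ℕ) / Module.finrank ℚ K) =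
          LA + (⌈ht x⌉₊ : ℕ) := by
        rw [hLA]; field_simp
      rw [h5] at h4
      have h6 := hmX x hx
      have h7 : ((⌈ht x⌉₊ : ℕ) : ℝ) / Module.finrank ℚ K ≤ (⌈ht x⌉₊ : ℕ) :=
        div_le_self (Nat.cast_nonneg _) hd1
      have h8 : (e x k w : ℝ) * Real.log 2 ≤ 2 * (LA + X + 1) := by linarith
      have h9 := Real.log_two_gt_d9
      have h10 : (0 : ℝ) ≤ e x k w := Nat.cast_nonneg _
      show (e x k w : ℝ) ≤ 3 * (LA + X + 1)
      nlinarith
  -- one class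
  have hfib : ∀ b ∈ S, ((F.filter fun x => (⌈ht x⌉₊, e x) = b).card : ℝ) ≤
      C * Real.exp ((N - κ) * (X + 1) + E) := by
    rintro ⟨m, i⟩ hb
    rw [hS, Finset.mem_product, Finset.mem_range] at hb
    have hm1 : m < ⌊X⌋₊ + 2 := hb.1
    have hm2 : (m : ℝ) ≤ X + 1 := by
      have h1 : (m : ℝ) ≤ ((⌊X⌋₊ + 1 : ℕ) : ℝ) := by exact_mod_cast (by omega : m ≤ ⌊X⌋₊ + 1)
      have h2 := Nat.floor_le (show 0 ≤ X by linarith)
      push_cast at h1
      linarith
    have h := hcl (κ * (X + 1)) m (fun k w => q m / 2 ^ (i k w))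
      (F.filter fun x => (⌈ht x⌉₊, e x) = (m, i)) hZ
      (mul_le_mul_of_nonneg_left hm2 hκ.le) (fun k w => by have := hq0 m; positivity)
      (fun k w => by
        rw [Real.log_div (hq0 m).ne' (by positivity), hlq, Real.log_pow]
        have h1 := Real.log_two_gt_d9
        have h2 : (0 : ℝ) ≤ i k w := Nat.cast_nonneg _
        nlinarith) (by
        intro x hx
        obtain ⟨hxF, hxb⟩ := Finset.mem_filter.1 hx
        rw [Prod.mk.injEq] at hxb
        obtain ⟨hxm, hxi⟩ := hxb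
        have hg := (hF x hxF).1
        refine ⟨hg.sum, hg.ne, ?_, ?_, hg.sup, ?_, hg.rad⟩
        · rw [← hxm]
          have := Nat.ceil_lt_add_one (ht_nonneg x)
          linarith
        · rw [← hxm]
          exact Nat.le_ceil _
        · intro k w
          have h1 := he x k w hxF
          rw [hxm, hxi] at h1
          have h2 := hwpos x hxF k w
          have h3 : (0 : ℝ) < 2 ^ (i k w) := by positivity
          obtain ⟨h4, h5⟩ := h1
          rw [le_div_iff₀ h2] at h4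
          rw [div_lt_iff₀ h2] at h5
          constructor
          · rw [div_div, div_lt_iff₀ (by positivity)]
            calc q m < 2 ^ (i k w + 1) * w (x k : K) := h5
              _ = w (x k : K) * (2 ^ (i k w) * 2) := by ring
          · rw [le_div_iff₀ h3]
            linarith)
    refine h.trans ?_
    rw [← hE]
    apply mul_le_mul_of_nonneg_left _ hC.le
    apply Real.exp_le_exp.2
    have : (N - κ) * (m : ℝ) ≤ (N - κ) * (X + 1) :=
      mul_le_mul_of_nonneg_left hm2 (by linarith)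
    linarith
  have hSc : (S.card : ℝ) ≤ (3 * X) * ((3 * LA + 7) * X) ^ R := by
    rw [hS, Finset.card_product, Finset.card_range, Fintype.card_piFinset, Finset.prod_const,
      Fintype.card_piFinset, Finset.prod_const, Finset.card_range, Finset.card_univ,
      Finset.card_univ, Fintype.card_fin, ← pow_mul, ← hR]
    push_cast
    have h1 := Nat.floor_le (show 0 ≤ X by linarith)
    have h2 : (I : ℝ) ≤ 3 * (LA + X + 1) := by
      rw [hI]; exact Nat.floor_le (by positivity)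
    have h3 : (I : ℝ) + 1 ≤ (3 * LA + 7) * X := by nlinarith
    apply mul_le_mul (by linarith) _ (by positivity) (by positivity)
    exact pow_le_pow_left₀ (by positivity) h3 _
  have hX0 : 0 < X := by linarith
  rw [Finset.card_eq_sum_card_fiberwise (f := fun x => (⌈ht x⌉₊, e x)) (t := S) hmaps]
  push_cast
  refine (Finset.sum_le_sum hfib).trans ?_
  rw [Finset.sum_const, nsmul_eq_mul]
  calc (S.card : ℝ) * (C * Real.exp ((N - κ) * (X + 1) + E))
      ≤ ((3 * X) * ((3 * LA + 7) * X) ^ R) * (C * Real.exp ((N - κ) * (X + 1) + E)) :=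
        mul_le_mul_of_nonneg_right hSc (by positivity)
    _ = Real.exp (Real.log ((3 * X) * ((3 * LA + 7) * X) ^ R)) * (Real.exp (Real.log C) *
          Real.exp ((N - κ) * (X + 1) + E)) := by
        rw [Real.exp_log (by positivity), Real.exp_log hC]
    _ = Real.exp (Real.log 3 + Real.log X + R * (Real.log (3 * LA + 7) + Real.log X) +
          (Real.log C + ((N - κ) * (X + 1) + E))) := by
        rw [← Real.exp_add, ← Real.exp_add, Real.log_mul (by positivity) (by positivity),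
          Real.log_pow, Real.log_mul (by norm_num) hX0.ne',
          Real.log_mul (by positivity) hX0.ne']
    _ = _ := by
        congr 1
        ring

variable (K) in
/-- UPNK -/
theorem upnk (_h0 : S_BASN K) (h1 : S_REPK K) (h2 : S_SEQK K) (h3 : S_TRIVK K) (h4 : S_PRMK K)
    (h5 : S_REDK K) (h6 : S_RANK K) (h7 : S_CNTK K) : S_UPNK K := by
  classical
  intro n κ ε C₀ hn hκ hκ3 hε hC₀
  obtain ⟨N, rfl⟩ : ∃ N, n = N + 1 := ⟨n - 1, by omega⟩
  obtain ⟨A, hA, hrep⟩ := h1 (N + 1) (by omega)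
  obtain ⟨C, Z₀, hC, hZ₀, hcl⟩ := class_bound h2 h3 h4 h5 h6 h7 (Pool.Agent.N803.RS.cnt K) N
    (by omega) κ (ε / 4) A C₀ hκ hκ3 (by positivity) hA hC₀
  obtain ⟨A', n', hcount⟩ := count N κ (ε / 4) A C₀ C Z₀ hκ (by linarith) (by omega) hA hC hcl
  have hr1 : 1 ≤ N + 1 - 2 := by omega
  have hcst := cst_pos (N + 1 - 2) ((N + 1).choose (N + 1 - 2)) hr1 (Nat.choose_pos (by omega))
  obtain ⟨X₁, hX₁⟩ := eventually_atTop.1 (asy A' κ (cst (N + 1 - 2) ((N + 1).choose (N + 1 - 2)))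
    ε n' (N + 1 - 2) hr1 hκ hcst hε)
  refine ⟨max (max X₁ 2) (Z₀ / κ), by
    have h1 := le_max_right X₁ 2
    have h2 := le_max_left (max X₁ 2) (Z₀ / κ)
    linarith, ?_⟩
  intro X F hX hF
  have hXa : X₁ ≤ X := ((le_max_left _ _).trans (le_max_left _ _)).trans hX
  have hX2 : 2 ≤ X := ((le_max_right _ _).trans (le_max_left _ _)).trans hX
  have hXZ : Z₀ / κ ≤ X := (le_max_right _ _).trans hX
  have hZX : Z₀ ≤ κ * (X + 1) := by
    rw [div_le_iff₀ hκ] at hXZ
    nlinarith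
  have hch : ∀ p : Projectivization K (Fin (N + 1) → K), ∃ (t : K) (x : Fin (N + 1) → 𝓞 K),
      t ≠ 0 ∧ (∀ i, (x i : K) = t * p.rep i) ∧ ∀ w : InfinitePlace K,
      A⁻¹ * Real.exp (Height.logHeight p.rep / Module.finrank ℚ K) ≤ (⨆ i, w (x i : K)) ∧
      (⨆ i, w (x i : K)) ≤ A * Real.exp (Height.logHeight p.rep / Module.finrank ℚ K) :=
    fun p => hrep p.rep p.rep_nonzero
  choose t x ht0 hx hw using hch
  have hinj : Set.InjOn x (F : Set (Projectivization K (Fin (N + 1) → K))) := by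
    intro p _ p' _ hpp
    have h8 : ∀ i, t p * p.rep i = t p' * p'.rep i := by
      intro i
      rw [← hx, ← hx, hpp]
    rw [← p.mk_rep, ← p'.mk_rep, Projectivization.mk_eq_mk_iff']
    refine ⟨(t p)⁻¹ * t p', ?_⟩
    funext i
    rw [Pi.smul_apply, smul_eq_mul, mul_assoc, ← h8, ← mul_assoc, inv_mul_cancel₀ (ht0 p), one_mul]
  rw [← Finset.card_image_of_injOn hinj]
  have hht : ∀ p, ht (x p) = Height.logHeight p.rep := by
    intro p
    unfold ht
    exact logHeight_scale (ht0 p) (hx p)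
  have hmain := hcount X (F.image x) (by linarith) hZX (by
    intro y hy
    obtain ⟨p, hp, rfl⟩ := Finset.mem_image.1 hy
    obtain ⟨f1, f2, f3, P, f4, f5⟩ := hF p hp
    refine ⟨⟨?_, ?_, ?_, P, isQ_smul f4 (hx p), ?_⟩, ?_⟩
    · apply RingOfIntegers.coe_injective
      rw [map_sum, map_zero]
      have : ∀ i, (algebraMap (𝓞 K) K) (x p i) = t p * p.rep i := hx p
      rw [Finset.sum_congr rfl fun i _ => this i, ← Finset.mul_sum, f1, mul_zero]
    · intro i
      rw [hx p i]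
      exact mul_ne_zero (ht0 p) (f2 i)
    · rw [hht]; exact hw p
    · rw [hht]
      push_cast at f5
      exact f5
    · rw [hht]; exact f3)
  refine hmain.trans ?_
  apply Real.exp_le_exp.2
  have hfin := hX₁ X hXa
  have e1 : ((N + 1 - 2 : ℕ) : ℝ) = ((N + 1 : ℕ) : ℝ) - 2 := by
    rw [Nat.cast_sub (by omega)]
    norm_num
  have e2 : ((N + 1 - 2 : ℕ) : ℝ) + 1 = ((N + 1 : ℕ) : ℝ) - 1 := by
    rw [e1]; ring
  have e3 : ((N : ℝ) - κ) * X = (((N + 1 : ℕ) : ℝ) - 1 - κ) * X := by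
    push_cast; ring
  rw [e2, e1] at hfin
  rw [e2, e1, e3]
  linarith

end Pool.Agent.N531.KG
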