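import Pool.Agent.N321.KT.Defs

/-!
# Continuity of the jets in the curvature (project KT, piece CON)
-/

set_option autoImplicit false

open Filter Topology

namespace Pool.Agent.N531.KTC

open Pool.Agent.N321.KT

variable {ι : Type} [Fintype ι] [DecidableEq ι]

/-! ### Chain rule -/

theorem pd_smul (i : ι) (r : ℝ) (f : (ι → ℝ) → ℝ) :
    pd i (fun y => r * f y) = fun y => r * pd i f y := by
  funext y
  have h : (fun y => r * f y) = r • f := by
    funext z
    rfl
  unfold pd
  rw [h, fderiv_const_smul_field]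
  rfl

theorem jet_smul (r : ℝ) (w : List ι) : ∀ (f : (ι → ℝ) → ℝ) (x : ι → ℝ),
    jet (fun y => r * f y) x w = r * jet f x w := by
  induction w with
  | nil => intro f x; rfl
  | cons i w ih =>
    intro f x
    show jet (pd i (fun y => r * f y)) x w = r * jet (pd i f) x w
    rw [pd_smul, ih]

theorem pd_comp (i : ι) (r : ℝ) (f : (ι → ℝ) → ℝ) :
    pd i (fun y => f (r • y)) = fun y => r * pd i f (r • y) := by
  funext y
  unfold pd
  have h := fderiv_comp_smul (𝕜 := ℝ) (f := f) (x := y) r
  rw [h]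
  rfl

theorem jet_comp (r : ℝ) (w : List ι) : ∀ (f : (ι → ℝ) → ℝ) (x : ι → ℝ),
    jet (fun y => f (r • y)) x w = r ^ w.length * jet f (r • x) w := by
  induction w with
  | nil =>
    intro f x
    show f (r • x) = r ^ 0 * f (r • x)
    simp
  | cons i w ih =>
    intro f x
    show jet (pd i (fun y => f (r • y))) x w = r ^ (w.length + 1) * jet (pd i f) (r • x) w
    rw [pd_comp, jet_smul r w (fun y => pd i f (r • y)) x, ih (pd i f) x]
    ring

/-! ### Jets of functions of constant and affine type -/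

theorem pd_const (i : ι) (c : ℝ) : pd i (fun _ : ι → ℝ => c) = fun _ => 0 := by
  funext y
  unfold pd
  rw [fderiv_const_apply]
  rfl

theorem jet_zero (w : List ι) (x : ι → ℝ) : jet (fun _ => (0:ℝ)) x w = 0 := by
  induction w with
  | nil => rfl
  | cons i w ih =>
    show jet (pd i (fun _ => (0:ℝ))) x w = 0
    rw [pd_const]
    exact ih

theorem pd_affine (i : ι) (A : ℝ) (B : ι → ℝ) :
    pd i (fun y => A + ∑ l, B l * y l) = fun _ => B i := by
  funext y
  have h1 : HasFDerivAt (fun y : ι → ℝ => A + ∑ l, B l * y l)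
      (∑ l, B l • (ContinuousLinearMap.proj l : (ι → ℝ) →L[ℝ] ℝ)) y := by
    refine HasFDerivAt.const_add A ?_
    refine HasFDerivAt.fun_sum fun l _ => ?_
    exact ((ContinuousLinearMap.proj l : (ι → ℝ) →L[ℝ] ℝ).hasFDerivAt).const_mul (B l)
  unfold pd
  rw [h1.fderiv, ContinuousLinearMap.sum_apply, Finset.sum_eq_single i]
  · simp
  · intro l _ hl
    simp [Pi.single_eq_of_ne hl]
  · intro h
    exact absurd (Finset.mem_univ i) h

/-! ### Scaling -/

theorem rho_scale (c r : ℝ) (e y : ι → ℝ) : rho c e (r • y) = rho (c * r ^ 2) e y := by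
  unfold rho
  rw [Finset.mul_sum, Finset.mul_sum]
  congr 1
  refine Finset.sum_congr rfl fun i _ => ?_
  simp only [Pi.smul_apply, smul_eq_mul]
  ring

theorem kP_scale (c r : ℝ) (e y : ι → ℝ) (j s : ι) :
    kP c e (r • y) j s = kP (c * r ^ 2) e y j s := by
  unfold kP
  simp only [Pi.smul_apply, smul_eq_mul]
  ring

omit [Fintype ι] in
theorem kL_scale (r : ℝ) (e y : ι → ℝ) (k l s : ι) :
    kL e (r • y) k l s = r * kL e y k l s := by
  unfold kL
  simp only [Pi.smul_apply, smul_eq_mul]
  split_ifs <;> ring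

theorem gMet_scale (c r : ℝ) (e y : ι → ℝ) (i j : ι) :
    gMet c e (r • y) i j = gMet (c * r ^ 2) e y i j := by
  unfold gMet
  rw [rho_scale]
  simp only [Pi.smul_apply, smul_eq_mul]
  congr 1
  ring

theorem kQ_scale (c r : ℝ) (hr : r ≠ 0) (e d y : ι → ℝ) (b : ι → ι → ι → ℝ) (s t : ι) :
    kQ c e d (fun i j k => r⁻¹ * b i j k) (r • y) s t = kQ (c * r ^ 2) e d b y s t := by
  unfold kQ
  simp only [kP_scale, kL_scale]
  congr 1
  refine Finset.sum_congr rfl fun j _ => Finset.sum_congr rfl fun k _ =>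
    Finset.sum_congr rfl fun l _ => ?_
  field_simp

theorem kK_scale (c r : ℝ) (hr : r ≠ 0) (e d y : ι → ℝ) (b : ι → ι → ι → ℝ) (s t : ι) :
    kK c e d (fun i j k => r⁻¹ * b i j k) (r • y) s t = kK (c * r ^ 2) e d b y s t := by
  unfold kK
  refine Finset.sum_congr rfl fun i _ => ?_
  rw [kQ_scale c r hr, gMet_scale]

/-! ### The value at curvature zero -/

theorem kK_zero (e d y : ι → ℝ) (he : ∀ i, e i ^ 2 = 1) (b : ι → ι → ι → ℝ) (s t : ι) :
    kK 0 e d b y s t = (if s = t then d s else 0) + ∑ l, lin e b s t l * y l := by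
  have hrho : rho 0 e y = 1 := by unfold rho; ring
  have hg : ∀ i, gMet 0 e y i t = if i = t then e i else 0 := by
    intro i
    unfold gMet
    rw [hrho]
    simp
  have hP : ∀ j s : ι, kP 0 e y j s = if j = s then 1 else 0 := by
    intro j s
    unfold kP
    ring
  have hL : ∀ (B : ι → ι → ℝ) (i : ι), ∑ k, ∑ l, B k l * kL e y k l i =
      ∑ l, (B l i - B i l) * (e l * y l) := by
    intro B i
    unfold kL
    simp only [mul_sub, Finset.sum_sub_distrib]
    have h1 : ∑ k, ∑ l, B k l * (if l = i then e k * y k else 0) =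
        ∑ k, B k i * (e k * y k) := by
      refine Finset.sum_congr rfl fun k _ => ?_
      simp
    have h2 : ∑ k, ∑ l, B k l * (if k = i then e l * y l else 0) =
        ∑ l, B i l * (e l * y l) := by
      rw [Finset.sum_comm]
      refine Finset.sum_congr rfl fun l _ => ?_
      simp
    rw [h1, h2, ← Finset.sum_sub_distrib]
    refine Finset.sum_congr rfl fun l _ => ?_
    ring
  have hQ : kQ 0 e (fun j => d j * e j) b y s t = (if s = t then d s * e s else 0) +
      (∑ l, (b s l t - b s t l) * (e l * y l) + ∑ l, (b t l s - b t s l) * (e l * y l)) := by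
    unfold kQ
    simp only [hP]
    congr 1
    · simp only [mul_ite, mul_one, mul_zero, ite_mul, zero_mul, one_mul]
      by_cases hst : s = t
      · subst hst
        rw [if_pos rfl, Finset.sum_eq_single s]
        · simp
        · intro j _ hj; simp [hj]
        · intro h; exact absurd (Finset.mem_univ s) h
      · rw [if_neg hst]
        refine Finset.sum_eq_zero fun j _ => ?_
        by_cases h1 : j = t
        · subst h1
          simp [Ne.symm hst]
        · simp [h1]
    · have e1 : ∀ j k l, b j k l * ((if j = s then (1:ℝ) else 0) * kL e y k l t +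
          (if j = t then 1 else 0) * kL e y k l s) =
          (if j = s then b j k l * kL e y k l t else 0) +
          (if j = t then b j k l * kL e y k l s else 0) := by
        intro j k l
        split_ifs <;> ring
      simp only [e1, Finset.sum_add_distrib]
      rw [← hL (fun k l => b s k l) t, ← hL (fun k l => b t k l) s]
      congr 1
      · rw [Finset.sum_eq_single s]
        · simp
        · intro j _ hj; simp [hj]
        · intro h; exact absurd (Finset.mem_univ s) h
      · rw [Finset.sum_eq_single t]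
        · simp
        · intro j _ hj; simp [hj]
        · intro h; exact absurd (Finset.mem_univ t) h
  unfold kK
  rw [Finset.sum_eq_single t]
  · rw [hg t, if_pos rfl, hQ, add_mul, add_mul, Finset.sum_mul, Finset.sum_mul]
    congr 1
    · split_ifs with hst
      · subst hst
        have := he s
        calc d s * e s * e s = d s * e s ^ 2 := by ring
          _ = d s := by rw [this]; ring
      · ring
    · rw [← Finset.sum_add_distrib]
      refine Finset.sum_congr rfl fun l _ => ?_
      unfold lin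
      ring
  · intro i _ hi
    rw [hg i, if_neg hi, mul_zero]
  · intro h
    exact absurd (Finset.mem_univ t) h

theorem jet_zero_curv (e d : ι → ℝ) (he : ∀ i, e i ^ 2 = 1) (b : ι → ι → ι → ℝ) (s t : ι)
    (w : List ι) : jet (fun y => kK 0 e d b y s t) 0 w = Kjet d (lin e b) s t w := by
  have h : (fun y => kK 0 e d b y s t) =
      fun y => (if s = t then d s else 0) + ∑ l, lin e b s t l * y l := by
    funext y
    exact kK_zero e d y he b s t
  rw [h]
  match w with
  | [] =>
    show (if s = t then d s else 0) + ∑ l, lin e b s t l * (0 : ι → ℝ) l = _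
    simp [Kjet]
  | [l] =>
    show pd l (fun y => (if s = t then d s else 0) + ∑ l, lin e b s t l * y l) 0 = _
    rw [pd_affine]
    rfl
  | l :: l' :: w =>
    show jet (pd l' (pd l (fun y => (if s = t then d s else 0) + ∑ l, lin e b s t l * y l))) 0 w
      = _
    rw [pd_affine, pd_const, jet_zero]
    rfl

/-! ### Smooth dependence on a parameter -/

theorem jet_smooth {O : Set (ℝ × (ι → ℝ))} (hO : IsOpen O) (w : List ι) :
    ∀ G : ℝ × (ι → ℝ) → ℝ, ContDiffOn ℝ (⊤ : ℕ∞) G O →
      ContDiffOn ℝ (⊤ : ℕ∞) (fun z => jet (fun y => G (z.1, y)) z.2 w) O := by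
  induction w with
  | nil => intro G hG; exact hG
  | cons i w ih =>
    intro G hG
    have h1 : ContDiffOn ℝ (⊤ : ℕ∞) (fun z : ℝ × (ι → ℝ) => fderiv ℝ G z (0, Pi.single i 1)) O :=
      (hG.fderiv_of_isOpen hO (by norm_num)).clm_apply contDiffOn_const
    have h2 : ContDiffOn ℝ (⊤ : ℕ∞)
        (fun z : ℝ × (ι → ℝ) => pd i (fun y => G (z.1, y)) z.2) O := by
      refine h1.congr fun z hz => ?_
      have h3 : DifferentiableAt ℝ G z :=
        (hG.contDiffAt (hO.mem_nhds hz)).differentiableAt (by simp)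
      have h4 : HasFDerivAt (fun y : ι → ℝ => (z.1, y)) (ContinuousLinearMap.inr ℝ ℝ (ι → ℝ)) z.2 :=
        hasFDerivAt_prodMk_right z.1 z.2
      have h5 : HasFDerivAt (fun y : ι → ℝ => G (z.1, y))
          ((fderiv ℝ G z).comp (ContinuousLinearMap.inr ℝ ℝ (ι → ℝ))) z.2 :=
        HasFDerivAt.comp z.2 (show HasFDerivAt G (fderiv ℝ G z) (z.1, z.2) from h3.hasFDerivAt) h4
      unfold pd
      rw [h5.fderiv]
      rfl
    exact ih (fun z => pd i (fun y => G (z.1, y)) z.2) h2

theorem kK_smooth (e d : ι → ℝ) (b : ι → ι → ι → ℝ) (s t : ι) :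
    ContDiffOn ℝ (⊤ : ℕ∞) (fun z : ℝ × (ι → ℝ) => kK z.1 e d b z.2 s t)
      {z | 0 < rho z.1 e z.2} := by
  have hx : ∀ i : ι, ContDiff ℝ (⊤ : ℕ∞) (fun z : ℝ × (ι → ℝ) => z.2 i) := fun i =>
    (contDiff_apply ℝ ℝ i).comp contDiff_snd
  have hc : ContDiff ℝ (⊤ : ℕ∞) (fun z : ℝ × (ι → ℝ) => z.1) := contDiff_fst
  have hrho : ContDiff ℝ (⊤ : ℕ∞) (fun z : ℝ × (ι → ℝ) => rho z.1 e z.2) := by
    unfold rho
    refine contDiff_const.add (hc.mul (ContDiff.sum fun i _ => contDiff_const.mul ((hx i).pow 2)))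
  have hP : ∀ j s : ι, ContDiff ℝ (⊤ : ℕ∞) (fun z : ℝ × (ι → ℝ) => kP z.1 e z.2 j s) := by
    intro j s
    unfold kP
    exact contDiff_const.add (((hc.mul contDiff_const).mul (hx j)).mul (hx s))
  have hL : ∀ k l s : ι, ContDiff ℝ (⊤ : ℕ∞) (fun z : ℝ × (ι → ℝ) => kL e z.2 k l s) := by
    intro k l s
    unfold kL
    refine ContDiff.sub ?_ ?_
    · split_ifs
      · exact contDiff_const.mul (hx k)
      · exact contDiff_const
    · split_ifs
      · exact contDiff_const.mul (hx l)
      · exact contDiff_const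
  have hQ : ∀ (d : ι → ℝ) (s t : ι),
      ContDiff ℝ (⊤ : ℕ∞) (fun z : ℝ × (ι → ℝ) => kQ z.1 e d b z.2 s t) := by
    intro d s t
    unfold kQ
    refine ContDiff.add ?_ ?_
    · exact ContDiff.sum fun j _ => (contDiff_const.mul (hP j s)).mul (hP j t)
    · exact ContDiff.sum fun j _ => ContDiff.sum fun k _ => ContDiff.sum fun l _ =>
        contDiff_const.mul (((hP j s).mul (hL k l t)).add ((hP j t).mul (hL k l s)))
  have hG : ∀ i : ι, ContDiffOn ℝ (⊤ : ℕ∞) (fun z : ℝ × (ι → ℝ) => gMet z.1 e z.2 i t)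
      {z | 0 < rho z.1 e z.2} := by
    intro i
    unfold gMet
    refine ContDiffOn.div (ContDiff.contDiffOn ?_) (hrho.pow 2).contDiffOn ?_
    · refine ContDiff.sub ?_ ?_
      · split_ifs
        · exact hrho.mul contDiff_const
        · exact contDiff_const
      · exact (((hc.mul contDiff_const).mul contDiff_const).mul (hx i)).mul (hx t)
    · intro z hz
      have : 0 < rho z.1 e z.2 := hz
      positivity
  unfold kK
  exact ContDiffOn.sum fun i _ => (hQ _ s i).contDiffOn.mul (hG i)

theorem rho_cont (e : ι → ℝ) : Continuous (fun z : ℝ × (ι → ℝ) => rho z.1 e z.2) := by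
  unfold rho
  fun_prop

/-- **Continuity in the curvature.** -/
theorem t : S_CON := by
  intro ι _ _ c e d b he s t w
  have hO : IsOpen {z : ℝ × (ι → ℝ) | 0 < rho z.1 e z.2} :=
    isOpen_lt continuous_const (rho_cont e)
  have h0 : ((0 : ℝ), (0 : ι → ℝ)) ∈ {z : ℝ × (ι → ℝ) | 0 < rho z.1 e z.2} := by
    show 0 < rho 0 e 0
    unfold rho
    simp
  have h1 := jet_smooth hO w _ (kK_smooth e d b s t)
  have h2 := h1.continuousOn.continuousAt (hO.mem_nhds h0)
  have h3 : Tendsto (fun κ : ℝ => ((κ, (0 : ι → ℝ)) : ℝ × (ι → ℝ))) (𝓝 0) (𝓝 (0, 0)) := by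
    have : Continuous (fun κ : ℝ => ((κ, (0 : ι → ℝ)) : ℝ × (ι → ℝ))) := by fun_prop
    exact this.tendsto 0
  have h4 := h2.tendsto.comp h3
  have h5 : Tendsto (fun r : ℝ => c * r ^ 2) (𝓝[>] 0) (𝓝 0) := by
    have : Continuous (fun r : ℝ => c * r ^ 2) := by fun_prop
    have h := this.tendsto 0
    simp only [ne_eq, OfNat.ofNat_ne_zero, not_false_eq_true, zero_pow, mul_zero] at h
    exact h.mono_left nhdsWithin_le_nhds
  have h6 := h4.comp h5
  have h7 : jet (fun y => kK 0 e d b y s t) 0 w = Kjet d (lin e b) s t w :=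
    jet_zero_curv e d he b s t w
  have h8 : Tendsto (fun r : ℝ => jet (fun y => kK (c * r ^ 2) e d b y s t) 0 w) (𝓝[>] 0)
      (𝓝 (jet (fun y => kK 0 e d b y s t) 0 w)) := h6
  rw [h7] at h8
  refine h8.congr' ?_
  filter_upwards [self_mem_nhdsWithin] with r hr
  have hr0 : r ≠ 0 := ne_of_gt hr
  have h9 : (fun y => kK (c * r ^ 2) e d b y s t) =
      fun y => (fun x => kK c e d (fun i j k => r⁻¹ * b i j k) x s t) (r • y) := by
    funext y
    exact (kK_scale c r hr0 e d y b s t).symm
  have h10 := jet_comp r w (fun x => kK c e d (fun i j k => r⁻¹ * b i j k) x s t) 0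
  rw [smul_zero] at h10
  rw [h9]
  exact h10

end Pool.Agent.N531.KTC
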