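import Pool.Agent.N576.MX2.D

/-!
# Large regions coincide (project MX2, pieces LARGE and EQREG)
-/

set_option autoImplicit false

open Pool.Agent.N576.MX2

namespace Pool.Agent.N531.MX2

/-- same sum and same product -/
theorem pair_eq {i j i' j' : ℤ} (hs : i + j = i' + j') (hp : i * j = i' * j') :
    (i = i' ∧ j = j') ∨ (i = j' ∧ j = i') := by
  have h : (i - i') * (i - j') = 0 := by
    have h1 : j = i' + j' - i := by linarith
    rw [h1] at hp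
    linear_combination -hp
  rcases mul_eq_zero.1 h with h | h
  · left; constructor <;> linarith
  · right; constructor <;> linarith

theorem eqreg : EQREG := by
  intro u i j i' j' hu hi hj hi' hj' hN hc
  unfold NN at hN
  have hu2 : 1 ≤ u ^ 2 := one_le_pow₀ hu
  rcases hc with hc | ⟨h1, h2⟩
  · refine pair_eq hc ?_
    have h : (9 * u ^ 2 - 4) * (i * j - i' * j') = 0 := by
      linear_combination hN - (i + j + i' + j') * hc
    rcases mul_eq_zero.1 h with h | h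
    · exfalso; linarith
    · linarith
  · have hprod : i * j = i' * j' := by
      have h3 : 9 * u ^ 2 * (i * j - i' * j') = (i' - j') ^ 2 - (i - j) ^ 2 := by
        linear_combination hN
      have h4 : (i * j - i' * j') < 1 := by
        by_contra hcon
        push Not at hcon
        have h5 : 9 * u ^ 2 * 1 ≤ 9 * u ^ 2 * (i * j - i' * j') :=
          mul_le_mul_of_nonneg_left hcon (by linarith)
        have := sq_nonneg (i - j)
        linarith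
      have h6 : -1 < (i * j - i' * j') := by
        by_contra hcon
        push Not at hcon
        have h5 : 9 * u ^ 2 * (i * j - i' * j') ≤ 9 * u ^ 2 * (-1) :=
          mul_le_mul_of_nonneg_left hcon (by linarith)
        have := sq_nonneg (i' - j')
        linarith
      omega
    refine pair_eq ?_ hprod
    have h3 : (i + j) ^ 2 = (i' + j') ^ 2 := by
      linear_combination hN + (4 - 9 * u ^ 2) * hprod
    have h4 : (i + j - (i' + j')) * (i + j + (i' + j')) = 0 := by linear_combination h3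
    rcases mul_eq_zero.1 h4 with h | h
    · linarith
    · exfalso; linarith

/-- the comparison of the sizes -/
theorem size {u u' a b d d' H : ℤ} (hu : 1 ≤ u) (hu' : 1 ≤ u') (ha : 1 ≤ a) (hb : 1 ≤ b)
    (hd : 0 ≤ d) (hd' : 0 ≤ d') (hH : 2 ≤ H) (h4' : 4 * b + d' ≤ H ^ 2)
    (hN : (9 * u ^ 2 * a + d) * u' ^ 4 = (9 * u' ^ 2 * b + d') * u ^ 4) :
    2 * u' ≤ H * u := by
  have hu2 : 1 ≤ u ^ 2 := one_le_pow₀ hu
  have hu2' : 1 ≤ u' ^ 2 := one_le_pow₀ hu'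
  have e1 : 9 * u ^ 2 * u' ^ 4 ≤ (9 * u ^ 2 * a + d) * u' ^ 4 := by
    apply mul_le_mul_of_nonneg_right _ (by positivity)
    nlinarith [mul_le_mul_of_nonneg_left ha (show (0:ℤ) ≤ 9 * u ^ 2 by positivity)]
  have e2 : 4 * (9 * u' ^ 2 * b + d') ≤ u' ^ 2 * (9 * H ^ 2) := by
    have f1 : d' * 1 ≤ d' * u' ^ 2 := mul_le_mul_of_nonneg_left hu2' hd'
    have f2 : u' ^ 2 * (4 * b + d') ≤ u' ^ 2 * H ^ 2 := mul_le_mul_of_nonneg_left h4' (by positivity)
    nlinarith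
  have e3 : 4 * ((9 * u' ^ 2 * b + d') * u ^ 4) ≤ u' ^ 2 * (9 * H ^ 2) * u ^ 4 := by
    have := mul_le_mul_of_nonneg_right e2 (show (0:ℤ) ≤ u ^ 4 by positivity)
    linarith
  have e4 : (9 * (u ^ 2 * u' ^ 2)) * (2 * u') ^ 2 ≤ (9 * (u ^ 2 * u' ^ 2)) * (H * u) ^ 2 := by
    have g1 : (9 * (u ^ 2 * u' ^ 2)) * (2 * u') ^ 2 = 4 * (9 * u ^ 2 * u' ^ 4) := by ring
    have g2 : (9 * (u ^ 2 * u' ^ 2)) * (H * u) ^ 2 = u' ^ 2 * (9 * H ^ 2) * u ^ 4 := by ring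
    rw [g1, g2]
    linarith
  have e5 : (2 * u') ^ 2 ≤ (H * u) ^ 2 := le_of_mul_le_mul_left e4 (by positivity)
  exact le_of_sq_le_sq e5 (by positivity)

/-- number theory: `(a + b)² = m² a b` only for `m² = 4` -/
theorem arith {a b m : ℤ} (ha : 1 ≤ a) (hb : 1 ≤ b) (h : (a + b) ^ 2 = m ^ 2 * (a * b)) :
    m ^ 2 = 4 := by
  have hab : 0 < a * b := by positivity
  have h1 : (a ^ 2 - b ^ 2) ^ 2 = (m ^ 2 * (m ^ 2 - 4)) * (a * b) ^ 2 := by
    have e : (a - b) ^ 2 = (m ^ 2 - 4) * (a * b) := by linear_combination h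
    calc (a ^ 2 - b ^ 2) ^ 2 = (a + b) ^ 2 * (a - b) ^ 2 := by ring
      _ = (m ^ 2 * (a * b)) * ((m ^ 2 - 4) * (a * b)) := by rw [h, e]
      _ = _ := by ring
  have h2 : (a * b) ^ 2 ∣ (a ^ 2 - b ^ 2) ^ 2 := ⟨m ^ 2 * (m ^ 2 - 4), by rw [h1]; ring⟩
  rw [Int.pow_dvd_pow_iff (by norm_num)] at h2
  obtain ⟨k, hk⟩ := h2
  have h3 : k ^ 2 = m ^ 2 * (m ^ 2 - 4) := by
    have e : (a * b) ^ 2 * k ^ 2 = (a * b) ^ 2 * (m ^ 2 * (m ^ 2 - 4)) := by
      rw [← mul_pow, ← hk, h1]; ring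
    exact mul_left_cancel₀ (by positivity) e
  have hm4 : 4 ≤ m ^ 2 := by
    have e : 4 * (a * b) ≤ m ^ 2 * (a * b) := by
      rw [← h]; nlinarith [sq_nonneg (a - b)]
    exact le_of_mul_le_mul_right e hab
  -- T = m² - 2
  have h4 : k ^ 2 = (m ^ 2 - 2) ^ 2 - 4 := by rw [h3]; ring
  have h5 : |k| < m ^ 2 - 2 := by
    apply abs_lt_of_sq_lt_sq _ (by linarith)
    linarith
  have h6 : |k| ≤ m ^ 2 - 3 := by omega
  have h7 : k ^ 2 ≤ (m ^ 2 - 3) ^ 2 := by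
    rw [← sq_abs k]
    exact pow_le_pow_left₀ (abs_nonneg k) h6 2
  nlinarith

/-- the main estimate in integers -/
theorem core {u u' a b d d' H m : ℤ} (hu : 1 ≤ u) (hu' : 1 ≤ u') (ha : 1 ≤ a) (hb : 1 ≤ b)
    (hd : 0 ≤ d) (hd' : 0 ≤ d') (hH : 2 ≤ H) (h4 : 4 * a + d ≤ H ^ 2) (h4' : 4 * b + d' ≤ H ^ 2)
    (hN : (9 * u ^ 2 * a + d) * u' ^ 4 = (9 * u' ^ 2 * b + d') * u ^ 4)
    (hm0 : 0 ≤ m) (hmP : 2 * m ≤ 9 * (u * u'))
    (hm : 9 * (u * u' * m - (u ^ 2 + u' ^ 2)) = m ^ 2 - 4) (hbig : H ^ 20 ≤ u) : u = u' := by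
  have s1 : 2 * u' ≤ H * u := size hu hu' ha hb hd hd' hH h4' hN
  have s2 : 2 * u ≤ H * u' := size hu' hu hb ha hd' hd hH h4 hN.symm
  have hH0 : 0 < H := by linarith
  obtain ⟨P, hP⟩ : ∃ P, P = u * u' := ⟨_, rfl⟩
  have hPpos : 0 < P := by rw [hP]; positivity
  have q1 : 2 * u ^ 2 ≤ H * P := by rw [hP]; nlinarith
  have q2 : 2 * u' ^ 2 ≤ H * P := by rw [hP]; nlinarith
  rw [← hP] at hmP hm
  -- bound of m
  have hm2 : m ≤ 2 * H := by
    have e1 : 9 * (P * m) ≤ 9 * (H * P) + m ^ 2 := by linarith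
    have e2 : 2 * (m * m) ≤ 9 * P * m := by
      have := mul_le_mul_of_nonneg_right hmP hm0
      linarith
    have e3 : P * m ≤ P * (2 * H) := by nlinarith
    exact le_of_mul_le_mul_left e3 hPpos
  have hmsq : m ^ 2 ≤ 4 * H ^ 2 := by
    have := pow_le_pow_left₀ hm0 hm2 2
    linarith [this, (by ring : (2 * H) ^ 2 = 4 * H ^ 2)]
  obtain ⟨E, hE⟩ : ∃ E, E = a * u' ^ 2 - b * u ^ 2 := ⟨_, rfl⟩
  obtain ⟨F, hF⟩ : ∃ F, F = a * u ^ 2 - b * u' ^ 2 := ⟨_, rfl⟩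
  have hEeq : 9 * P ^ 2 * E = d' * (u ^ 2) ^ 2 - d * (u' ^ 2) ^ 2 := by
    rw [hP, hE]; linear_combination hN
  have hda : d ≤ H ^ 2 := by linarith
  have hda' : d' ≤ H ^ 2 := by linarith
  have r1 : 4 * (u ^ 2) ^ 2 ≤ (H * P) ^ 2 := by
    have := pow_le_pow_left₀ (show 0 ≤ 2 * u ^ 2 by positivity) q1 2
    linarith [this, (by ring : (2 * u ^ 2) ^ 2 = 4 * (u ^ 2) ^ 2)]
  have r2 : 4 * (u' ^ 2) ^ 2 ≤ (H * P) ^ 2 := by
    have := pow_le_pow_left₀ (show 0 ≤ 2 * u' ^ 2 by positivity) q2 2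
    linarith [this, (by ring : (2 * u' ^ 2) ^ 2 = 4 * (u' ^ 2) ^ 2)]
  have t1 : 4 * (d' * (u ^ 2) ^ 2) ≤ H ^ 2 * (H * P) ^ 2 := by
    calc 4 * (d' * (u ^ 2) ^ 2) = d' * (4 * (u ^ 2) ^ 2) := by ring
      _ ≤ H ^ 2 * (H * P) ^ 2 := mul_le_mul hda' r1 (by positivity) (by positivity)
  have t2 : 4 * (d * (u' ^ 2) ^ 2) ≤ H ^ 2 * (H * P) ^ 2 := by
    calc 4 * (d * (u' ^ 2) ^ 2) = d * (4 * (u' ^ 2) ^ 2) := by ring
      _ ≤ H ^ 2 * (H * P) ^ 2 := mul_le_mul hda r2 (by positivity) (by positivity)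
  have t3 : 0 ≤ d' * (u ^ 2) ^ 2 := by positivity
  have t4 : 0 ≤ d * (u' ^ 2) ^ 2 := by positivity
  have hEabs : 36 * |E| ≤ H ^ 4 := by
    have e1 : |9 * P ^ 2 * E| * 4 ≤ H ^ 2 * (H * P) ^ 2 := by
      rw [hEeq]
      rcases abs_cases (d' * (u ^ 2) ^ 2 - d * (u' ^ 2) ^ 2) with ⟨h, _⟩ | ⟨h, _⟩ <;> rw [h] <;>
        linarith
    rw [abs_mul, abs_of_pos (show 0 < 9 * P ^ 2 by positivity)] at e1
    have e2 : P ^ 2 * (36 * |E|) ≤ P ^ 2 * H ^ 4 := by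
      calc P ^ 2 * (36 * |E|) = 9 * P ^ 2 * |E| * 4 := by ring
        _ ≤ H ^ 2 * (H * P) ^ 2 := e1
        _ = P ^ 2 * H ^ 4 := by ring
    exact le_of_mul_le_mul_left e2 (by positivity)
  have hFabs : 8 * |F| ≤ H ^ 3 * P := by
    have v1 : 8 * (a * u ^ 2) ≤ H ^ 3 * P := by
      calc 8 * (a * u ^ 2) = (4 * a) * (2 * u ^ 2) := by ring
        _ ≤ H ^ 2 * (H * P) := mul_le_mul (by linarith) q1 (by positivity) (by positivity)
        _ = _ := by ring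
    have v2 : 8 * (b * u' ^ 2) ≤ H ^ 3 * P := by
      calc 8 * (b * u' ^ 2) = (4 * b) * (2 * u' ^ 2) := by ring
        _ ≤ H ^ 2 * (H * P) := mul_le_mul (by linarith) q2 (by positivity) (by positivity)
        _ = _ := by ring
    have v3 : 0 ≤ a * u ^ 2 := by positivity
    have v4 : 0 ≤ b * u' ^ 2 := by positivity
    rw [hF]
    rcases abs_cases (a * u ^ 2 - b * u' ^ 2) with ⟨h, _⟩ | ⟨h, _⟩ <;> rw [h] <;> linarith
  have hEF : 288 * |E * F| ≤ H ^ 7 * P := by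
    rw [abs_mul]
    calc 288 * (|E| * |F|) = (36 * |E|) * (8 * |F|) := by ring
      _ ≤ H ^ 4 * (H ^ 3 * P) := mul_le_mul hEabs hFabs (by positivity) (by positivity)
      _ = _ := by ring
  -- the second term
  obtain ⟨Q, hQ⟩ : ∃ Q, Q = u ^ 2 + u' ^ 2 := ⟨_, rfl⟩
  rw [← hQ] at hm
  have hQ0 : 0 ≤ Q := by rw [hQ]; positivity
  have hQP : Q ≤ H * P := by rw [hQ]; linarith
  have w1 : |m ^ 2 - 4| ≤ 4 * H ^ 2 := by
    rw [abs_le]
    constructor
    · nlinarith [sq_nonneg m]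
    · linarith
  have w2 : |Q + P * m| ≤ 3 * (H * P) := by
    have e : P * m ≤ P * (2 * H) := mul_le_mul_of_nonneg_left hm2 hPpos.le
    rw [abs_of_nonneg (by positivity)]
    linarith
  have w3 : 16 * |a * b| ≤ H ^ 4 := by
    rw [abs_of_pos (by positivity)]
    calc 16 * (a * b) = (4 * a) * (4 * b) := by ring
      _ ≤ H ^ 2 * H ^ 2 := mul_le_mul (by linarith) (by linarith) (by positivity) (by positivity)
      _ = _ := by ring
  have w4 : 4 * |(m ^ 2 - 4) * (Q + P * m) * (a * b)| ≤ 3 * (H ^ 7 * P) := by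
    rw [abs_mul, abs_mul]
    have e1 : |m ^ 2 - 4| * |Q + P * m| ≤ 4 * H ^ 2 * (3 * (H * P)) :=
      mul_le_mul w1 w2 (abs_nonneg _) (by positivity)
    have e2 : (|m ^ 2 - 4| * |Q + P * m|) * (16 * |a * b|) ≤ 4 * H ^ 2 * (3 * (H * P)) * H ^ 4 :=
      mul_le_mul e1 w3 (by positivity) (by positivity)
    have e3 : 4 * H ^ 2 * (3 * (H * P)) * H ^ 4 = 12 * (H ^ 7 * P) := by ring
    rw [e3] at e2
    linarith
  obtain ⟨N, hNN⟩ : ∃ N, N = (a + b) ^ 2 - m ^ 2 * (a * b) := ⟨_, rfl⟩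
  have hid : 9 * P ^ 2 * N = 9 * (E * F) - (m ^ 2 - 4) * (Q + P * m) * (a * b) := by
    rw [← hm, hNN, hE, hF, hQ, hP]; ring
  have hN0 : N = 0 := by
    by_contra hne
    have hN1 : 1 ≤ |N| := Int.one_le_abs hne
    have e1 : |9 * P ^ 2 * N| ≤ 9 * |E * F| + |(m ^ 2 - 4) * (Q + P * m) * (a * b)| := by
      rw [hid]
      refine (abs_sub _ _).trans ?_
      rw [abs_mul 9 (E * F), abs_of_pos (show (0:ℤ) < 9 by norm_num)]
    rw [abs_mul, abs_of_pos (show 0 < 9 * P ^ 2 by positivity)] at e1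
    have e2 : 9 * P ^ 2 * 1 ≤ 9 * P ^ 2 * |N| := mul_le_mul_of_nonneg_left hN1 (by positivity)
    have e3 : P * (9 * P) ≤ P * H ^ 7 := by
      have : (0:ℤ) ≤ H ^ 7 * P := by positivity
      nlinarith
    have e4 : 9 * P ≤ H ^ 7 := le_of_mul_le_mul_left e3 hPpos
    have e5 : H ^ 7 ≤ H ^ 20 := pow_le_pow_right₀ (by linarith) (by norm_num)
    have e6 : u ≤ P := by rw [hP]; nlinarith
    linarith
  have hfin : m ^ 2 = 4 := by
    apply arith ha hb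
    rw [hN0] at hNN
    linarith
  have hm' : m = 2 := by nlinarith
  rw [hm'] at hm
  have h1 : (u - u') ^ 2 = 0 := by
    rw [hP, hQ] at hm
    nlinarith
  have h2 : u - u' = 0 := pow_eq_zero_iff (by norm_num) |>.1 h1
  linarith

theorem large : LARGE := by
  intro u u' i j i' j' H n hu hu' hi hj hi' hj' hH hij hij' hn hN
  unfold NN at hN
  have ha : 1 ≤ i * j := by nlinarith
  have hb : 1 ≤ i' * j' := by nlinarith
  have h4 : 4 * (i * j) + (i - j) ^ 2 ≤ H ^ 2 := by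
    have := pow_le_pow_left₀ (show 0 ≤ i + j by linarith) hij 2
    linarith [this, (by ring : 4 * (i * j) + (i - j) ^ 2 = (i + j) ^ 2)]
  have h4' : 4 * (i' * j') + (i' - j') ^ 2 ≤ H ^ 2 := by
    have := pow_le_pow_left₀ (show 0 ≤ i' + j' by linarith) hij' 2
    linarith [this, (by ring : 4 * (i' * j') + (i' - j') ^ 2 = (i' + j') ^ 2)]
  have hN' : (9 * u ^ 2 * (i * j) + (i - j) ^ 2) * u' ^ 4 =
      (9 * u' ^ 2 * (i' * j') + (i' - j') ^ 2) * u ^ 4 := by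
    linear_combination hN
  have s1 : 2 * u' ≤ H * u := size hu hu' ha hb (sq_nonneg _) (sq_nonneg _) hH h4' hN'
  constructor
  · intro hbig
    have hn' : (n : ℤ) ^ 2 = 81 * (u * u') ^ 2 - 36 * (u ^ 2 + u' ^ 2) + 16 := by
      rw [hn]; ring
    have hpar : Even (9 * (u * u') - (n : ℤ)) := by
      have h1 : Even ((n : ℤ) ^ 2 - 81 * (u * u') ^ 2) := by
        refine ⟨-18 * (u ^ 2 + u' ^ 2) + 8, ?_⟩
        rw [hn']; ring
      have h2 : Even ((n : ℤ) - 9 * (u * u')) ∨ Even ((n : ℤ) + 9 * (u * u')) := by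
        rw [← Int.even_mul]
        convert h1 using 1
        ring
      rcases h2 with ⟨k, hk⟩ | ⟨k, hk⟩
      · exact ⟨-k, by linarith⟩
      · exact ⟨9 * (u * u') - k, by linarith⟩
    obtain ⟨m, hm⟩ := hpar
    have hn0 : (0 : ℤ) ≤ n := Int.natCast_nonneg n
    have hP0 : 1 ≤ u * u' := by nlinarith
    have hm0 : 0 ≤ m := by
      have h1 : (n : ℤ) < 9 * (u * u') := by
        apply lt_of_pow_lt_pow_left₀ 2 (by positivity)
        rw [hn']
        nlinarith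
      linarith
    refine core (m := m) hu hu' ha hb (sq_nonneg _) (sq_nonneg _) hH h4 h4' hN' hm0
      (by linarith) ?_ hbig
    have hnm : (n : ℤ) = 9 * (u * u') - 2 * m := by linarith
    rw [hnm] at hn'
    nlinarith
  · have h1 : (2 * u') ^ 2 ≤ (H * u) ^ 2 := pow_le_pow_left₀ (by linarith) s1 2
    nlinarith [sq_nonneg (H * u)]

end Pool.Agent.N531.MX2
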