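import Pool.Agent.N652.OM.Stm2

/-!
# Project OM (helper652), task SOFQ (helper531)

Sofic groups embed in the unitary group of the matrix ultraproduct.
-/

set_option autoImplicit false

namespace Pool.Agent.N531.OM_SOFQ

open Finset Filter Topology Equiv
open Pool.Agent.Helper278 (Mat OpBound NormBounded ntr IsMatrixUltraproduct)
open Pool.Agent.H21R2 (hamm IsSofic)

/-! ### Permutations -/

section perm

variable {c m n : ℕ}

/-- the permutation which acts by `τ` on every block -/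
noncomputable def blk (ι : Fin c × Fin m ↪ Fin n) (τ : Perm (Fin m)) : Perm (Fin n) :=
  Equiv.Perm.viaFintypeEmbedding ((Equiv.refl (Fin c)).prodCongr τ) ι

theorem blk_apply (ι : Fin c × Fin m ↪ Fin n) (τ : Perm (Fin m)) (a : Fin c) (x : Fin m) :
    blk ι τ (ι (a, x)) = ι (a, τ x) := by
  unfold blk
  rw [Equiv.Perm.viaFintypeEmbedding_apply_image]
  rfl

theorem blk_out (ι : Fin c × Fin m ↪ Fin n) (τ : Perm (Fin m)) {i : Fin n}
    (h : i ∉ Set.range ι) : blk ι τ i = i := by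
  unfold blk
  exact Equiv.Perm.viaFintypeEmbedding_apply_notMem_range _ _ h

theorem card_blk (ι : Fin c × Fin m ↪ Fin n) (f g : Fin n → Fin n) (f' g' : Fin m → Fin m)
    (hf : ∀ a x, f (ι (a, x)) = ι (a, f' x)) (hg : ∀ a x, g (ι (a, x)) = ι (a, g' x))
    (hout : ∀ i, i ∉ Set.range ι → f i = g i) :
    (univ.filter fun i => f i ≠ g i).card = c * (univ.filter fun x => f' x ≠ g' x).card := by
  have h1 : (univ.filter fun i => f i ≠ g i) =
      ((univ : Finset (Fin c)) ×ˢ (univ.filter fun x => f' x ≠ g' x)).map ι := by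
    ext i
    simp only [mem_filter, mem_univ, true_and, Finset.mem_map, mem_product, Prod.exists]
    constructor
    · intro h
      by_cases hi : i ∈ Set.range ι
      · obtain ⟨⟨a, x⟩, rfl⟩ := hi
        refine ⟨a, x, ?_, rfl⟩
        intro h'
        apply h
        rw [hf, hg, h']
      · exact absurd (hout i hi) h
    · rintro ⟨a, x, h, rfl⟩ h'
      rw [hf, hg] at h'
      exact h (Prod.ext_iff.1 (ι.injective h')).2
  rw [h1, card_map, card_product, card_univ, Fintype.card_fin]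

end perm

variable {Γ : Type} [Group Γ]

/-- good approximations -/
def Gd (A : Finset Γ) (ε : ℝ) (n : ℕ) (σ : Γ → Perm (Fin n)) : Prop :=
  (∀ a ∈ A, ∀ b ∈ A, hamm (σ (a * b)) (σ a * σ b) ≤ ε) ∧ ∀ a ∈ A, a ≠ 1 → 1 - ε ≤ hamm (σ a) 1

theorem Gd.mono {A A' : Finset Γ} {ε ε' : ℝ} {n : ℕ} {σ : Γ → Perm (Fin n)} (h : Gd A ε n σ)
    (hA : A' ⊆ A) (hε : ε ≤ ε') : Gd A' ε' n σ :=
  ⟨fun a ha b hb => (h.1 a (hA ha) b (hA hb)).trans hε, fun a ha h1 => by
    have := h.2 a (hA ha) h1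
    linarith⟩

theorem exists_gd (hΓ : IsSofic Γ) (A : Finset Γ) (ε : ℝ) (hε : 0 < ε) :
    ∃ N : ℕ, ∀ n : ℕ, N ≤ n → ∃ σ : Γ → Perm (Fin n), Gd A ε n σ := by
  classical
  obtain ⟨m, hm, φ, -, h2, h3⟩ := hΓ (insert 1 (A ∪ (A ×ˢ A).image fun p => p.1 * p.2))
    (mem_insert_self _ _) (ε / 2) (by positivity)
  have hA : ∀ a ∈ A, a ∈ insert (1 : Γ) (A ∪ (A ×ˢ A).image fun p => p.1 * p.2) := fun a ha =>
    mem_insert_of_mem (mem_union_left _ ha)
  have hAA : ∀ a ∈ A, ∀ b ∈ A, a * b ∈ insert (1 : Γ) (A ∪ (A ×ˢ A).image fun p => p.1 * p.2) :=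
    fun a ha b hb => mem_insert_of_mem (mem_union_right _ (mem_image.2
      ⟨(a, b), mem_product.2 ⟨ha, hb⟩, rfl⟩))
  have hm0 : (0 : ℝ) < m := by exact_mod_cast hm
  refine ⟨⌈2 * m / ε⌉₊ + 1, fun n hn => ?_⟩
  have hn1 : 1 ≤ n := by omega
  have hn0 : (0 : ℝ) < n := by exact_mod_cast hn1
  have hmn : (m : ℝ) / n ≤ ε / 2 := by
    have h4 : 2 * (m : ℝ) / ε ≤ n :=
      (Nat.le_ceil _).trans (by exact_mod_cast (by omega : ⌈2 * (m : ℝ) / ε⌉₊ ≤ n))
    rw [div_le_iff₀ hε] at h4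
    rw [div_le_iff₀ hn0]
    linarith
  set c := n / m with hc
  have hcm : c * m ≤ n := Nat.div_mul_le_self n m
  have hcm' : n < c * m + m := by
    have := Nat.div_add_mod n m
    have := Nat.mod_lt n hm
    rw [hc, mul_comm]
    omega
  have hcmr : (c : ℝ) * m ≤ n := by exact_mod_cast hcm
  have hcmr' : (n : ℝ) ≤ c * m + m := by exact_mod_cast hcm'.le
  obtain ⟨ι⟩ : Nonempty (Fin c × Fin m ↪ Fin n) := by
    apply Function.Embedding.nonempty_of_card_le
    rw [Fintype.card_prod, Fintype.card_fin, Fintype.card_fin, Fintype.card_fin]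
    exact hcm
  refine ⟨fun g => blk ι (φ g), ?_, ?_⟩
  · intro a ha b hb
    have e1 := card_blk ι (blk ι (φ (a * b))) (blk ι (φ a) * blk ι (φ b) : Perm (Fin n))
      (φ (a * b)) (φ a * φ b : Perm (Fin m)) (blk_apply ι _) (fun a' x => by
        rw [Perm.mul_apply, blk_apply, blk_apply]; rfl) (fun i hi => by
        rw [Perm.mul_apply, blk_out ι _ hi, blk_out ι _ hi, blk_out ι _ hi])
    have e2 := (h2 a (hA a ha) b (hA b hb) (hAA a ha b hb)).le
    unfold hamm at e2 ⊢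
    rw [e1, Nat.cast_mul, div_le_iff₀ hn0]
    rw [div_le_iff₀ hm0] at e2
    calc (c : ℝ) * ((univ.filter fun x => φ (a * b) x ≠ (φ a * φ b) x).card : ℝ) ≤
          c * (ε / 2 * m) := mul_le_mul_of_nonneg_left e2 (by positivity)
      _ = ε / 2 * (c * m) := by ring
      _ ≤ ε / 2 * n := mul_le_mul_of_nonneg_left hcmr (by positivity)
      _ ≤ ε * n := by nlinarith
  · intro a ha ha1
    have e1 := card_blk ι (blk ι (φ a)) (1 : Perm (Fin n)) (φ a) (1 : Perm (Fin m))
      (blk_apply ι _) (fun a' x => rfl) (fun i hi => by rw [blk_out ι _ hi]; rfl)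
    have e2 := h3 a (hA a ha) ha1
    unfold hamm at e2 ⊢
    rw [e1, Nat.cast_mul, le_div_iff₀ hn0]
    rw [le_div_iff₀ hm0] at e2
    rw [div_le_iff₀ hn0] at hmn
    have e3 : (c : ℝ) * ((1 - ε / 2) * m) ≤
        c * ((univ.filter fun x => φ a x ≠ (1 : Perm (Fin m)) x).card : ℝ) :=
      mul_le_mul_of_nonneg_left e2 (by positivity)
    rcases le_or_gt ε 2 with h | h
    · have e4 : (1 - ε / 2) * (n - m) ≤ (1 - ε / 2) * (c * m) :=
        mul_le_mul_of_nonneg_left (by linarith) (by linarith)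
      nlinarith
    · have e5 : (0 : ℝ) ≤ c * ((univ.filter fun x => φ a x ≠ (1 : Perm (Fin m)) x).card : ℝ) := by
        positivity
      nlinarith

/-- sofic approximations of every size -/
theorem exists_seq [Countable Γ] (hΓ : IsSofic Γ) : ∃ σ : ∀ n, Γ → Perm (Fin n),
    (∀ a b : Γ, Tendsto (fun n => hamm (σ n (a * b)) (σ n a * σ n b)) atTop (𝓝 0)) ∧
    ∀ a : Γ, a ≠ 1 → Tendsto (fun n => hamm (σ n a) 1) atTop (𝓝 1) := by
  classical
  obtain ⟨A, hmono, hex⟩ : ∃ A : ℕ → Finset Γ, Monotone A ∧ ∀ g, ∃ j, g ∈ A j := by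
    have : Nonempty Γ := ⟨1⟩
    obtain ⟨f, hf⟩ := exists_surjective_nat Γ
    refine ⟨fun j => (range (j + 1)).image f, ?_, ?_⟩
    · intro i j hij
      exact image_subset_image (range_mono (by omega))
    · intro g
      obtain ⟨j, rfl⟩ := hf g
      exact ⟨j, mem_image_of_mem _ (self_mem_range_succ j)⟩
  have hP : ∀ j : ℕ, ∃ N : ℕ, ∀ n, N ≤ n → ∃ σ : Γ → Perm (Fin n), Gd (A j) (1 / (j + 1)) n σ :=
    fun j => exists_gd hΓ (A j) _ (by positivity)
  choose N hN using hP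
  let P : ℕ → ℕ → Prop := fun n j => ∃ σ : Γ → Perm (Fin n), Gd (A j) (1 / (j + 1)) n σ
  let J : ℕ → ℕ := fun n => Nat.findGreatest (P n) n
  have hJ : ∀ n, N 0 ≤ n → P n (J n) := fun n hn =>
    Nat.findGreatest_spec (P := P n) (Nat.zero_le n) (hN 0 n hn)
  have hJ' : ∀ j n, N j ≤ n → j ≤ n → j ≤ J n := fun j n h1 h2 =>
    Nat.le_findGreatest h2 (hN j n h1)
  have hJt : Tendsto J atTop atTop := by
    rw [tendsto_atTop]
    intro j
    filter_upwards [eventually_ge_atTop (N j + j)] with n hn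
    exact hJ' j n (by omega) (by omega)
  have hch : ∀ n, ∃ σ : Γ → Perm (Fin n), N 0 ≤ n → Gd (A (J n)) (1 / (J n + 1)) n σ := by
    intro n
    by_cases h : N 0 ≤ n
    · obtain ⟨σ, hσ⟩ := hJ n h
      exact ⟨σ, fun _ => hσ⟩
    · exact ⟨fun _ => 1, fun h' => absurd h' h⟩
  choose σ hσ using hch
  have hlim : Tendsto (fun n => 1 / ((J n : ℝ) + 1)) atTop (𝓝 0) :=
    tendsto_one_div_add_atTop_nhds_zero_nat.comp hJt
  have hev : ∀ g : Γ, ∀ᶠ n in atTop, g ∈ A (J n) := by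
    intro g
    obtain ⟨j, hj⟩ := hex g
    filter_upwards [hJt.eventually_ge_atTop j] with n hn
    exact hmono hn hj
  refine ⟨σ, fun a b => ?_, fun a ha => ?_⟩
  · refine squeeze_zero' (Eventually.of_forall fun n => ?_) ?_ hlim
    · unfold hamm
      positivity
    · filter_upwards [hev a, hev b, eventually_ge_atTop (N 0)] with n h1 h2 h3
      exact (hσ n h3).1 a h1 b h2
  · have h1 : Tendsto (fun n => 1 - 1 / ((J n : ℝ) + 1)) atTop (𝓝 1) := by
      simpa using hlim.const_sub 1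
    refine tendsto_of_tendsto_of_tendsto_of_le_of_le' h1 tendsto_const_nhds ?_
      (Eventually.of_forall fun n => ?_)
    · filter_upwards [hev a, eventually_ge_atTop (N 0)] with n h1 h3
      exact (hσ n h3).2 a h1 ha
    · unfold hamm
      apply div_le_one_of_le₀ _ (Nat.cast_nonneg n)
      have := card_filter_le (univ : Finset (Fin n)) fun i => σ n a i ≠ (1 : Perm (Fin n)) i
      rw [card_univ, Fintype.card_fin] at this
      exact_mod_cast this

/-! ### Permutation matrices -/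

section mat

variable {n : ℕ}

/-- permutation matrices -/
noncomputable abbrev PM (σ : Perm (Fin n)) : Mat n := σ.permMatrix ℂ

theorem pm_apply (σ : Perm (Fin n)) (i j : Fin n) : PM σ i j = if σ i = j then 1 else 0 := by
  rw [PM, Equiv.Perm.permMatrix, PEquiv.toMatrix_apply]
  simp only [Equiv.toPEquiv_apply, Option.mem_def, Option.some.injEq]

theorem pm_mul_pm (σ τ : Perm (Fin n)) : PM σ * PM τ = PM (τ * σ) := by
  ext i j
  rw [Matrix.mul_apply, pm_apply]
  simp only [pm_apply, ite_mul, one_mul, zero_mul]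
  rw [Finset.sum_ite_eq (univ : Finset (Fin n)) (σ i), if_pos (mem_univ _)]
  rfl

theorem star_pm (σ : Perm (Fin n)) : star (PM σ) = PM σ⁻¹ := by
  ext i j
  rw [Matrix.star_apply, pm_apply, pm_apply]
  by_cases h : σ j = i
  · have h' : σ⁻¹ i = j := by rw [← h]; simp
    rw [if_pos h, if_pos h', star_one]
  · have h' : ¬ σ⁻¹ i = j := by
      rintro rfl
      exact h (by simp)
    rw [if_neg h, if_neg h', star_zero]

theorem pm_one : PM (1 : Perm (Fin n)) = 1 := by
  ext i j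
  rw [pm_apply, Matrix.one_apply]
  rfl

theorem star_pm_mul (σ : Perm (Fin n)) : star (PM σ) * PM σ = 1 := by
  rw [star_pm, pm_mul_pm, mul_inv_cancel, pm_one]

theorem bdd_pm (σ : ∀ n, Perm (Fin n)) : NormBounded (fun n => PM (σ n)) := by
  refine ⟨1, fun n v => ?_⟩
  rw [one_pow, one_mul]
  have : ∀ i, (PM (σ n)).mulVec v i = v (σ n i) := by
    intro i
    rw [PM, Equiv.Perm.permMatrix, PEquiv.toMatrix_toPEquiv_mulVec]
    rfl
  simp only [this]
  exact le_of_eq (Equiv.sum_comp (σ n) (fun i => ‖v i‖ ^ 2))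

/-- the proportion of the points where two permutations agree -/
theorem agree (hn : 1 ≤ n) (σ τ : Perm (Fin n)) :
    ((univ.filter fun i => σ i = τ i).card : ℝ) / n = 1 - hamm σ τ := by
  have h := card_filter_add_card_filter_not (s := (univ : Finset (Fin n))) (fun x => σ x = τ x)
  rw [card_univ, Fintype.card_fin] at h
  have hn' : (n : ℝ) ≠ 0 := by positivity
  unfold hamm
  rw [eq_sub_iff_add_eq, ← add_div, div_eq_one_iff_eq hn']
  exact_mod_cast h

theorem ntr_pm (hn : 1 ≤ n) (σ τ : Perm (Fin n)) :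
    ntr n (PM (σ⁻¹ * τ)) = ((1 - hamm σ τ : ℝ) : ℂ) := by
  unfold ntr
  rw [Matrix.trace]
  simp only [Matrix.diag_apply, pm_apply]
  rw [sum_boole, ← agree hn, Complex.ofReal_div, Complex.ofReal_natCast, Complex.ofReal_natCast,
    div_eq_inv_mul]
  congr 3
  ext i
  simp only [mem_filter, mem_univ, true_and]
  rw [Perm.mul_apply, Perm.inv_eq_iff_eq]
  exact eq_comm

theorem ntr_diff (hn : 1 ≤ n) (σ τ : Perm (Fin n)) :
    ntr n (star (PM σ - PM τ) * (PM σ - PM τ)) = ((2 * hamm σ⁻¹ τ⁻¹ : ℝ) : ℂ) := by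
  have e : star (PM σ - PM τ) * (PM σ - PM τ) =
      PM (1 : Perm (Fin n)) - PM (τ * σ⁻¹) - PM (σ * τ⁻¹) + PM (1 : Perm (Fin n)) := by
    rw [star_sub, sub_mul, mul_sub, mul_sub, star_pm, star_pm, pm_mul_pm, pm_mul_pm, pm_mul_pm,
      pm_mul_pm, mul_inv_cancel, mul_inv_cancel]
    abel
  have hl : ∀ x y z w : Mat n, ntr n (x - y - z + w) = ntr n x - ntr n y - ntr n z + ntr n w := by
    intro x y z w
    unfold ntr
    rw [Matrix.trace_add, Matrix.trace_sub, Matrix.trace_sub]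
    ring
  rw [e, hl]
  have h1 := ntr_pm hn (1 : Perm (Fin n)) 1
  rw [inv_one, one_mul] at h1
  have h2 := ntr_pm hn τ⁻¹ σ⁻¹
  have h3 := ntr_pm hn σ⁻¹ τ⁻¹
  rw [inv_inv] at h2 h3
  rw [h1, h2, h3]
  have h4 : hamm (1 : Perm (Fin n)) 1 = 0 := by
    unfold hamm
    simp
  have h5 : hamm τ⁻¹ σ⁻¹ = hamm σ⁻¹ τ⁻¹ := by
    unfold hamm
    congr 3
    ext i
    simp only [mem_filter, mem_univ, true_and]
    exact ne_comm
  rw [h4, h5]
  push_cast
  ring

end mat

/-! ### The homomorphism to the ultraproduct -/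

theorem main : Pool.Agent.N652.OM.S_SOFQ := by
  intro U hU Q _ _ _ _ π φ h Γ _ _ hΓ
  obtain ⟨σ, hσ1, hσ2⟩ := exists_seq hΓ
  have hUt : (U : Filter ℕ) ≤ atTop := by
    rw [← Nat.cofinite_eq_atTop]
    rcases U.le_cofinite_or_eq_pure with h1 | ⟨a, h1⟩
    · exact h1
    · refine absurd ?_ (hU a)
      rw [h1]
      exact mem_pure.2 rfl
  -- equality in the ultraproduct
  have key : ∀ α β : ∀ n, Perm (Fin n), Tendsto (fun n => hamm (α n) (β n)) atTop (𝓝 0) →
      π (fun n => PM (α n)⁻¹) = π (fun n => PM (β n)⁻¹) := by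
    intro α β hαβ
    have hb1 := bdd_pm fun n => (α n)⁻¹
    have hb2 := bdd_pm fun n => (β n)⁻¹
    have hb3 : NormBounded (fun n => (-1 : ℂ) • PM (β n)⁻¹) := by
      obtain ⟨C, hC⟩ := hb2
      refine ⟨C, fun n v => ?_⟩
      have := hC n v
      rw [Matrix.smul_mulVec]
      simpa using this
    have e1 := h.add _ _ hb1 hb3
    rw [h.smul (-1) _ hb2] at e1
    have hb4 : NormBounded (fun n => PM (α n)⁻¹ + (-1 : ℂ) • PM (β n)⁻¹) := by
      obtain ⟨C, hC⟩ := hb1
      obtain ⟨C', hC'⟩ := hb3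
      refine ⟨2 * (|C| + |C'|), fun n => (hC n).add (hC' n)⟩
    have e2 := (h.ker _ hb4).2 (by
      have h1 : Tendsto (fun n => ((2 * hamm (α n) (β n) : ℝ) : ℂ)) (U : Filter ℕ) (𝓝 0) := by
        have h2 := ((hαβ.const_mul 2).mono_left hUt)
        rw [mul_zero] at h2
        have h3 := (Complex.continuous_ofReal.tendsto 0).comp h2
        rwa [Complex.ofReal_zero] at h3
      refine h1.congr' ?_
      filter_upwards [hUt (eventually_ge_atTop 1)] with n hn
      have h4 : PM (α n)⁻¹ + (-1 : ℂ) • PM (β n)⁻¹ = PM (α n)⁻¹ - PM (β n)⁻¹ := by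
        rw [neg_smul, one_smul, sub_eq_add_neg]
      rw [h4, ntr_diff hn, inv_inv, inv_inv])
    rw [e1, neg_smul, one_smul, ← sub_eq_add_neg, sub_eq_zero] at e2
    exact e2
  have hb : ∀ a : Γ, NormBounded (fun n => PM (σ n a)⁻¹) := fun a => bdd_pm fun n => (σ n a)⁻¹
  have hmul : ∀ a b : Γ, π (fun n => PM (σ n (a * b))⁻¹) =
      π (fun n => PM (σ n a)⁻¹) * π (fun n => PM (σ n b)⁻¹) := by
    intro a b
    rw [← h.mul _ _ (hb a) (hb b), key (fun n => σ n (a * b)) (fun n => σ n a * σ n b) (hσ1 a b)]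
    congr 1
    funext n
    rw [pm_mul_pm, mul_inv_rev]
  have hstar : ∀ a : Γ, star (π (fun n => PM (σ n a)⁻¹)) * π (fun n => PM (σ n a)⁻¹) = 1 := by
    intro a
    have e1 : star (π (fun n => PM (σ n a)⁻¹)) = π (fun n => PM (σ n a)) := by
      rw [← h.star _ (hb a)]
      congr 1
      funext n
      rw [star_pm, inv_inv]
    rw [e1, ← h.mul _ _ (bdd_pm fun n => σ n a) (hb a), ← h.one]
    congr 1
    funext n
    rw [pm_mul_pm, inv_mul_cancel, pm_one]
  have hone : π (fun n => PM (σ n (1 : Γ))⁻¹) = 1 := by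
    have e1 := hmul 1 1
    rw [mul_one] at e1
    have e2 := hstar 1
    rw [e1, ← mul_assoc] at e2
    rw [← e1, hstar 1, one_mul] at e2
    exact e2
  refine ⟨
    { toFun := fun a => π (fun n => PM (σ n a)⁻¹)
      map_one' := hone
      map_mul' := hmul }, fun g => ?_, fun g hg => ?_⟩
  · show star (π (fun n => PM (σ n g)⁻¹)) = π (fun n => PM (σ n g⁻¹)⁻¹)
    have e1 := hmul g g⁻¹
    rw [mul_inv_cancel, hone] at e1
    calc star (π (fun n => PM (σ n g)⁻¹)) = star (π (fun n => PM (σ n g)⁻¹)) * 1 := (mul_one _).symm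
      _ = star (π (fun n => PM (σ n g)⁻¹)) * (π (fun n => PM (σ n g)⁻¹) *
          π (fun n => PM (σ n g⁻¹)⁻¹)) := by rw [← e1]
      _ = _ := by rw [← mul_assoc, hstar, one_mul]
  · show φ (π (fun n => PM (σ n g)⁻¹)) = 0
    refine tendsto_nhds_unique (h.trace _ (hb g)) ?_
    have h1 : Tendsto (fun n => ((1 - hamm (σ n g) 1 : ℝ) : ℂ)) (U : Filter ℕ) (𝓝 0) := by
      have h2 := ((hσ2 g hg).const_sub 1).mono_left hUt
      rw [sub_self] at h2
      have h3 := (Complex.continuous_ofReal.tendsto 0).comp h2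
      rwa [Complex.ofReal_zero] at h3
    refine h1.congr' ?_
    filter_upwards [hUt (eventually_ge_atTop 1)] with n hn
    rw [← ntr_pm hn, mul_one]

end Pool.Agent.N531.OM_SOFQ
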