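import Pool.Agent.N795.PI.Stm

set_option autoImplicit false

/-!
# Derivatives of a radial function (project PI, piece RAD)
-/

namespace Pool.Agent.N795.PI

open Filter Topology

namespace Rad531

theorem norm_fd (x : E3) (hx : x ≠ 0) :
    HasFDerivAt (fun y : E3 => ‖y‖) ((1 / (2 * ‖x‖)) • ((2 : ℝ) • innerSL ℝ x)) x := by
  have h1 := (hasStrictFDerivAt_norm_sq x).hasFDerivAt
  have hn : ‖x‖ ^ 2 ≠ 0 := pow_ne_zero 2 (norm_ne_zero_iff.2 hx)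
  have h2 := h1.sqrt hn
  have h3 : (fun y : E3 => Real.sqrt (‖y‖ ^ 2)) = fun y => ‖y‖ := by
    funext y
    exact Real.sqrt_sq (norm_nonneg y)
  rw [h3, Real.sqrt_sq (norm_nonneg x)] at h2
  have e : (2 : ℝ) • innerSL ℝ x = (2 : ℕ) • innerSL ℝ x := by
    rw [two_smul, two_smul]
  rw [e]
  exact h2

theorem fd_comp (k : ℝ → ℝ) (k' : ℝ) (x : E3) (hx : x ≠ 0) (hk : HasDerivAt k k' ‖x‖) :
    HasFDerivAt (fun y : E3 => k ‖y‖) (k' • ((1 / (2 * ‖x‖)) • ((2 : ℝ) • innerSL ℝ x))) x :=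
  hk.comp_hasFDerivAt x (norm_fd x hx)

theorem app (k' : ℝ) (x : E3) (i : Fin 3) :
    (k' • ((1 / (2 * ‖x‖)) • ((2 : ℝ) • innerSL ℝ x))) (EuclideanSpace.single i (1 : ℝ)) =
      k' * x i / ‖x‖ := by
  have h : (innerSL ℝ x) (EuclideanSpace.single i (1 : ℝ)) = x i := by
    simp [EuclideanSpace.inner_single_right]
  show k' * ((1 / (2 * ‖x‖)) * (2 * (innerSL ℝ x) (EuclideanSpace.single i (1 : ℝ)))) = _
  rw [h]
  by_cases hx : ‖x‖ = 0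
  · rw [hx]; simp
  · field_simp

theorem first (f : ℝ → ℝ) (hf : SmoothRad f) (x : E3) (hx : x ≠ 0) (i : Fin 3) :
    pd i (rad f) x = deriv f ‖x‖ * x i / ‖x‖ := by
  have h1 : HasDerivAt f (deriv f ‖x‖) ‖x‖ :=
    ((hf ‖x‖ (norm_pos_iff.2 hx)).2.differentiableAt (by norm_num)).hasDerivAt
  have h2 := fd_comp f _ x hx h1
  unfold pd rad
  rw [h2.fderiv, app]

theorem sec (f : ℝ → ℝ) (hf : SmoothRad f) (x : E3) (hx : x ≠ 0) (i : Fin 3) :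
    pd i (pd i (rad f)) x = deriv f ‖x‖ / ‖x‖ +
      x i * (((deriv (deriv f) ‖x‖ * ‖x‖ - deriv f ‖x‖) / ‖x‖ ^ 2) * x i / ‖x‖) := by
  have hpos : 0 < ‖x‖ := norm_pos_iff.2 hx
  have hev : pd i (rad f) =ᶠ[𝓝 x] fun y => (fun t : ℝ => deriv f t / t) ‖y‖ * y i := by
    filter_upwards [isOpen_ne.mem_nhds hx] with y hy
    rw [first f hf y hy i]
    show _ = deriv f ‖y‖ / ‖y‖ * y i
    ring
  have hd : HasDerivAt (deriv f) (deriv (deriv f) ‖x‖) ‖x‖ := by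
    have h2 : ContDiffAt ℝ 1 (fderiv ℝ f) ‖x‖ :=
      (hf ‖x‖ hpos).2.fderiv_right (m := 1) (by norm_num)
    have h3 : DifferentiableAt ℝ (fderiv ℝ f) ‖x‖ := h2.differentiableAt (by norm_num)
    have h4 : DifferentiableAt ℝ (fun t => fderiv ℝ f t 1) ‖x‖ :=
      h3.clm_apply (differentiableAt_const _)
    exact h4.hasDerivAt
  have hk : HasDerivAt (fun t : ℝ => deriv f t / t)
      ((deriv (deriv f) ‖x‖ * ‖x‖ - deriv f ‖x‖ * 1) / ‖x‖ ^ 2) ‖x‖ :=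
    hd.div (hasDerivAt_id ‖x‖) hpos.ne'
  have h2 := fd_comp (fun t : ℝ => deriv f t / t) _ x hx hk
  have h3 : HasFDerivAt (fun y : E3 => y i) (EuclideanSpace.proj i : E3 →L[ℝ] ℝ) x :=
    (EuclideanSpace.proj i : E3 →L[ℝ] ℝ).hasFDerivAt
  have h4 := h2.mul h3
  show fderiv ℝ (pd i (rad f)) x (EuclideanSpace.single i (1 : ℝ)) = _
  rw [hev.fderiv_eq]
  have h5 := h4.fderiv
  have h6 : fderiv ℝ (fun y : E3 => (fun t : ℝ => deriv f t / t) ‖y‖ * y i) x =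
      fderiv ℝ ((fun y : E3 => deriv f ‖y‖ / ‖y‖) * fun y : E3 => y i) x := rfl
  rw [h6, h5]
  show deriv f ‖x‖ / ‖x‖ * (EuclideanSpace.proj i : E3 →L[ℝ] ℝ) (EuclideanSpace.single i (1 : ℝ)) +
    x i * ((((deriv (deriv f) ‖x‖ * ‖x‖ - deriv f ‖x‖ * 1) / ‖x‖ ^ 2) •
      ((1 / (2 * ‖x‖)) • ((2 : ℝ) • innerSL ℝ x))) (EuclideanSpace.single i (1 : ℝ))) = _
  rw [app]
  simp

end Rad531

open Rad531 in
/-- **Derivatives of a radial function.** -/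
theorem rad_pf : Rad := by
  intro f hf x hx
  refine ⟨fun i => first f hf x hx i, ?_⟩
  have hpos : 0 < ‖x‖ := norm_pos_iff.2 hx
  rw [Finset.sum_congr rfl fun i _ => sec f hf x hx i]
  have hs : ∑ i, x i ^ 2 = ‖x‖ ^ 2 := by
    rw [EuclideanSpace.real_norm_sq_eq]
  rw [Fin.sum_univ_three] at hs ⊢
  have hne : ‖x‖ ≠ 0 := hpos.ne'
  generalize ‖x‖ = t at *
  field_simp
  have e : x 0 ^ 2 = t ^ 2 - x 1 ^ 2 - x 2 ^ 2 := by linarith
  ring_nf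
  ring_nf at e
  rw [e]
  ring

end Pool.Agent.N795.PI
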