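import Pool.Agent.N804.CS
import Pool.Agent.N804.PV.Def
import Pool.Agent.W354.LS.Kern

set_option autoImplicit false

/-! # Project PV, part TAU: the Tauberian theorem for the weight `sinc ^ 2` -/

namespace Pool.Agent.N531.PVTAU

open Filter Topology Set MeasureTheory FourierTransform
open Pool.Agent.N804 Pool.Agent.N804.PV

lemma ct_cont {h : ℝ → ℝ} (H : SC h) : Continuous (CT h) := by
  unfold CT
  refine continuous_of_dominated (bound := fun α => |h α|) (fun x => ?_) (fun x => ?_) ?_ ?_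
  · exact (H.int_cos x).aestronglyMeasurable
  · refine ae_of_all _ fun α => ?_
    rw [Real.norm_eq_abs, abs_mul]
    exact mul_le_of_le_one_right (abs_nonneg _) (Real.abs_cos_le_one _)
  · exact (H.cont.integrable_of_hasCompactSupport H.cs).abs
  · exact ae_of_all _ fun α => by fun_prop

lemma ct_dec {b : ℝ → ℝ} (H : SC b) (n : ℕ) : ∃ A : ℝ, 0 ≤ A ∧ ∀ x : ℝ, |x| ^ n * |CT b x| ≤ A := by
  obtain ⟨A0, h0⟩ := CT_dec H 0
  obtain ⟨A1, h1⟩ := CT_dec H n
  have hA0 : 0 ≤ A0 := le_trans (by positivity) (h0 0)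
  have hA1 : 0 ≤ A1 := by
    refine le_trans ?_ (h1 1)
    simp
  refine ⟨A0 + A1, by positivity, fun x => ?_⟩
  have e0 := h0 x
  have e1 := h1 x
  have hp : |x| ^ n ≤ 1 + x ^ (2 * n) := by
    have : x ^ (2 * n) = (|x| ^ n) ^ 2 := by rw [← pow_mul, mul_comm n 2, pow_mul, pow_mul, sq_abs]
    rw [this]
    nlinarith [sq_nonneg (|x| ^ n - 1), pow_nonneg (abs_nonneg x) n]
  calc |x| ^ n * |CT b x| ≤ (1 + x ^ (2 * n)) * |CT b x| := by gcongr
    _ = x ^ (2 * 0) * |CT b x| + x ^ (2 * n) * |CT b x| := by ring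
    _ ≤ _ := add_le_add e0 e1

lemma ct_intp {b : ℝ → ℝ} (H : SC b) (n : ℕ) : Integrable fun x : ℝ => |x| ^ n * |CT b x| := by
  obtain ⟨A0, hA0, h0⟩ := ct_dec H n
  obtain ⟨A1, hA1, h1⟩ := ct_dec H (n + 2)
  have hC := ct_cont H
  refine Integrable.mono' (integrable_inv_one_add_sq.const_mul (A0 + A1))
    (by fun_prop : Continuous fun x : ℝ => |x| ^ n * |CT b x|).aestronglyMeasurable
    (ae_of_all _ fun x => ?_)
  have e0 := h0 x
  have e1 := h1 x
  rw [Real.norm_eq_abs, abs_of_nonneg (by positivity), ← div_eq_mul_inv,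
    le_div_iff₀ (by positivity)]
  calc |x| ^ n * |CT b x| * (1 + x ^ 2) = |x| ^ n * |CT b x| + |x| ^ (n + 2) * |CT b x| := by
        rw [← sq_abs x]
        ring
    _ ≤ _ := add_le_add e0 e1

lemma ct_integrable {b : ℝ → ℝ} (H : SC b) : Integrable (CT b) := by
  have := ct_intp H 0
  simp only [pow_zero, one_mul] at this
  exact (integrable_norm_iff (ct_cont H).aestronglyMeasurable).1 this

/-- Fourier inversion for even functions -/
lemma ct_inv {b : ℝ → ℝ} (H : SC b) (he : ∀ x, b (-x) = b x) (v : ℝ) :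
    ∫ k : ℝ, CT b k * Real.cos (2 * Real.pi * k * v) = b v := by
  have hF : ∀ x : ℝ, 𝓕 (fun α : ℝ => (b α : ℂ)) x = (CT b x : ℂ) := by
    intro x
    rw [Real.fourier_eq']
    have hi : Integrable fun v : ℝ => Complex.exp (↑(-2 * Real.pi * inner ℝ v x) * Complex.I) •
        (b v : ℂ) := by
      have hbc := H.cont
      refine Continuous.integrable_of_hasCompactSupport (by fun_prop) ?_
      refine H.cs.mono ?_
      intro v hv
      simp only [Function.mem_support, smul_eq_mul, ne_eq, mul_eq_zero, not_or] at hv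
      simpa using hv.2
    have hin : ∀ v : ℝ, -2 * Real.pi * inner ℝ v x = -(2 * Real.pi * v * x) := by
      intro v
      have : inner ℝ v x = v * x := by simp [mul_comm]
      rw [this]
      ring
    refine Complex.ext ?_ ?_
    · rw [← RCLike.re_eq_complex_re, ← integral_re hi, RCLike.re_eq_complex_re, Complex.ofReal_re]
      unfold CT
      congr 1
      funext v
      rw [hin, smul_eq_mul, mul_comm, Complex.re_ofReal_mul,
        Complex.exp_ofReal_mul_I_re, Real.cos_neg]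
    · rw [← RCLike.im_eq_complex_im, ← integral_im hi, RCLike.im_eq_complex_im, Complex.ofReal_im]
      have e1 : ∀ v : ℝ, (Complex.exp (↑(-2 * Real.pi * inner ℝ v x) * Complex.I) •
          (b v : ℂ)).im = -(b v * Real.sin (2 * Real.pi * v * x)) := by
        intro v
        rw [hin, smul_eq_mul, mul_comm, Complex.im_ofReal_mul,
          Complex.exp_ofReal_mul_I_im, Real.sin_neg]
        ring
      simp_rw [e1]
      rw [integral_neg, neg_eq_zero]
      have e2 := integral_neg_eq_self (fun v : ℝ => b v * Real.sin (2 * Real.pi * v * x)) volume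
      have e3 : ∀ v : ℝ, b (-v) * Real.sin (2 * Real.pi * (-v) * x) =
          -(b v * Real.sin (2 * Real.pi * v * x)) := by
        intro v
        rw [he, show 2 * Real.pi * (-v) * x = -(2 * Real.pi * v * x) by ring, Real.sin_neg]
        ring
      simp only [e3, integral_neg] at e2
      linarith
  have hFf : 𝓕 (fun α : ℝ => (b α : ℂ)) = fun x => (CT b x : ℂ) := funext hF
  have hc : Continuous fun α : ℝ => (b α : ℂ) := by
    have hbc := H.cont
    fun_prop
  have hi : Integrable fun α : ℝ => (b α : ℂ) :=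
    (H.cont.integrable_of_hasCompactSupport H.cs).ofReal
  have hi2 : Integrable (𝓕 (fun α : ℝ => (b α : ℂ))) := by
    rw [hFf]
    exact (ct_integrable H).ofReal
  have hinv := congrFun (hc.fourierInv_fourier_eq hi hi2) v
  rw [Real.fourierInv_eq', hFf] at hinv
  have hre := congrArg Complex.re hinv
  rw [Complex.ofReal_re] at hre
  rw [← hre]
  have hCc := ct_cont H
  have hInt : Integrable (fun k : ℝ => Complex.exp (((2 * Real.pi * inner ℝ k v : ℝ) : ℂ) *
      Complex.I) • ((CT b k : ℝ) : ℂ)) := by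
    have h0 : Continuous (fun k : ℝ => Complex.exp (((2 * Real.pi * inner ℝ k v : ℝ) : ℂ) *
      Complex.I)) := by fun_prop
    refine ((ct_integrable H).ofReal (𝕜 := ℂ)).bdd_smul 1 h0.aestronglyMeasurable ?_
    refine Filter.Eventually.of_forall fun k => ?_
    rw [Complex.norm_exp_ofReal_mul_I]
  have h4 := (Complex.reCLM.integral_comp_comm hInt)
  refine Eq.trans ?_ h4
  congr 1
  funext k
  rw [Complex.reCLM_apply, smul_eq_mul, Complex.re_mul_ofReal, Complex.exp_ofReal_mul_I_re]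
  have : inner ℝ k v = k * v := by simp [mul_comm]
  rw [this, mul_comm, mul_assoc (2 * Real.pi)]

lemma ph_even (x : ℝ) : ph (-x) = ph x := by
  unfold ph
  rw [neg_div, Real.sinc_neg]

lemma ph_abs (x : ℝ) : ph |x| = ph x := by
  rcases abs_choice x with h | h <;> rw [h]
  exact ph_even x

lemma ph_nonneg (x : ℝ) : 0 ≤ ph x := sq_nonneg _

lemma ph_le_one (x : ℝ) : ph x ≤ 1 := by
  unfold ph
  rw [← sq_abs]
  have := Real.abs_sinc_le_one (x / 2)
  have := abs_nonneg (Real.sinc (x / 2))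
  nlinarith

lemma ph_cont : Continuous ph := by
  unfold ph
  have := Real.continuous_sinc
  fun_prop

lemma one_sub_cos (x : ℝ) : 1 - Real.cos (2 * x) = 2 * (x ^ 2 * ph (2 * x)) := by
  unfold ph
  rw [show 2 * x / 2 = x by ring]
  have h1 : x ^ 2 * Real.sinc x ^ 2 = Real.sin x ^ 2 := by
    by_cases hx : x = 0
    · subst hx; simp
    · rw [Real.sinc_of_ne_zero hx]
      field_simp
  rw [h1, Real.cos_two_mul, Real.cos_sq']
  ring

/-- the function `v ^ 2 χ v` -/
noncomputable def gg (χ : ℝ → ℝ) (x : ℝ) : ℝ := x ^ 2 * χ x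

lemma gg_SC {χ : ℝ → ℝ} (H : SC χ) : SC (gg χ) :=
  ⟨(contDiff_id.pow 2).mul H.sm, H.cs.mul_left⟩

lemma gg_even {χ : ℝ → ℝ} (he : ∀ x, χ (-x) = χ x) (x : ℝ) : gg χ (-x) = gg χ x := by
  unfold gg
  rw [he]
  ring

lemma chi_rep {χ : ℝ → ℝ} (H : SC χ) (he : ∀ x, χ (-x) = χ x) {v : ℝ} (hv : v ≠ 0) :
    χ v = -(2 * Real.pi ^ 2) * ∫ k : ℝ, k ^ 2 * CT (gg χ) k * ph (2 * Real.pi * k * v) := by
  have hG := gg_SC H
  have h0 := ct_inv hG (gg_even he) 0
  have h1 := ct_inv hG (gg_even he) v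
  have hi := ct_integrable hG
  have hi1 : Integrable fun k : ℝ => CT (gg χ) k * Real.cos (2 * Real.pi * k * v) := by
    have hC := ct_cont hG
    refine Integrable.mono' hi.abs (by fun_prop : Continuous fun k : ℝ => CT (gg χ) k *
      Real.cos (2 * Real.pi * k * v)).aestronglyMeasurable (ae_of_all _ fun k => ?_)
    rw [Real.norm_eq_abs, abs_mul]
    exact mul_le_of_le_one_right (abs_nonneg _) (Real.abs_cos_le_one _)
  have h2 : ∫ k : ℝ, CT (gg χ) k = 0 := by
    have : ∀ k : ℝ, CT (gg χ) k * Real.cos (2 * Real.pi * k * 0) = CT (gg χ) k := by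
      intro k; simp
    simp_rw [this] at h0
    rw [h0]
    simp [gg]
  have h3 : ∫ k : ℝ, (CT (gg χ) k - CT (gg χ) k * Real.cos (2 * Real.pi * k * v)) =
      -(v ^ 2 * χ v) := by
    rw [integral_sub hi hi1, h2, h1]
    unfold gg
    ring
  have h4 : ∀ k : ℝ, CT (gg χ) k - CT (gg χ) k * Real.cos (2 * Real.pi * k * v) =
      2 * Real.pi ^ 2 * v ^ 2 * (k ^ 2 * CT (gg χ) k * ph (2 * Real.pi * k * v)) := by
    intro k
    have := one_sub_cos (Real.pi * k * v)
    rw [show 2 * (Real.pi * k * v) = 2 * Real.pi * k * v by ring] at this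
    calc CT (gg χ) k - CT (gg χ) k * Real.cos (2 * Real.pi * k * v) =
        CT (gg χ) k * (1 - Real.cos (2 * Real.pi * k * v)) := by ring
      _ = _ := by rw [this]; ring
  simp_rw [h4] at h3
  rw [integral_const_mul] at h3
  have hv2 : v ^ 2 ≠ 0 := pow_ne_zero 2 hv
  apply mul_left_cancel₀ hv2
  linarith

lemma int_ph {k : ℝ} (hk : k ≠ 0) : ∫ v in Ioi (0 : ℝ), ph (2 * Real.pi * k * v) = 1 / (2 * |k|) := by
  have hk0 : 0 < |k| := abs_pos.2 hk
  have h1 : ∀ v ∈ Ioi (0 : ℝ), ph (2 * Real.pi * k * v) =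
      (fun t : ℝ => Real.sinc (Real.pi * t) ^ 2) (|k| * v) := by
    intro v hv
    have hv0 : 0 < v := hv
    have hpi := Real.pi_pos
    rw [← ph_abs, abs_mul, abs_mul, abs_of_pos hv0, abs_of_pos (by positivity : 0 < 2 * Real.pi)]
    unfold ph
    simp only
    congr 2
    ring
  rw [setIntegral_congr_fun measurableSet_Ioi h1, integral_comp_mul_left_Ioi
    (fun t : ℝ => Real.sinc (Real.pi * t) ^ 2) 0 hk0, mul_zero]
  have h2 : ∫ t : ℝ, Real.sinc (Real.pi * t) ^ 2 = 1 := by
    have := Pool.Agent.W354.LS.KT_total (δ := 1) one_pos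
    unfold Pool.Agent.W354.LS.KT at this
    simpa using this
  have h3 : ∫ t in Ioi (0 : ℝ), Real.sinc (Real.pi * t) ^ 2 = 1 / 2 := by
    have h := integral_comp_abs (f := fun t : ℝ => Real.sinc (Real.pi * t) ^ 2)
    have h' : ∀ t : ℝ, Real.sinc (Real.pi * |t|) ^ 2 = Real.sinc (Real.pi * t) ^ 2 := by
      intro t
      rcases abs_choice t with ht | ht <;> rw [ht]
      rw [mul_neg, Real.sinc_neg]
    simp_rw [h'] at h
    rw [h2] at h
    linarith
  rw [h3, smul_eq_mul]
  field_simp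

lemma ph_intble {k : ℝ} (hk : k ≠ 0) : IntegrableOn (fun v : ℝ => ph (2 * Real.pi * k * v))
    (Ioi (0 : ℝ)) := by
  have h1 := (Pool.Agent.W354.LS.sinc_fourier_int).comp_mul_left' hk
  refine (h1.congr (ae_of_all _ fun v => ?_)).integrableOn
  simp only
  unfold ph
  congr 2
  ring

/-- the functional -/
noncomputable def JJ (χ : ℝ → ℝ) : ℝ := ∫ k : ℝ, |k| * CT (gg χ) k

lemma chi_int {χ : ℝ → ℝ} (H : SC χ) (he : ∀ x, χ (-x) = χ x) :
    ∫ v in Ioi (0 : ℝ), χ v = -(Real.pi ^ 2) * JJ χ := by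
  have hG := gg_SC H
  have hC := ct_cont hG
  have hph := ph_cont
  have h1 : ∫ v in Ioi (0 : ℝ), χ v = ∫ v in Ioi (0 : ℝ), -(2 * Real.pi ^ 2) *
      ∫ k : ℝ, k ^ 2 * CT (gg χ) k * ph (2 * Real.pi * k * v) := by
    refine setIntegral_congr_fun measurableSet_Ioi fun v hv => ?_
    exact chi_rep H he (ne_of_gt hv)
  have hmeas : AEStronglyMeasurable (Function.uncurry fun (v k : ℝ) =>
      k ^ 2 * CT (gg χ) k * ph (2 * Real.pi * k * v))
      ((volume.restrict (Ioi (0 : ℝ))).prod volume) := by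
    apply Continuous.aestronglyMeasurable
    unfold Function.uncurry
    fun_prop
  have hint : ∀ k : ℝ, ∫ v in Ioi (0 : ℝ), ‖k ^ 2 * CT (gg χ) k * ph (2 * Real.pi * k * v)‖ =
      |k| ^ 1 * |CT (gg χ) k| / 2 := by
    intro k
    by_cases hk : k = 0
    · subst hk; simp
    · have : ∀ v : ℝ, ‖k ^ 2 * CT (gg χ) k * ph (2 * Real.pi * k * v)‖ =
          |k| ^ 2 * |CT (gg χ) k| * ph (2 * Real.pi * k * v) := by
        intro v
        rw [norm_mul, norm_mul, Real.norm_eq_abs, Real.norm_eq_abs, Real.norm_eq_abs,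
          abs_of_nonneg (ph_nonneg _), abs_pow]
      simp_rw [this]
      rw [integral_const_mul, int_ph hk]
      have := abs_pos.2 hk
      field_simp
  have hprod : Integrable (Function.uncurry fun (v k : ℝ) =>
      k ^ 2 * CT (gg χ) k * ph (2 * Real.pi * k * v))
      ((volume.restrict (Ioi (0 : ℝ))).prod volume) := by
    rw [integrable_prod_iff' hmeas]
    refine ⟨ae_of_all _ fun k => ?_, ?_⟩
    · simp only [Function.uncurry]
      by_cases hk : k = 0
      · subst hk; simp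
      · exact (ph_intble hk).const_mul _
    · simp only [Function.uncurry]
      simp_rw [hint]
      exact (ct_intp hG 1).div_const 2
  rw [h1, integral_const_mul, integral_integral_swap hprod]
  have h2 : ∀ k : ℝ, ∫ v in Ioi (0 : ℝ), k ^ 2 * CT (gg χ) k * ph (2 * Real.pi * k * v) =
      (1 / 2) * (|k| * CT (gg χ) k) := by
    intro k
    by_cases hk : k = 0
    · subst hk; simp
    · rw [integral_const_mul, int_ph hk]
      have := abs_pos.2 hk
      rw [← sq_abs]
      field_simp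
  simp_rw [h2]
  rw [integral_const_mul]
  unfold JJ
  ring

/-- convergence against smooth even test functions -/
lemma lim_chi (hb : S_ABELB) {ι : Type} {ℓ B T0 : ℝ} {A : ℝ → Finset ι} {p c : ℝ → ι → ℝ}
    (hpc : ∀ T : ℝ, T0 ≤ T → ∀ i ∈ A T, 0 < p T i ∧ 0 ≤ c T i)
    (hB : ∀ T : ℝ, T0 ≤ T → ∀ v : ℝ, 0 < v →
      ∑ i ∈ A T, (if p T i ≤ v then c T i else 0) ≤ B * (1 + v))
    (hlim : ∀ lam : ℝ, 0 < lam → Tendsto (fun T => ∑ i ∈ A T, ph (p T i / lam) * c T i) atTop
      (𝓝 (Real.pi * lam * ℓ)))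
    {χ : ℝ → ℝ} (H : SC χ) (he : ∀ x, χ (-x) = χ x) :
    Tendsto (fun T => ∑ i ∈ A T, χ (p T i) * c T i) atTop (𝓝 (ℓ * ∫ v in Ioi (0 : ℝ), χ v)) := by
  obtain ⟨C, hC0, hab⟩ := hb
  have hpi := Real.pi_pos
  have hG := gg_SC H
  have hC := ct_cont hG
  have hph := ph_cont
  set B' := max B 0 with hB'
  have hB0 : 0 ≤ B' := le_max_right _ _
  have hsum : ∀ T : ℝ, T0 ≤ T → ∀ k : ℝ, k ≠ 0 →
      ∑ i ∈ A T, ph (2 * Real.pi * k * p T i) * c T i ≤ C * B' * (1 + 1 / (2 * Real.pi * |k|)) := by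
    intro T hT k hk
    have hk0 := abs_pos.2 hk
    have h1 := (hab ι (A T) (p T) (c T) B' hB0 (hpc T hT) (fun v hv => (hB T hT v hv).trans
      (by
        have : B ≤ B' := le_max_left _ _
        have : 0 ≤ 1 + v := by linarith
        gcongr)) (1 / (2 * Real.pi * |k|)) (by positivity)).1
    refine le_trans (le_of_eq ?_) h1
    refine Finset.sum_congr rfl fun i hi => ?_
    congr 1
    have hp0 := (hpc T hT i hi).1
    rw [← ph_abs, abs_mul, abs_mul, abs_of_pos hp0, abs_of_pos (by positivity : 0 < 2 * Real.pi)]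
    congr 1
    field_simp
  have hexch : ∀ T : ℝ, T0 ≤ T → ∑ i ∈ A T, χ (p T i) * c T i = -(2 * Real.pi ^ 2) *
      ∫ k : ℝ, k ^ 2 * CT (gg χ) k * ∑ i ∈ A T, ph (2 * Real.pi * k * p T i) * c T i := by
    intro T hT
    have hi1 : ∀ i ∈ A T, Integrable fun k : ℝ => k ^ 2 * CT (gg χ) k *
        ph (2 * Real.pi * k * p T i) * c T i := by
      intro i _
      refine Integrable.mul_const ?_ _
      refine Integrable.mono' (ct_intp hG 2) (by fun_prop : Continuous fun k : ℝ =>
        k ^ 2 * CT (gg χ) k * ph (2 * Real.pi * k * p T i)).aestronglyMeasurable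
        (ae_of_all _ fun k => ?_)
      rw [norm_mul, norm_mul, Real.norm_eq_abs, Real.norm_eq_abs, Real.norm_eq_abs,
          abs_of_nonneg (ph_nonneg _), abs_pow]
      exact mul_le_of_le_one_right (by positivity) (ph_le_one _)
    have h1 : ∀ k : ℝ, k ^ 2 * CT (gg χ) k * ∑ i ∈ A T, ph (2 * Real.pi * k * p T i) * c T i =
        ∑ i ∈ A T, k ^ 2 * CT (gg χ) k * ph (2 * Real.pi * k * p T i) * c T i := by
      intro k
      rw [Finset.mul_sum]
      refine Finset.sum_congr rfl fun i _ => ?_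
      ring
    simp_rw [h1]
    rw [integral_finsetSum _ hi1, Finset.mul_sum]
    refine Finset.sum_congr rfl fun i hi => ?_
    rw [integral_mul_const]
    have := chi_rep H he (ne_of_gt (hpc T hT i hi).1)
    rw [this]
    ring
  have hlim2 : Tendsto (fun T : ℝ => ∫ k : ℝ, k ^ 2 * CT (gg χ) k *
      ∑ i ∈ A T, ph (2 * Real.pi * k * p T i) * c T i) atTop
      (𝓝 (∫ k : ℝ, (ℓ / 2) * (|k| * CT (gg χ) k))) := by
    refine tendsto_integral_filter_of_dominated_convergence
      (fun k : ℝ => C * B' * (|k| ^ 2 * |CT (gg χ) k|) +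
        C * B' / (2 * Real.pi) * (|k| ^ 1 * |CT (gg χ) k|)) ?_ ?_ ?_ ?_
    · refine Eventually.of_forall fun T => ?_
      have : Continuous fun k : ℝ => ∑ i ∈ A T, ph (2 * Real.pi * k * p T i) * c T i := by
        fun_prop
      exact (by fun_prop : Continuous fun k : ℝ => k ^ 2 * CT (gg χ) k *
        ∑ i ∈ A T, ph (2 * Real.pi * k * p T i) * c T i).aestronglyMeasurable
    · filter_upwards [eventually_ge_atTop T0] with T hT
      refine ae_of_all _ fun k => ?_
      by_cases hk : k = 0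
      · subst hk; simp
      · have hk0 := abs_pos.2 hk
        have h1 := hsum T hT k hk
        have h0 : 0 ≤ ∑ i ∈ A T, ph (2 * Real.pi * k * p T i) * c T i :=
          Finset.sum_nonneg fun i hi => mul_nonneg (ph_nonneg _) (hpc T hT i hi).2
        rw [norm_mul, norm_mul, Real.norm_eq_abs, Real.norm_eq_abs, Real.norm_eq_abs,
          abs_of_nonneg h0, abs_pow]
        calc |k| ^ 2 * |CT (gg χ) k| * ∑ i ∈ A T, ph (2 * Real.pi * k * p T i) * c T i ≤
            |k| ^ 2 * |CT (gg χ) k| * (C * B' * (1 + 1 / (2 * Real.pi * |k|))) := by gcongr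
          _ = _ := by field_simp
    · exact ((ct_intp hG 2).const_mul _).add ((ct_intp hG 1).const_mul _)
    · have hae : ∀ᵐ k : ℝ, k ≠ 0 := by
        have := (measure_singleton (μ := (volume : Measure ℝ)) (0 : ℝ))
        exact compl_mem_ae_iff.2 this
      filter_upwards [hae] with k hk
      have hk0 := abs_pos.2 hk
      have h1 := (hlim (1 / (2 * Real.pi * |k|)) (by positivity)).const_mul (k ^ 2 * CT (gg χ) k)
      have h2 : k ^ 2 * CT (gg χ) k * (Real.pi * (1 / (2 * Real.pi * |k|)) * ℓ) =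
          (ℓ / 2) * (|k| * CT (gg χ) k) := by
        rw [← sq_abs]
        field_simp
      rw [h2] at h1
      refine h1.congr' ?_
      filter_upwards [eventually_ge_atTop T0] with T hT
      congr 1
      refine Finset.sum_congr rfl fun i hi => ?_
      congr 1
      have hp0 := (hpc T hT i hi).1
      rw [← ph_abs (2 * Real.pi * k * p T i), abs_mul, abs_mul, abs_of_pos hp0,
        abs_of_pos (by positivity : 0 < 2 * Real.pi)]
      congr 1
      field_simp
  have h3 := hlim2.const_mul (-(2 * Real.pi ^ 2))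
  have h4 : -(2 * Real.pi ^ 2) * ∫ k : ℝ, (ℓ / 2) * (|k| * CT (gg χ) k) =
      ℓ * ∫ v in Ioi (0 : ℝ), χ v := by
    rw [integral_const_mul, chi_int H he]
    unfold JJ
    ring
  rw [h4] at h3
  refine h3.congr' ?_
  filter_upwards [eventually_ge_atTop T0] with T hT
  exact (hexch T hT).symm

/-- even bump functions -/
lemma bump_SC {r R : ℝ} (hr : 0 < r) (hR : r < R) : ∃ χ : ℝ → ℝ, SC χ ∧ (∀ x, χ (-x) = χ x) ∧
    (∀ x, 0 ≤ χ x) ∧ (∀ x, χ x ≤ 1) ∧ (∀ x, |x| ≤ r → χ x = 1) ∧ (∀ x, R ≤ |x| → χ x = 0) := by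
  let f : ContDiffBump (0 : ℝ) := ⟨r, R, hr, hR⟩
  refine ⟨f, ⟨f.contDiff, f.hasCompactSupport⟩, fun x => f.neg x, fun x => f.nonneg,
    fun x => f.le_one, fun x hx => ?_, fun x hx => ?_⟩
  · exact f.one_of_mem_closedBall (by rw [mem_closedBall_zero_iff]; exact hx)
  · exact f.zero_of_le_dist (by rw [dist_zero_right]; exact hx)

lemma bump_int {χ : ℝ → ℝ} {r R : ℝ} (H : SC χ) (hr : 0 < r) (hR : r < R) (h0 : ∀ x, 0 ≤ χ x)
    (h1 : ∀ x, χ x ≤ 1) (hr1 : ∀ x, |x| ≤ r → χ x = 1) (hR0 : ∀ x, R ≤ |x| → χ x = 0) :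
    r ≤ ∫ v in Ioi (0 : ℝ), χ v ∧ ∫ v in Ioi (0 : ℝ), χ v ≤ R := by
  have hi : Integrable χ := H.cont.integrable_of_hasCompactSupport H.cs
  constructor
  · have e1 : ∫ v in Ioc (0 : ℝ) r, χ v = r := by
      rw [setIntegral_congr_fun (g := fun _ => (1 : ℝ)) measurableSet_Ioc fun v hv => hr1 v
        (by rw [abs_of_pos hv.1]; exact hv.2)]
      simp [hr.le]
    rw [← e1]
    exact setIntegral_mono_set hi.integrableOn (Filter.Eventually.of_forall fun t => h0 t)
      (Ioc_subset_Ioi_self.eventuallyLE)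
  · have hRp : 0 < R := hr.trans hR
    have e1 : ∫ v in Ioi (0 : ℝ), χ v = ∫ v in Ioc (0 : ℝ) R, χ v := by
      refine setIntegral_eq_of_subset_of_forall_sdiff_eq_zero measurableSet_Ioi
        Ioc_subset_Ioi_self fun v hv => hR0 v ?_
      have hv0 : 0 < v := hv.1
      rw [abs_of_pos hv0]
      by_contra hc
      push Not at hc
      exact hv.2 ⟨hv0, hc.le⟩
    rw [e1]
    have e2 : ∫ v in Ioc (0 : ℝ) R, (1 : ℝ) = R := by simp [hRp.le]
    calc ∫ v in Ioc (0 : ℝ) R, χ v ≤ ∫ v in Ioc (0 : ℝ) R, (1 : ℝ) :=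
          setIntegral_mono_on hi.integrableOn (by simp) measurableSet_Ioc fun v _ => h1 v
      _ = R := e2

theorem main (hb : S_ABELB) : S_TAU := by
  intro ι ℓ B T0 A p c hpc hB hlim
  have hpi := Real.pi_pos
  have hl0 : 0 ≤ ℓ := by
    have h1 := hlim 1 one_pos
    have h2 : 0 ≤ Real.pi * 1 * ℓ := by
      refine ge_of_tendsto h1 ?_
      filter_upwards [eventually_ge_atTop T0] with T hT
      exact Finset.sum_nonneg fun i hi => mul_nonneg (ph_nonneg _) (hpc T hT i hi).2
    by_contra hneg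
    push Not at hneg
    have : Real.pi * 1 * ℓ < 0 := by
      rw [mul_one]
      exact mul_neg_of_pos_of_neg hpi hneg
    linarith
  rw [tendsto_order]
  have hη : ∀ ε : ℝ, 0 < ε → ∃ η : ℝ, 0 < η ∧ η < 1 ∧ ℓ * η < ε := by
    intro ε hε
    refine ⟨min (1 / 2) (ε / (ℓ + 1)), by positivity, lt_of_le_of_lt (min_le_left _ _)
      (by norm_num), ?_⟩
    calc ℓ * min (1 / 2) (ε / (ℓ + 1)) ≤ ℓ * (ε / (ℓ + 1)) := by
          gcongr
          exact min_le_right _ _
      _ < ε := by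
        rw [mul_div_assoc', div_lt_iff₀ (by positivity)]
        nlinarith
  constructor
  · intro a ha
    obtain ⟨η, h0, h1, h2⟩ := hη (ℓ - a) (by linarith)
    obtain ⟨χ, H, he, hn, hle, hr1, hR0⟩ := bump_SC (r := 1 - η) (R := 1) (by linarith)
      (by linarith)
    obtain ⟨hI, -⟩ := bump_int H (by linarith) (by linarith) hn hle hr1 hR0
    have hl := lim_chi hb hpc hB hlim H he
    have h3 : a < ℓ * ∫ v in Ioi (0 : ℝ), χ v := by
      calc a < ℓ * (1 - η) := by linarith
        _ ≤ _ := by gcongr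
    filter_upwards [eventually_ge_atTop T0, (tendsto_order.1 hl).1 a h3] with T hT h4
    refine lt_of_lt_of_le h4 (Finset.sum_le_sum fun i hi => ?_)
    obtain ⟨hp, hc⟩ := hpc T hT i hi
    split_ifs with h5
    · exact mul_le_of_le_one_left hc (hle _)
    · rw [hR0 _ (by rw [abs_of_pos hp]; linarith), zero_mul]
  · intro a ha
    obtain ⟨η, h0, h1, h2⟩ := hη (a - ℓ) (by linarith)
    obtain ⟨χ, H, he, hn, hle, hr1, hR0⟩ := bump_SC (r := 1) (R := 1 + η) one_pos
      (by linarith)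
    obtain ⟨-, hI⟩ := bump_int H one_pos (by linarith) hn hle hr1 hR0
    have hl := lim_chi hb hpc hB hlim H he
    have h3 : ℓ * ∫ v in Ioi (0 : ℝ), χ v < a := by
      calc ℓ * ∫ v in Ioi (0 : ℝ), χ v ≤ ℓ * (1 + η) := by gcongr
        _ < a := by linarith
    filter_upwards [eventually_ge_atTop T0, (tendsto_order.1 hl).2 a h3] with T hT h4
    refine lt_of_le_of_lt (Finset.sum_le_sum fun i hi => ?_) h4
    obtain ⟨hp, hc⟩ := hpc T hT i hi
    split_ifs with h5
    · rw [hr1 _ (by rw [abs_of_pos hp]; exact h5), one_mul]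
    · exact mul_nonneg (hn _) hc

end Pool.Agent.N531.PVTAU
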